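import Pool.Agent.H336R2.BV.Defs

/-!
# Blueprint: beta values
-/

open Polynomial Filter Topology

namespace Pool.Agent.H336R2.BV

open Pool.Agent.H337R2

noncomputable section

/-! ## Task 1: the linear form -/

/-- limits of the shifted alternating sums, `q = 2a+1 > 0` -/
theorem T1a_tendsto_pos (e a : ℕ) (he : 1 ≤ e) :
    Tendsto (fun N : ℕ => ∑ b ∈ Finset.range N, (-1 : ℝ) ^ b / (2 * (b : ℝ) + (2 * a + 1)) ^ e) atTop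
      (𝓝 ((-1) ^ a * ((if e = 1 then Real.pi / 4 else bt e) - (hb e a : ℚ)))) := by
  sorry

/-- limits of the shifted alternating sums, `q = 1 - 2a < 0` -/
theorem T1b_tendsto_neg (e a : ℕ) (he : 1 ≤ e) :
    Tendsto (fun N : ℕ => ∑ b ∈ Finset.range N, (-1 : ℝ) ^ b / (2 * (b : ℝ) + (1 - 2 * a)) ^ e) atTop
      (𝓝 ((-1) ^ a * ((if e = 1 then Real.pi / 4 else bt e) - (-1) ^ e * (hb e a : ℚ)))) := by
  sorry

/-- parity -/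
theorem T1c_parity (h n : ℕ) (ds : List ℕ) (hh : Odd h) (hn : Odd n)
    (hc : ∀ d ∈ ds, 0 < d) (h2 : ∀ d ∈ ds, 2 * d < h) {k : ℕ} (hk : k ∈ ss h 0 n) {i : ℕ} (hi : 1 ≤ i) :
    ba h n ds (h * n - k) i = -(-1) ^ i * ba h n ds k i := by
  sorry

theorem T1_hasSum (h n : ℕ) (ds : List ℕ) (hh : Odd h) (hn : Odd n)
    (hc : ∀ d ∈ ds, 0 < d) (h2 : ∀ d ∈ ds, 2 * d < h)
    (hdeg : h * n + 2 ≤ (ds.map fun d => (h - 2 * d) * n + 1).sum) (u : ℕ → ℚ)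
    (hu : ∀ i, Even i → 2 ≤ i → i ≤ ds.length → bt i = (u i : ℝ)) {F : ℝ} (hF : HasSum (trm h n ds) F) :
    F = ((xfb h n ds u : ℚ) : ℝ) := by
  sorry

/-! ## Task 2: positivity and size -/

/-- closed form of the terms -/
theorem T2a_trm (h n : ℕ) (ds : List ℕ) (hn : 1 ≤ n)
    (hc : ∀ d ∈ ds, 0 < d) (h2 : ∀ d ∈ ds, 2 * d < h) (a : ℕ) :
    trm h n ds a = (-1) ^ a * (4 ^ (h * n) * ((a + h * n).choose (h * n) : ℝ) *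
      (ds.map fun d => (Nat.factorial ((h - 2 * d) * n) : ℝ) /
        ∏ k ∈ Finset.Icc (d * n) (h * n - d * n), ((a : ℝ) + 1 / 2 + k)).prod) := by
  sorry

/-- the analytic core: bounds for the power series, uniformly for `0 ≤ X < 1` -/
theorem T2b_bounds (H : ℕ) (bs : List (ℕ × ℕ)) (X : ℝ) (hX0 : 0 ≤ X) (hX1 : X < 1) :
    Summable (fun a : ℕ => ((a + H).choose H : ℝ) * X ^ a * (bs.map fun b => fB b.1 b.2 a).prod) ∧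
    (1 / 2 : ℝ) ^ (H + 1) * (bs.map fun b => fB b.1 b.2 0).prod ≤
      ∑' a : ℕ, (-1 : ℝ) ^ a * (((a + H).choose H : ℝ) * X ^ a * (bs.map fun b => fB b.1 b.2 a).prod) ∧
    ∑' a : ℕ, (-1 : ℝ) ^ a * (((a + H).choose H : ℝ) * X ^ a * (bs.map fun b => fB b.1 b.2 a).prod) ≤
      (bs.map fun b => fB b.1 b.2 0).prod := by
  sorry

/-- size of the beta integral -/
theorem T2c_size (A W : ℕ) (hA : 1 ≤ A) (hW : 1 ≤ W) :
    0 < fB A W 0 ∧ fB A W 0 ≤ 2 * ((A : ℝ) ^ A * (W : ℝ) ^ W / ((A : ℝ) + W) ^ (A + W)) := by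
  sorry

/-- absolute convergence at `X = 1` -/
theorem T2e_summable (H : ℕ) (bs : List (ℕ × ℕ)) (hdeg : H + 2 ≤ (bs.map fun b => b.2 + 1).sum) :
    Summable (fun a : ℕ => ((a + H).choose H : ℝ) * (bs.map fun b => fB b.1 b.2 a).prod) := by
  sorry

theorem T2_pos (h n : ℕ) (ds : List ℕ) (hn : 1 ≤ n)
    (hc : ∀ d ∈ ds, 0 < d) (h2 : ∀ d ∈ ds, 2 * d < h)
    (hdeg : h * n + 2 ≤ (ds.map fun d => (h - 2 * d) * n + 1).sum) :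
    ∃ F, HasSum (trm h n ds) F ∧ 0 < F ∧ F ≤ 2 ^ ds.length * MM h ds ^ n := by
  sorry

/-! ## Task 3: p-adic bounds -/

theorem T3_main {p : ℕ} [hp : Fact p.Prime] (h n : ℕ) (ds : List ℕ) (hn : 1 ≤ n)
    (hc : ∀ d ∈ ds, 0 < d) (h2 : ∀ d ∈ ds, 2 * d < h) (h0 : 0 < h) (hp1 : p ≠ 2) (hp2 : 2 * h * n < p ^ 2) {k : ℕ}
    (hk : k ∈ ss h 0 n) (i : ℕ) :
    padicNorm p (ba h n ds k i) ≤ (p : ℚ) ^ (-(eb p h n ds k) - i : ℤ) := by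
  sorry

theorem T3_int {p : ℕ} [hp : Fact p.Prime] (h n : ℕ) (ds : List ℕ) (hp1 : p ≠ 2)
    (h2 : ∀ d ∈ ds, 2 * d < h) (hp2 : 2 * h * n < p ^ 2) {k : ℕ}
    (hk : k ∈ ss h 0 n) (i : ℕ)
    (hno : ∀ m ∈ ss h 0 n, m ≠ k → mu h n ds m ≠ 0 → ¬ (p : ℤ) ∣ (m : ℤ) - k) :
    padicNorm p (ba h n ds k i) ≤ (p : ℚ) ^ (c0 p h n ds) := by
  sorry

theorem T3_crude {p : ℕ} [hp : Fact p.Prime] (h n : ℕ) (ds : List ℕ) (hn : 1 ≤ n)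
    (hc : ∀ d ∈ ds, 0 < d) (h2 : ∀ d ∈ ds, 2 * d < h) (h0 : 0 < h) {k : ℕ}
    (hk : k ∈ ss h 0 n) (i : ℕ) :
    padicNorm p (ba h n ds k i) ≤ ((2 * h * n + 1 : ℕ) : ℚ) ^ (3 * ds.length) := by
  sorry

end

end Pool.Agent.H336R2.BV
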