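import Pool.Agent.H336R2.BV.Defs

/-!
# Task T1c: parity of the partial fraction coefficients
-/

open Polynomial

namespace Pool.Agent.H336R2.BV

open Pool.Agent.H337R2

lemma NB_comp (h n : ℕ) (hh : Odd h) (hn : Odd n) :
    (NB h n).comp (-X - C ((h * n : ℕ) : ℚ)) = -NB h n := by
  unfold NB
  rw [Polynomial.prod_comp]
  have h1 : ∀ m ∈ Finset.range (h * n),
      (2 * X + C (((2 * m + 1 : ℕ) : ℚ)) : ℚ[X]).comp (-X - C ((h * n : ℕ) : ℚ)) =
      (-1) * (2 * X + C (((2 * (h * n - 1 - m) + 1 : ℕ) : ℚ))) := by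
    intro m hm
    rw [Finset.mem_range] at hm
    have h2 : (((2 * (h * n - 1 - m) + 1 : ℕ) : ℚ)) = 2 * ((h * n : ℕ) : ℚ) - ((2 * m + 1 : ℕ) : ℚ) := by
      have h3 : (2 * (h * n - 1 - m) + 1) + (2 * m + 1) = 2 * (h * n) := by omega
      have h4 : (((2 * (h * n - 1 - m) + 1 : ℕ) : ℚ)) + ((2 * m + 1 : ℕ) : ℚ) = 2 * ((h * n : ℕ) : ℚ) := by
        exact_mod_cast h3
      linarith
    rw [h2]
    simp only [Polynomial.add_comp, Polynomial.mul_comp, Polynomial.X_comp, Polynomial.C_comp,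
      Polynomial.ofNat_comp, map_sub, map_mul]
    have h5 : (C (2 : ℚ) : ℚ[X]) = 2 := rfl
    rw [h5]
    ring
  rw [Finset.prod_congr rfl h1, Finset.prod_mul_distrib, Finset.prod_const, Finset.card_range,
    (hh.mul hn).neg_one_pow, Finset.prod_range_reflect
      (fun m => (2 * X + C (((2 * m + 1 : ℕ) : ℚ)) : ℚ[X])) (h * n)]
  ring

lemma PN_comp (h n : ℕ) (ds : List ℕ) (hh : Odd h) (hn : Odd n) :
    (PN h n ds).comp (-X - C ((h * n : ℕ) : ℚ)) = -PN h n ds := by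
  unfold PN
  rw [Polynomial.mul_comp, Polynomial.C_comp, NB_comp h n hh hn]
  ring

lemma even_sum_mu_odd (h n : ℕ) (ds : List ℕ) (hh : Odd h) (hn : Odd n)
    (hc : ∀ d ∈ ds, 0 < d) (h2 : ∀ d ∈ ds, 2 * d < h) :
    Even (∑ k ∈ ss h 0 n, mu h n ds k) := by
  have hn1 : 1 ≤ n := hn.pos
  rw [sum_mu_one h 0 n ds hn1 hc h2]
  have key : ∀ l : List ℕ, (∀ d ∈ l, 2 * d < h) →
      Even (l.map fun d => (h - 2 * d) * n + 1).sum := by
    intro l hl
    induction l with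
    | nil => simp
    | cons d l ih =>
      rw [List.map_cons, List.sum_cons]
      refine Even.add ?_ (ih fun d' hd' => hl d' (List.mem_cons_of_mem _ hd'))
      have h1 := hl d (by simp)
      have h3 : Odd (h - 2 * d) := by
        obtain ⟨a, ha⟩ := hh
        exact ⟨a - d, by omega⟩
      exact (h3.mul hn).add_one
  exact key ds h2

theorem T1c_parity (h n : ℕ) (ds : List ℕ) (hh : Odd h) (hn : Odd n)
    (hc : ∀ d ∈ ds, 0 < d) (h2 : ∀ d ∈ ds, 2 * d < h) {k : ℕ} (hk : k ∈ ss h 0 n) {i : ℕ} (hi : 1 ≤ i) :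
    ba h n ds (h * n - k) i = -(-1) ^ i * ba h n ds k i := by
  have hkH := (ss_reflect h 0 n hk).1
  unfold ba pa
  rw [mu_reflect h n ds hkH]
  split_ifs with h1
  · rw [pfc_reflect (ss h 0 n) (mu h n ds) (PN h n ds) (h * n) (fun k hk => ss_reflect h 0 n hk)
      (fun k hk => mu_reflect h n ds (ss_reflect h 0 n hk).1) (PN_comp h n ds hh hn)
      (even_sum_mu_odd h n ds hh hn hc h2) hk (by omega)]
    rw [show mu h n ds k - (mu h n ds k - i) = i by omega]
  · simp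

end Pool.Agent.H336R2.BV
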