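import Pool.Agent.H336R2.BV.TA
import Pool.Agent.H336R2.BV.TB

open Polynomial Filter Topology

namespace Pool.Agent.H336R2.BV

open Pool.Agent.H337R2

noncomputable section

lemma C_coeff_zero_TS (c : ℚ) (P : ℚ[X]) : PowerSeries.coeff 0 (TS c P) = P.eval c := by
  have : TS c P = ((Polynomial.taylor c P : ℚ[X]) : PowerSeries ℚ) := rfl
  rw [this, Polynomial.coeff_coe, Polynomial.taylor_coeff_zero]

lemma C_NB_eval (h n : ℕ) (m : ℕ) (hm : m < h * n) : (NB h n).eval (-(m:ℚ) - 1/2) = 0 := by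
  unfold NB
  rw [Polynomial.eval_prod]
  apply Finset.prod_eq_zero (Finset.mem_range.mpr hm)
  simp only [eval_add, eval_mul, eval_ofNat, eval_X, eval_C]
  push_cast
  ring

lemma C_RS_zero (h n : ℕ) (ds : List ℕ) (m : ℕ) (hm : m < h * n) :
    PowerSeries.coeff 0 (RS (ss h 0 n) (mu h n ds) (PN h n ds) (-(m:ℚ) - 1/2)) = 0 := by
  unfold RS
  rw [PowerSeries.coeff_zero_eq_constantCoeff_apply, map_mul,
    ← PowerSeries.coeff_zero_eq_constantCoeff_apply, C_coeff_zero_TS]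
  unfold PN
  rw [eval_mul, C_NB_eval h n m hm]
  ring

lemma C_natDegree (h n : ℕ) (ds : List ℕ) : (PN h n ds).natDegree ≤ h * n := by
  unfold PN NB
  refine (Polynomial.natDegree_C_mul_le _ _).trans ?_
  refine (Polynomial.natDegree_prod_le _ _).trans ?_
  calc _ ≤ ∑ m ∈ Finset.range (h * n), 1 := by
        apply Finset.sum_le_sum
        intro m _
        compute_degree
    _ = _ := by simp

lemma C_deg (h n : ℕ) (ds : List ℕ) (hn : 1 ≤ n)
    (hc : ∀ d ∈ ds, 0 < d) (h2 : ∀ d ∈ ds, 2 * d < h)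
    (hdeg : h * n + 2 ≤ (ds.map fun d => (h - 2 * d) * n + 1).sum) :
    (PN h n ds).degree < (QQ (ss h 0 n) (mu h n ds)).degree := by
  rw [Polynomial.degree_eq_natDegree (QQ_monic _ _).ne_zero, QQ_natDegree,
    sum_mu_one h 0 n ds hn hc h2]
  refine lt_of_le_of_lt Polynomial.degree_le_natDegree ?_
  have := C_natDegree h n ds
  exact_mod_cast (by omega : (PN h n ds).natDegree < _)

/-- value at a half integer -/
lemma C_val (h n g : ℕ) (ds : List ℕ) (hn : 1 ≤ n)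
    (hc : ∀ d ∈ ds, 0 < d) (h2 : ∀ d ∈ ds, 2 * d < h)
    (hdeg : h * n + 2 ≤ (ds.map fun d => (h - 2 * d) * n + 1).sum) (b : ℕ) :
    ((PowerSeries.coeff 0 (RS (ss h 0 n) (mu h n ds) (PN h n ds) ((b:ℚ) - g - 1/2)) : ℚ) : ℝ) =
      ∑ i ∈ Finset.Icc 1 ds.length, ∑ k ∈ ss h 0 n,
        (2:ℝ) ^ i * (ba h n ds k i : ℝ) * (1 / (2 * (b:ℝ) + (2 * k - (2 * g + 1))) ^ i) := by
  have hne : ∀ k ∈ ss h 0 n, ((b:ℚ) - g - 1/2) + (k:ℚ) ≠ 0 := by
    intro k _ h0
    have h1 : 2 * ((b:ℚ) + k) = 2 * g + 1 := by linarith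
    have h2 : 2 * (b + k) = 2 * g + 1 := by exact_mod_cast h1
    omega
  rw [coeff_RS _ _ _ (C_deg h n ds hn hc h2 hdeg) _ hne 0, Rat.cast_sum, Finset.sum_comm]
  apply Finset.sum_congr rfl
  intro k hk
  have h3 := sum_pfc_eq (ss h 0 n) (mu h n ds) (PN h n ds) ds.length k (mu_le_length h n ds k)
    (fun a i => (a:ℝ) / (((b:ℝ) - g - 1/2) + k) ^ i) (by intro i; simp)
  have h4 : ((∑ j ∈ Finset.range (mu h n ds k),
      pfc (ss h 0 n) (mu h n ds) (PN h n ds) k j * ((-1) ^ 0 * (Nat.choose (mu h n ds k - j - 1 + 0) (mu h n ds k - j - 1) : ℚ)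
        / (((b:ℚ) - g - 1/2) + k) ^ (mu h n ds k - j + 0)) : ℚ) : ℝ) =
      ∑ j ∈ Finset.range (mu h n ds k), ((pfc (ss h 0 n) (mu h n ds) (PN h n ds) k j : ℚ) : ℝ) /
        (((b:ℝ) - g - 1/2) + k) ^ (mu h n ds k - j) := by
    push_cast
    apply Finset.sum_congr rfl
    intro j _
    simp only [add_zero, Nat.choose_self, Nat.cast_one, mul_one, pow_zero]
    ring
  rw [h4, h3]
  apply Finset.sum_congr rfl
  intro i _
  have h5 : ((b:ℝ) - g - 1/2) + k = (2 * (b:ℝ) + (2 * k - (2 * g + 1))) / 2 := by ring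
  rw [h5, div_pow]
  unfold ba
  have hne' : (2 * (b:ℝ) + (2 * k - (2 * g + 1))) ≠ 0 := by
    intro h0
    apply hne k hk
    have h1 : 2 * ((b:ℝ) + k) = 2 * g + 1 := by linarith
    have h2 : 2 * (b + k) = 2 * g + 1 := by exact_mod_cast h1
    omega
  field_simp

lemma C_odd_vanish (h n : ℕ) (ds : List ℕ) (hh : Odd h) (hn : Odd n)
    (hc : ∀ d ∈ ds, 0 < d) (h2 : ∀ d ∈ ds, 2 * d < h) {i : ℕ} (hi : 1 ≤ i) (hodd : ¬ Even i) :
    ∑ k ∈ ss h 0 n, (-1:ℚ) ^ k * ba h n ds k i = 0 := by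
  have hH : Odd (h * n) := hh.mul hn
  have h1 : ∑ k ∈ ss h 0 n, (-1:ℚ) ^ k * ba h n ds k i =
      ∑ k ∈ ss h 0 n, (-1:ℚ) ^ (h * n - k) * ba h n ds (h * n - k) i := by
    apply Finset.sum_bij (fun m _ => h * n - m)
    · intro m hm; exact (ss_reflect h 0 n hm).2
    · intro m1 hm1 m2 hm2 h
      have := ss_reflect _ 0 _ hm1
      have := ss_reflect _ 0 _ hm2
      omega
    · intro m hm
      have := ss_reflect _ 0 _ hm
      exact ⟨h * n - m, this.2, by omega⟩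
    · intro m hm
      have := ss_reflect _ 0 _ hm
      rw [show h * n - (h * n - m) = m by omega]
  have h2' : ∀ k ∈ ss h 0 n, (-1:ℚ) ^ (h * n - k) * ba h n ds (h * n - k) i =
      - ((-1:ℚ) ^ k * ba h n ds k i) := by
    intro k hk
    rw [T1c_parity h n ds hh hn hc h2 hk hi]
    have hkH := (ss_reflect h 0 n hk).1
    have hio : (-1:ℚ) ^ i = -1 := (Nat.not_even_iff_odd.mp hodd).neg_one_pow
    have hHo : (-1:ℚ) ^ (h * n) = -1 := hH.neg_one_pow
    have h3 : (-1:ℚ) ^ (h * n - k) * (-1:ℚ) ^ k = -1 := by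
      rw [← pow_add, Nat.sub_add_cancel hkH, hHo]
    have h4 : (-1:ℚ) ^ (h * n - k) = - (-1:ℚ) ^ k := by
      rcases neg_one_pow_eq_or ℚ k with h | h <;> rw [h] at h3 ⊢ <;> linarith
    rw [h4, hio]
    ring
  rw [Finset.sum_congr rfl h2', Finset.sum_neg_distrib] at h1
  linarith

theorem T1_hasSum (h n : ℕ) (ds : List ℕ) (hh : Odd h) (hn : Odd n)
    (hc : ∀ d ∈ ds, 0 < d) (h2 : ∀ d ∈ ds, 2 * d < h)
    (hdeg : h * n + 2 ≤ (ds.map fun d => (h - 2 * d) * n + 1).sum) (u : ℕ → ℚ)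
    (hu : ∀ i, Even i → 2 ≤ i → i ≤ ds.length → bt i = (u i : ℝ)) {F : ℝ} (hF : HasSum (trm h n ds) F) :
    F = ((xfb h n ds u : ℚ) : ℝ) := by
  obtain ⟨g, hg⟩ := hh.mul hn
  have hn1 : 1 ≤ n := hn.pos
  set G : ℕ → ℝ := fun b => ∑ i ∈ Finset.Icc 1 ds.length, ∑ k ∈ ss h 0 n,
        (2:ℝ) ^ i * (ba h n ds k i : ℝ) * ((-1) ^ b / (2 * (b:ℝ) + (2 * k - (2 * g + 1))) ^ i) with hG
  have hGval : ∀ b, G b = (-1) ^ b *
      ((PowerSeries.coeff 0 (RS (ss h 0 n) (mu h n ds) (PN h n ds) ((b:ℚ) - g - 1/2)) : ℚ) : ℝ) := by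
    intro b
    rw [C_val h n g ds hn1 hc h2 hdeg b, hG, Finset.mul_sum]
    apply Finset.sum_congr rfl
    intro i _
    rw [Finset.mul_sum]
    apply Finset.sum_congr rfl
    intro k _
    ring
  have hG0 : ∀ b, b < g + 1 → G b = 0 := by
    intro b hb
    rw [hGval]
    have : ((b:ℚ) - g - 1/2) = -((g - b : ℕ) : ℚ) - 1/2 := by
      rw [Nat.cast_sub (by omega)]; ring
    rw [this, C_RS_zero h n ds (g - b) (by omega)]
    simp
  have hG1 : ∀ a, G (a + (g + 1)) = (-1) ^ (g + 1) * trm h n ds a := by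
    intro a
    rw [hGval]
    unfold trm
    have : (((a + (g + 1) : ℕ) : ℚ) - g - 1/2) = (a:ℚ) + 1/2 := by push_cast; ring
    rw [this, pow_add]
    ring
  -- first limit
  have hlim1 : Tendsto (fun N => ∑ b ∈ Finset.range (N + (g + 1)), G b) atTop (𝓝 ((-1) ^ (g + 1) * F)) := by
    have h3 : ∀ N, ∑ b ∈ Finset.range (N + (g + 1)), G b = (-1) ^ (g + 1) * ∑ a ∈ Finset.range N, trm h n ds a := by
      intro N
      rw [add_comm N, Finset.sum_range_add, Finset.sum_eq_zero (fun b hb => hG0 b (Finset.mem_range.mp hb)), zero_add,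
        Finset.mul_sum]
      apply Finset.sum_congr rfl
      intro a _
      rw [add_comm (g + 1) a]
      exact hG1 a
    simp only [h3]
    exact (hF.tendsto_sum_nat).const_mul _
  -- second limit
  set Bi : ℕ → ℝ := fun i => if i = 1 then Real.pi / 4 else bt i with hBi
  have hS : ∀ i ∈ Finset.Icc 1 ds.length, ∀ k ∈ ss h 0 n,
      Tendsto (fun N : ℕ => ∑ b ∈ Finset.range N, (-1:ℝ) ^ b / (2 * (b:ℝ) + (2 * k - (2 * g + 1))) ^ i) atTop
        (𝓝 ((-1) ^ (k + g + 1) * (Bi i - ((sg h n k i * hb i (ak h n k) : ℚ) : ℝ)))) := by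
    intro i hi k hk
    rw [Finset.mem_Icc] at hi
    rw [ss, Finset.mem_Icc] at hk
    by_cases hlt : h * n < 2 * k
    · have h3 := T1a_tendsto_pos i (k - g - 1) hi.1
      have e1 : ((2:ℝ) * ((k - g - 1 : ℕ) : ℝ) + 1) = 2 * k - (2 * g + 1) := by
        have : k - g - 1 = k - (g + 1) := by omega
        rw [this, Nat.cast_sub (by omega)]; push_cast; ring
      rw [e1] at h3
      have e2 : ak h n k = k - g - 1 := by
        unfold ak; rw [if_pos hlt]; omega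
      have e3 : sg h n k i = 1 := by unfold sg; rw [if_pos hlt]
      rw [e2, e3, one_mul]
      have e4 : (-1:ℝ) ^ (k + g + 1) = (-1) ^ (k - g - 1) := by
        have : k + g + 1 = (k - g - 1) + 2 * (g + 1) := by omega
        rw [this, pow_add, pow_mul]; norm_num
      rw [e4]
      exact h3
    · have h3 := T1b_tendsto_neg i (g + 1 - k) hi.1
      have e1 : ((1:ℝ) - 2 * ((g + 1 - k : ℕ) : ℝ)) = 2 * k - (2 * g + 1) := by
        rw [Nat.cast_sub (by omega)]; push_cast; ring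
      rw [e1] at h3
      have e2 : ak h n k = g + 1 - k := by
        unfold ak; rw [if_neg hlt]; omega
      have e3 : sg h n k i = (-1) ^ i := by unfold sg; rw [if_neg hlt]
      rw [e2, e3]
      have e4 : (-1:ℝ) ^ (k + g + 1) = (-1) ^ (g + 1 - k) := by
        have : k + g + 1 = (g + 1 - k) + 2 * k := by omega
        rw [this, pow_add, pow_mul]; norm_num
      rw [e4]
      push_cast
      push_cast at h3
      exact h3
  have hlim2 : Tendsto (fun N => ∑ b ∈ Finset.range N, G b) atTop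
      (𝓝 (∑ i ∈ Finset.Icc 1 ds.length, ∑ k ∈ ss h 0 n,
        (2:ℝ) ^ i * (ba h n ds k i : ℝ) * ((-1) ^ (k + g + 1) * (Bi i - ((sg h n k i * hb i (ak h n k) : ℚ) : ℝ))))) := by
    have h3 : ∀ N, ∑ b ∈ Finset.range N, G b = ∑ i ∈ Finset.Icc 1 ds.length, ∑ k ∈ ss h 0 n,
        (2:ℝ) ^ i * (ba h n ds k i : ℝ) * ∑ b ∈ Finset.range N, (-1:ℝ) ^ b / (2 * (b:ℝ) + (2 * k - (2 * g + 1))) ^ i := by
      intro N
      rw [hG, Finset.sum_comm]
      apply Finset.sum_congr rfl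
      intro i _
      rw [Finset.sum_comm]
      apply Finset.sum_congr rfl
      intro k _
      rw [Finset.mul_sum]
    simp only [h3]
    apply tendsto_finsetSum
    intro i hi
    apply tendsto_finsetSum
    intro k hk
    exact (hS i hi k hk).const_mul _
  have hlim2' := hlim2.comp (tendsto_add_atTop_nat (g + 1))
  have heq := tendsto_nhds_unique hlim1 hlim2'
  -- final computation
  have hsq : ((-1:ℝ) ^ (g + 1)) * ((-1:ℝ) ^ (g + 1)) = 1 := by
    rw [← pow_add, ← two_mul, pow_mul]; norm_num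
  have hF2 : F = ∑ i ∈ Finset.Icc 1 ds.length, ∑ k ∈ ss h 0 n,
        (2:ℝ) ^ i * (ba h n ds k i : ℝ) * ((-1) ^ k * (Bi i - ((sg h n k i * hb i (ak h n k) : ℚ) : ℝ))) := by
    have h4 : F = (-1) ^ (g + 1) * ((-1) ^ (g + 1) * F) := by rw [← mul_assoc, hsq, one_mul]
    rw [h4, heq, Finset.mul_sum]
    apply Finset.sum_congr rfl
    intro i _
    rw [Finset.mul_sum]
    apply Finset.sum_congr rfl
    intro k _
    have : (-1:ℝ) ^ (k + g + 1) = (-1) ^ k * (-1) ^ (g + 1) := by rw [← pow_add]; congr 1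
    rw [this]
    linear_combination ((2:ℝ) ^ i * (ba h n ds k i : ℝ) * ((-1) ^ k * (Bi i - ((sg h n k i * hb i (ak h n k) : ℚ) : ℝ)))) * hsq
  rw [hF2]
  unfold xfb
  rw [Rat.cast_sum]
  apply Finset.sum_congr rfl
  intro i hi
  rw [Finset.mem_Icc] at hi
  have hB : ((∑ k ∈ ss h 0 n, (-1) ^ k * ba h n ds k i : ℚ) : ℝ) * Bi i =
      ((∑ k ∈ ss h 0 n, (-1) ^ k * ba h n ds k i : ℚ) : ℝ) * (((if Even i then u i else 0 : ℚ)) : ℝ) := by
    by_cases he : Even i
    · rw [if_pos he, ← hu i he (by rcases he with ⟨r, hr⟩; omega) hi.2]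
      have : Bi i = bt i := by
        rw [hBi]
        beta_reduce
        rw [if_neg]
        rcases he with ⟨r, hr⟩; omega
      rw [this]
    · rw [C_odd_vanish h n ds hh hn hc h2 hi.1 he]
      simp
  have h5 : ∑ k ∈ ss h 0 n,
        (2:ℝ) ^ i * (ba h n ds k i : ℝ) * ((-1) ^ k * (Bi i - ((sg h n k i * hb i (ak h n k) : ℚ) : ℝ))) =
      (2:ℝ) ^ i * (((∑ k ∈ ss h 0 n, (-1) ^ k * ba h n ds k i : ℚ) : ℝ) * Bi i -
        ((∑ k ∈ ss h 0 n, (-1) ^ k * ba h n ds k i * (sg h n k i * hb i (ak h n k)) : ℚ) : ℝ)) := by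
    push_cast
    rw [mul_sub, Finset.sum_mul, Finset.mul_sum, Finset.mul_sum, ← Finset.sum_sub_distrib]
    apply Finset.sum_congr rfl
    intro k _
    ring
  rw [h5, hB]
  push_cast
  ring

end

end Pool.Agent.H336R2.BV
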