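import Pool.Agent.H336R2.BV.Defs
import Mathlib.Analysis.SpecialFunctions.Gamma.Beta
import Mathlib.Analysis.MeanInequalities
import Mathlib.Analysis.SpecialFunctions.Integrals.Basic

/-!
# Task F: size of the beta integral, summability
-/

open Filter Topology

namespace Pool.Agent.H336R2.BV

open Pool.Agent.H337R2

noncomputable section

/-- weighted AM-GM: maximum of `x^A (1-x)^W` -/
theorem F_amgm (A W : ℕ) (hA : 1 ≤ A) (hW : 1 ≤ W) {x : ℝ} (h0 : 0 ≤ x) (h1 : x ≤ 1) :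
    x ^ A * (1 - x) ^ W ≤ (A : ℝ) ^ A * (W : ℝ) ^ W / ((A : ℝ) + W) ^ (A + W) := by
  have hA' : (0 : ℝ) < A := by exact_mod_cast hA
  have hW' : (0 : ℝ) < W := by exact_mod_cast hW
  have hS : (0 : ℝ) < (A : ℝ) + W := by positivity
  have h1x : 0 ≤ 1 - x := by linarith
  have key := Real.geom_mean_le_arith_mean2_weighted (w₁ := (A : ℝ) / (A + W)) (w₂ := (W : ℝ) / (A + W))
    (p₁ := x / A) (p₂ := (1 - x) / W) (by positivity) (by positivity) (by positivity) (by positivity)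
    (by field_simp)
  have hr : (A : ℝ) / (A + W) * (x / A) + (W : ℝ) / (A + W) * ((1 - x) / W) = 1 / ((A : ℝ) + W) := by
    field_simp
    ring
  rw [hr] at key
  have hp : ((x / A) ^ ((A : ℝ) / (A + W)) * ((1 - x) / W) ^ ((W : ℝ) / (A + W))) ^ (A + W) =
      (x / A) ^ A * ((1 - x) / W) ^ W := by
    rw [mul_pow]
    congr 1
    · rw [← Real.rpow_natCast, ← Real.rpow_mul (by positivity), ← Real.rpow_natCast]
      congr 1
      push_cast
      field_simp
    · rw [← Real.rpow_natCast, ← Real.rpow_mul (by positivity), ← Real.rpow_natCast]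
      congr 1
      push_cast
      field_simp
  have k2 : (x / A) ^ A * ((1 - x) / W) ^ W ≤ (1 / ((A : ℝ) + W)) ^ (A + W) := by
    rw [← hp]
    exact pow_le_pow_left₀ (by positivity) key _
  have k3 : x ^ A * (1 - x) ^ W = ((x / A) ^ A * ((1 - x) / W) ^ W) * ((A : ℝ) ^ A * (W : ℝ) ^ W) := by
    rw [div_pow, div_pow]
    field_simp
  rw [k3]
  calc ((x / A) ^ A * ((1 - x) / W) ^ W) * ((A : ℝ) ^ A * (W : ℝ) ^ W)
      ≤ (1 / ((A : ℝ) + W)) ^ (A + W) * ((A : ℝ) ^ A * (W : ℝ) ^ W) :=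
        mul_le_mul_of_nonneg_right k2 (by positivity)
    _ = (A : ℝ) ^ A * (W : ℝ) ^ W / ((A : ℝ) + W) ^ (A + W) := by
        rw [div_pow, one_pow]
        field_simp

theorem F_prod (A W : ℕ) : ∏ k ∈ Finset.Icc A (A + W), (((0 : ℕ) : ℝ) + 1 / 2 + k) =
    ∏ j ∈ Finset.range (W + 1), ((A : ℝ) + 1 / 2 + j) := by
  have h : Finset.Icc A (A + W) = Finset.Ico A (A + W + 1) := by
    ext k
    simp only [Finset.mem_Icc, Finset.mem_Ico]
    omega
  rw [h, Finset.prod_Ico_eq_prod_range]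
  have : A + W + 1 - A = W + 1 := by omega
  rw [this]
  refine Finset.prod_congr rfl fun j _ => ?_
  push_cast
  ring

theorem F_beta (A W : ℕ) : Complex.betaIntegral ((A : ℂ) + 1 / 2) ((W : ℂ) + 1) = ((fB A W 0 : ℝ) : ℂ) := by
  rw [Complex.betaIntegral_eval_nat_add_one_right (by
    simp only [Complex.add_re, Complex.natCast_re]
    have : (1 / 2 : ℂ).re = 1 / 2 := by norm_num
    rw [this]
    positivity)]
  unfold fB
  rw [F_prod]
  push_cast
  rfl

/-- size of the beta integral -/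
theorem T2c_size (A W : ℕ) (hA : 1 ≤ A) (hW : 1 ≤ W) :
    0 < fB A W 0 ∧ fB A W 0 ≤ 2 * ((A : ℝ) ^ A * (W : ℝ) ^ W / ((A : ℝ) + W) ^ (A + W)) := by
  have hpos : 0 < fB A W 0 := by
    unfold fB
    have : 0 < ∏ k ∈ Finset.Icc A (A + W), (((0 : ℕ) : ℝ) + 1 / 2 + k) :=
      Finset.prod_pos fun k _ => by positivity
    have h2 : (0 : ℝ) < Nat.factorial W := by exact_mod_cast Nat.factorial_pos W
    positivity
  refine ⟨hpos, ?_⟩
  set M : ℝ := (A : ℝ) ^ A * (W : ℝ) ^ W / ((A : ℝ) + W) ^ (A + W) with hM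
  have hb : ‖Complex.betaIntegral ((A : ℂ) + 1 / 2) ((W : ℂ) + 1)‖ ≤ ∫ x in (0 : ℝ)..1, M * x ^ (-(1 / 2) : ℝ) := by
    unfold Complex.betaIntegral
    refine intervalIntegral.norm_integral_le_of_norm_le zero_le_one ?_ ?_
    · have hne : ∀ᵐ x : ℝ, x ≠ 1 := by
        have := MeasureTheory.Measure.ae_ne (μ := MeasureTheory.volume) (1 : ℝ)
        exact this
      filter_upwards [hne] with x hx1 hx
      have hx0 : 0 < x := hx.1
      have hxl : x < 1 := lt_of_le_of_ne hx.2 hx1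
      have h1x : 0 < 1 - x := by linarith
      rw [norm_mul]
      have e1 : ‖(x : ℂ) ^ ((A : ℂ) + 1 / 2 - 1)‖ = x ^ A * x ^ (-(1 / 2) : ℝ) := by
        rw [Complex.norm_cpow_eq_rpow_re_of_pos hx0]
        have : ((A : ℂ) + 1 / 2 - 1).re = (A : ℝ) + (-(1 / 2)) := by
          have h2 : (1 / 2 : ℂ).re = 1 / 2 := by norm_num
          simp only [Complex.add_re, Complex.sub_re, Complex.natCast_re, Complex.one_re, h2]
          ring
        rw [this, Real.rpow_add hx0, Real.rpow_natCast]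
      have e2 : ‖(1 - (x : ℂ)) ^ ((W : ℂ) + 1 - 1)‖ = (1 - x) ^ W := by
        have : (1 - (x : ℂ)) = ((1 - x : ℝ) : ℂ) := by push_cast; ring
        rw [this, Complex.norm_cpow_eq_rpow_re_of_pos h1x]
        have : ((W : ℂ) + 1 - 1).re = (W : ℝ) := by
          simp
        rw [this, Real.rpow_natCast]
      rw [e1, e2]
      have := F_amgm A W hA hW hx0.le hxl.le
      have h3 : 0 ≤ x ^ (-(1 / 2) : ℝ) := Real.rpow_nonneg hx0.le _
      calc x ^ A * x ^ (-(1 / 2) : ℝ) * (1 - x) ^ W = (x ^ A * (1 - x) ^ W) * x ^ (-(1 / 2) : ℝ) := by ring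
        _ ≤ M * x ^ (-(1 / 2) : ℝ) := mul_le_mul_of_nonneg_right this h3
    · exact (intervalIntegral.intervalIntegrable_rpow' (by norm_num)).const_mul M
  rw [F_beta, Complex.norm_real, Real.norm_of_nonneg hpos.le, intervalIntegral.integral_const_mul,
    integral_rpow (Or.inl (by norm_num))] at hb
  have : ((1 : ℝ) ^ (-(1 / 2) + 1 : ℝ) - 0 ^ (-(1 / 2) + 1 : ℝ)) / (-(1 / 2) + 1) = 2 := by
    rw [Real.one_rpow, Real.zero_rpow (by norm_num)]
    norm_num
  rw [this] at hb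
  linarith

theorem F_fB_le (A W a : ℕ) : fB A W a ≤ (Nat.factorial W * 2 ^ (W + 1) : ℝ) / ((a : ℝ) + 1) ^ (W + 1) := by
  unfold fB
  have hc : (Finset.Icc A (A + W)).card = W + 1 := by
    rw [Nat.card_Icc]; omega
  have h1 : (((a : ℝ) + 1) / 2) ^ (W + 1) ≤ ∏ k ∈ Finset.Icc A (A + W), ((a : ℝ) + 1 / 2 + k) := by
    rw [← hc, ← Finset.prod_const]
    refine Finset.prod_le_prod (fun k _ => by positivity) fun k _ => ?_
    have : (0 : ℝ) ≤ k := by positivity
    have h2 : (0 : ℝ) ≤ a := by positivity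
    linarith
  have h0 : (0 : ℝ) < (((a : ℝ) + 1) / 2) ^ (W + 1) := by positivity
  calc (Nat.factorial W : ℝ) / ∏ k ∈ Finset.Icc A (A + W), ((a : ℝ) + 1 / 2 + k)
      ≤ (Nat.factorial W : ℝ) / (((a : ℝ) + 1) / 2) ^ (W + 1) :=
        div_le_div_of_nonneg_left (by positivity) h0 h1
    _ = (Nat.factorial W * 2 ^ (W + 1) : ℝ) / ((a : ℝ) + 1) ^ (W + 1) := by
        rw [div_pow]
        field_simp

theorem F_fB_nonneg (A W a : ℕ) : 0 ≤ fB A W a := by
  unfold fB
  exact div_nonneg (by positivity) (Finset.prod_nonneg fun k _ => by positivity)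

theorem F_prod_le (bs : List (ℕ × ℕ)) : ∃ C : ℝ, 0 ≤ C ∧ ∀ a : ℕ,
    (bs.map fun b => fB b.1 b.2 a).prod ≤ C / ((a : ℝ) + 1) ^ (bs.map fun b => b.2 + 1).sum := by
  induction bs with
  | nil => exact ⟨1, zero_le_one, fun a => by simp⟩
  | cons b bs ih =>
    obtain ⟨C, hC, h⟩ := ih
    refine ⟨(Nat.factorial b.2 * 2 ^ (b.2 + 1) : ℝ) * C, by positivity, fun a => ?_⟩
    rw [List.map_cons, List.prod_cons, List.map_cons, List.sum_cons]
    have h1 := F_fB_le b.1 b.2 a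
    have h2 := h a
    have h3 := F_fB_nonneg b.1 b.2 a
    have h4 : 0 ≤ C / ((a : ℝ) + 1) ^ (bs.map fun b => b.2 + 1).sum := by positivity
    calc fB b.1 b.2 a * (bs.map fun b => fB b.1 b.2 a).prod
        ≤ fB b.1 b.2 a * (C / ((a : ℝ) + 1) ^ (bs.map fun b => b.2 + 1).sum) :=
          mul_le_mul_of_nonneg_left h2 h3
      _ ≤ ((Nat.factorial b.2 * 2 ^ (b.2 + 1) : ℝ) / ((a : ℝ) + 1) ^ (b.2 + 1)) *
          (C / ((a : ℝ) + 1) ^ (bs.map fun b => b.2 + 1).sum) := mul_le_mul_of_nonneg_right h1 h4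
      _ = _ := by rw [div_mul_div_comm, ← pow_add]

theorem F_prod_nonneg (bs : List (ℕ × ℕ)) (a : ℕ) : 0 ≤ (bs.map fun b => fB b.1 b.2 a).prod := by
  apply List.prod_nonneg
  intro x hx
  rw [List.mem_map] at hx
  obtain ⟨b, _, rfl⟩ := hx
  exact F_fB_nonneg _ _ _

/-- absolute convergence at `X = 1` -/
theorem T2e_summable (H : ℕ) (bs : List (ℕ × ℕ)) (hdeg : H + 2 ≤ (bs.map fun b => b.2 + 1).sum) :
    Summable (fun a : ℕ => ((a + H).choose H : ℝ) * (bs.map fun b => fB b.1 b.2 a).prod) := by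
  obtain ⟨C, hC, h⟩ := F_prod_le bs
  have hs : Summable (fun a : ℕ => (((H : ℝ) + 1) ^ H * C) * (1 / ((a + 1 : ℕ) : ℝ) ^ 2)) := by
    apply Summable.mul_left
    exact (summable_nat_add_iff (f := fun a : ℕ => 1 / ((a : ℕ) : ℝ) ^ 2) 1).mpr
      (Real.summable_one_div_nat_pow.mpr (by norm_num))
  refine Summable.of_nonneg_of_le (fun a => ?_) (fun a => ?_) hs
  · exact mul_nonneg (by positivity) (F_prod_nonneg bs a)
  · have h1 : ((a + H).choose H : ℝ) ≤ ((H : ℝ) + 1) ^ H * ((a : ℝ) + 1) ^ H := by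
      have h2 : (a + H).choose H ≤ (a + H) ^ H := Nat.choose_le_pow _ _
      have h3 : ((a + H).choose H : ℝ) ≤ ((a : ℝ) + H) ^ H := by exact_mod_cast h2
      refine h3.trans ?_
      rw [← mul_pow]
      refine pow_le_pow_left₀ (by positivity) ?_ _
      have h4 : (0 : ℝ) ≤ a := by positivity
      have h5 : (0 : ℝ) ≤ H := by positivity
      nlinarith [mul_nonneg h4 h5]
    have h6 := h a
    have h7 : (0 : ℝ) < (a : ℝ) + 1 := by positivity
    have h8 : (1 : ℝ) ≤ (a : ℝ) + 1 := by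
      have : (0 : ℝ) ≤ a := by positivity
      linarith
    have h9 : C / ((a : ℝ) + 1) ^ (bs.map fun b => b.2 + 1).sum ≤ C / ((a : ℝ) + 1) ^ (H + 2) :=
      div_le_div_of_nonneg_left hC (by positivity) (pow_le_pow_right₀ h8 hdeg)
    calc ((a + H).choose H : ℝ) * (bs.map fun b => fB b.1 b.2 a).prod
        ≤ (((H : ℝ) + 1) ^ H * ((a : ℝ) + 1) ^ H) * (C / ((a : ℝ) + 1) ^ (H + 2)) :=
          mul_le_mul h1 (h6.trans h9) (F_prod_nonneg bs a) (by positivity)
      _ = (((H : ℝ) + 1) ^ H * C) * (1 / ((a + 1 : ℕ) : ℝ) ^ 2) := by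
          push_cast
          rw [pow_add]
          field_simp

end

end Pool.Agent.H336R2.BV
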