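import Pool.Agent.H337R2.Dn

/-!
# Beta values: definitions

Rational function `R(t) = 2^{hn} ∏_d ((h-2d)n)! / (hn)! * ∏_{m<hn} (2t+2m+1) / ∏_d ∏_{k=dn}^{(h-d)n} (t+k)`,
evaluated at the half integers.  `h` and `n` are odd.
-/

open Polynomial

namespace Pool.Agent.H336R2.BV

open Pool.Agent.H337R2

noncomputable section

/-- `β(e) = ∑ (-1)^l / (2l+1)^e` (used for `e ≥ 2`) -/
def bt (e : ℕ) : ℝ := ∑' l : ℕ, (-1 : ℝ) ^ l / (2 * (l : ℝ) + 1) ^ e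

/-- partial sums of the beta series -/
def hb (e m : ℕ) : ℚ := ∑ l ∈ Finset.range m, (-1 : ℚ) ^ l / (2 * (l : ℚ) + 1) ^ e

/-- normalising constant -/
def cb (h n : ℕ) (ds : List ℕ) : ℚ :=
  2 ^ (h * n) * (ds.map fun d => (Nat.factorial ((h - 2 * d) * n) : ℚ)).prod / (Nat.factorial (h * n) : ℚ)

/-- the zeros -/
def NB (h n : ℕ) : ℚ[X] := ∏ m ∈ Finset.range (h * n), (2 * X + C (((2 * m + 1 : ℕ) : ℚ)))

/-- the numerator -/
def PN (h n : ℕ) (ds : List ℕ) : ℚ[X] := C (cb h n ds) * NB h n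

/-- partial fraction coefficient of `1/(X+k)^i` -/
def ba (h n : ℕ) (ds : List ℕ) (k i : ℕ) : ℚ := pa (ss h 0 n) (mu h n ds) (PN h n ds) k i

/-- the value of the rational function at `a + 1/2`, with sign `(-1)^a` -/
def trm (h n : ℕ) (ds : List ℕ) (a : ℕ) : ℝ :=
  (-1 : ℝ) ^ a * ((PowerSeries.coeff 0 (RS (ss h 0 n) (mu h n ds) (PN h n ds) ((a : ℚ) + 1 / 2)) : ℚ) : ℝ)

/-- number of terms of the harmonic sum attached to the pole `k` -/
def ak (h n k : ℕ) : ℕ := if h * n < 2 * k then k - h * n / 2 - 1 else h * n / 2 + 1 - k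

/-- sign attached to the pole `k` and the order `i` -/
def sg (h n k i : ℕ) : ℚ := if h * n < 2 * k then 1 else (-1) ^ i

/-- the linear form with `u i` in place of `β(i)` for even `i` -/
def xfb (h n : ℕ) (ds : List ℕ) (u : ℕ → ℚ) : ℚ :=
  ∑ i ∈ Finset.Icc 1 ds.length, 2 ^ i *
    ((∑ k ∈ ss h 0 n, (-1) ^ k * ba h n ds k i) * (if Even i then u i else 0) -
      ∑ k ∈ ss h 0 n, (-1) ^ k * ba h n ds k i * (sg h n k i * hb i (ak h n k)))

/-- `W! / ∏_{k=A}^{A+W} (a + 1/2 + k) = ∫_0^1 x^(a + A - 1/2) (1-x)^W dx` -/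
def fB (A W a : ℕ) : ℝ :=
  (Nat.factorial W : ℝ) / ∏ k ∈ Finset.Icc A (A + W), ((a : ℝ) + 1 / 2 + k)

/-- the growth constant: `∏_d ... ` bound of the integrand, times `4^h` -/
def MM (h : ℕ) (ds : List ℕ) : ℝ :=
  4 ^ h * (ds.map fun d : ℕ => ((d : ℝ) ^ d * ((h : ℝ) - 2 * (d : ℝ)) ^ (h - 2 * d)) / ((h : ℝ) - (d : ℝ)) ^ (h - d)).prod

/-- number of `m < h n` with `p ∣ 2(m-k)+1` -/
def nhc (p h n k : ℕ) : ℕ := ((Finset.range (h * n)).filter (fun m : ℕ => (p : ℤ) ∣ 2 * ((m : ℤ) - k) + 1)).card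

/-- the exponent `B_p(k)` -/
def eb (p h n : ℕ) (ds : List ℕ) (k : ℕ) : ℤ :=
  (nhc p h n k : ℤ) - nq p h n ds k - ((h * n / p : ℕ) : ℤ) + ((ds.map fun d => (h - 2 * d) * n / p).sum : ℕ)

/-- the exponent of the normalising constant: `‖cb‖ = p ^ c0` -/
def c0 (p h n : ℕ) (ds : List ℕ) : ℤ :=
  ((h * n / p : ℕ) : ℤ) - ((ds.map fun d => (h - 2 * d) * n / p).sum : ℕ)

/-- condition on a prime `p`: every class either has `-eb ≤ E`, or contains exactly one pole of the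
widest brick (given by `D = min ds`) and `c0 ≤ E` -/
def HypB (p h n D : ℕ) (ds : List ℕ) (E : ℕ) : Prop :=
  ∀ k ∈ ss h 0 n, mu h n ds k ≠ 0 →
    (-(eb p h n ds k) ≤ E) ∨ (cnt p (D * n) (h * n - D * n) k ≤ 1 ∧ c0 p h n ds ≤ E)

/-- validity of a list of cells -/
def ValidB (h D : ℕ) (ds : List ℕ) : List (ℕ × ℕ × ℕ) → Prop
  | x :: y :: L => 0 < x.1 ∧ (∀ p n : ℕ, p.Prime → p ≠ 2 → 1 ≤ n → 2 * h * n < p ^ 2 → x.1 * p < x.2.1 * n →
      y.2.1 * n < y.1 * p → HypB p h n D ds x.2.2) ∧ ValidB h D ds (y :: L)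
  | _ => True

end

end Pool.Agent.H336R2.BV
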