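import Mathlib
import Pool.Agent.H336R2.BV.Defs

/-!
Task E: the analytic core `T2b_bounds` (helper430).  Also: `beta_int` (Beta integrals with integer
second parameter), `fB_eq_int`, `fB_pos`, `fB_le`.
-/

open MeasureTheory Set

namespace Pool.Agent.H336R2.BV

noncomputable section

/-! ### Beta integrals -/

/-- the weight `x^(A-1/2) (1-x)^W` -/
def wB (A W : ℕ) (x : ℝ) : ℝ := x ^ ((A : ℝ) - 1 / 2) * (1 - x) ^ W

lemma rpow_intble {s : ℝ} (hs : 0 < s) (W : ℕ) :
    IntervalIntegrable (fun x : ℝ => x ^ (s - 1) * (1 - x) ^ W) volume 0 1 :=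
  (intervalIntegral.intervalIntegrable_rpow' (by linarith)).mul_continuousOn (by fun_prop)

lemma beta_int (W : ℕ) : ∀ s : ℝ, 0 < s →
    ∫ x in (0 : ℝ)..1, x ^ (s - 1) * (1 - x) ^ W =
      (Nat.factorial W : ℝ) / ∏ j ∈ Finset.range (W + 1), (s + j) := by
  induction W with
  | zero =>
    intro s hs
    simp only [pow_zero, mul_one, Nat.factorial_zero, Nat.cast_one, zero_add, Finset.prod_range_one,
      Nat.cast_zero, add_zero]
    rw [integral_rpow (Or.inl (by linarith))]
    rw [show s - 1 + 1 = s by ring, Real.one_rpow, Real.zero_rpow hs.ne', sub_zero]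
  | succ W ih =>
    intro s hs
    have h1 : ∫ x in (0 : ℝ)..1, x ^ (s - 1) * (1 - x) ^ (W + 1) =
        (∫ x in (0 : ℝ)..1, x ^ (s - 1) * (1 - x) ^ W) -
          ∫ x in (0 : ℝ)..1, x ^ (s + 1 - 1) * (1 - x) ^ W := by
      rw [← intervalIntegral.integral_sub (rpow_intble hs W) (rpow_intble (by linarith) W)]
      apply intervalIntegral.integral_congr_uIoo
      intro x hx
      rw [uIoo_of_le zero_le_one] at hx
      simp only
      rw [show s + 1 - 1 = (s - 1) + 1 by ring, Real.rpow_add hx.1, Real.rpow_one]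
      ring
    rw [h1, ih s hs, ih (s + 1) (by linarith)]
    have hpos : ∀ j : ℕ, 0 < s + (j : ℝ) := fun j => by positivity
    have hP : ∏ j ∈ Finset.range (W + 1 + 1), (s + (j : ℝ)) =
        (∏ j ∈ Finset.range (W + 1), (s + (j : ℝ))) * (s + ((W + 1 : ℕ) : ℝ)) :=
      Finset.prod_range_succ _ _
    have hP' : ∏ j ∈ Finset.range (W + 1 + 1), (s + (j : ℝ)) =
        (∏ j ∈ Finset.range (W + 1), (s + 1 + (j : ℝ))) * s := by
      rw [Finset.prod_range_succ']
      simp only [Nat.cast_zero, add_zero]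
      congr 1
      refine Finset.prod_congr rfl fun j _ => ?_
      push_cast
      ring
    have h2 : 0 < ∏ j ∈ Finset.range (W + 1), (s + (j : ℝ)) := Finset.prod_pos fun j _ => hpos j
    have h3 : 0 < ∏ j ∈ Finset.range (W + 1), (s + 1 + (j : ℝ)) :=
      Finset.prod_pos fun j _ => by positivity
    have h4 : (∏ j ∈ Finset.range (W + 1), (s + 1 + (j : ℝ))) =
        (∏ j ∈ Finset.range (W + 1), (s + (j : ℝ))) * (s + ((W + 1 : ℕ) : ℝ)) / s := by
      rw [← hP, hP', mul_div_cancel_right₀ _ hs.ne']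
    rw [hP, h4, Nat.factorial_succ]
    have h5 := (hpos (W + 1)).ne'
    push_cast at h5 ⊢
    field_simp
    ring

lemma wB_intble (A W : ℕ) : IntervalIntegrable (wB A W) volume 0 1 := by
  have h := rpow_intble (s := (A : ℝ) + 1 / 2) (by positivity) W
  have e : (fun x : ℝ => x ^ ((A : ℝ) + 1 / 2 - 1) * (1 - x) ^ W) = wB A W := by
    funext x
    unfold wB
    congr 2
    ring
  rwa [e] at h

lemma wB_nonneg (A W : ℕ) {x : ℝ} (hx : x ∈ Icc (0 : ℝ) 1) : 0 ≤ wB A W x :=
  mul_nonneg (Real.rpow_nonneg hx.1 _) (pow_nonneg (by linarith [hx.2]) _)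

lemma fB_eq_int (A W a : ℕ) : ∫ x in (0 : ℝ)..1, x ^ a * wB A W x = fB A W a := by
  have h := beta_int W ((a : ℝ) + A + 1 / 2) (by positivity)
  have e1 : ∫ x in (0 : ℝ)..1, x ^ a * wB A W x =
      ∫ x in (0 : ℝ)..1, x ^ ((a : ℝ) + A + 1 / 2 - 1) * (1 - x) ^ W := by
    apply intervalIntegral.integral_congr_uIoo
    intro x hx
    rw [uIoo_of_le zero_le_one] at hx
    simp only [wB]
    rw [show (a : ℝ) + A + 1 / 2 - 1 = (a : ℝ) + ((A : ℝ) - 1 / 2) by ring, Real.rpow_add hx.1,
      Real.rpow_natCast]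
    ring
  rw [e1, h, fB]
  congr 1
  have e2 : Finset.Icc A (A + W) = Finset.Ico A (A + W + 1) := by
    ext k
    simp
  rw [e2, Finset.prod_Ico_eq_prod_range, show A + W + 1 - A = W + 1 by omega]
  refine Finset.prod_congr rfl fun j _ => ?_
  push_cast
  ring

lemma fB_pos (A W a : ℕ) : 0 < fB A W a := by
  unfold fB
  apply div_pos (by exact_mod_cast Nat.factorial_pos W)
  exact Finset.prod_pos fun k _ => by positivity

lemma fB_le (A W a : ℕ) : fB A W a ≤ fB A W 0 := by
  unfold fB
  apply div_le_div_of_nonneg_left (by positivity)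
  · exact Finset.prod_pos fun k _ => by positivity
  · refine Finset.prod_le_prod (fun k _ => by positivity) fun k _ => ?_
    simp

lemma prod_fB_pos (bs : List (ℕ × ℕ)) (a : ℕ) : 0 < (bs.map fun b => fB b.1 b.2 a).prod := by
  induction bs with
  | nil => simp
  | cons b bs ih =>
    simp only [List.map_cons, List.prod_cons]
    exact mul_pos (fB_pos _ _ _) ih

lemma prod_fB_le (bs : List (ℕ × ℕ)) (a : ℕ) :
    (bs.map fun b => fB b.1 b.2 a).prod ≤ (bs.map fun b => fB b.1 b.2 0).prod := by
  induction bs with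
  | nil => simp
  | cons b bs ih =>
    simp only [List.map_cons, List.prod_cons]
    exact mul_le_mul (fB_le _ _ _) ih (prod_fB_pos _ _).le (fB_pos _ _ _).le

lemma summable_core (H : ℕ) (bs : List (ℕ × ℕ)) (X : ℝ) (hX0 : 0 ≤ X) (hX1 : X < 1) :
    Summable (fun a : ℕ => ((a + H).choose H : ℝ) * X ^ a * (bs.map fun b => fB b.1 b.2 a).prod) := by
  have h := (summable_choose_mul_geometric_of_norm_lt_one (R := ℝ) H
    (r := X) (by rwa [Real.norm_of_nonneg hX0])).mul_right (bs.map fun b => fB b.1 b.2 0).prod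
  refine Summable.of_nonneg_of_le (fun a => ?_) (fun a => ?_) h
  · have := prod_fB_pos bs a
    positivity
  · exact mul_le_mul_of_nonneg_left (prod_fB_le bs a) (by positivity)

/-- the analytic core: bounds for the power series, uniformly for `0 ≤ X < 1` -/
lemma bounds_core (H : ℕ) (bs : List (ℕ × ℕ)) : ∀ X : ℝ, 0 ≤ X → X < 1 →
    (1 / 2 : ℝ) ^ (H + 1) * (bs.map fun b => fB b.1 b.2 0).prod ≤
      ∑' a : ℕ, (-1 : ℝ) ^ a * (((a + H).choose H : ℝ) * X ^ a * (bs.map fun b => fB b.1 b.2 a).prod) ∧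
    ∑' a : ℕ, (-1 : ℝ) ^ a * (((a + H).choose H : ℝ) * X ^ a * (bs.map fun b => fB b.1 b.2 a).prod) ≤
      (bs.map fun b => fB b.1 b.2 0).prod := by
  induction bs with
  | nil =>
    intro X hX0 hX1
    simp only [List.map_nil, List.prod_nil, mul_one]
    have h := tsum_choose_mul_geometric_of_norm_lt_one (𝕜 := ℝ) H (r := -X)
      (by rw [norm_neg]; rwa [Real.norm_of_nonneg hX0])
    have e : (fun a : ℕ => (-1 : ℝ) ^ a * (((a + H).choose H : ℝ) * X ^ a)) =
        fun a : ℕ => ((a + H).choose H : ℝ) * (-X) ^ a := by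
      funext a
      rw [neg_pow X a]
      ring
    rw [e, h, sub_neg_eq_add]
    have h1 : 1 ≤ (1 + X) ^ (H + 1) := one_le_pow₀ (by linarith)
    constructor
    · rw [one_div, one_div, inv_pow]
      apply inv_anti₀ (by positivity)
      exact pow_le_pow_left₀ (by linarith) (by linarith) _
    · rw [div_le_one (by positivity)]
      exact h1
  | cons b bs ih =>
    intro X hX0 hX1
    set P : ℕ → ℝ := fun a => (bs.map fun b => fB b.1 b.2 a).prod with hP
    have hPpos : ∀ a, 0 < P a := fun a => prod_fB_pos bs a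
    set c : ℕ → ℝ := fun a => (-1 : ℝ) ^ a * (((a + H).choose H : ℝ) * X ^ a * P a) with hc
    have hcn : ∀ a, ‖c a‖ = ((a + H).choose H : ℝ) * X ^ a * P a := by
      intro a
      rw [hc]
      simp only
      rw [norm_mul, norm_pow, norm_neg, norm_one, one_pow, one_mul, Real.norm_of_nonneg]
      have := hPpos a
      positivity
    have hcs : Summable fun a => ‖c a‖ := by
      simp only [hcn]
      exact summable_core H bs X hX0 hX1
    set S : ℝ → ℝ := fun x => ∑' a : ℕ, c a * x ^ a with hS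
    have hSx : ∀ x ∈ Icc (0 : ℝ) 1, (1 / 2 : ℝ) ^ (H + 1) * P 0 ≤ S x ∧ S x ≤ P 0 := by
      intro x hx
      have h1 : x * X < 1 := by nlinarith [hx.1, hx.2]
      have h2 := ih (x * X) (mul_nonneg hx.1 hX0) h1
      have e : (fun a : ℕ => (-1 : ℝ) ^ a * (((a + H).choose H : ℝ) * (x * X) ^ a *
          (bs.map fun b => fB b.1 b.2 a).prod)) = fun a => c a * x ^ a := by
        funext a
        rw [hc, hP, mul_pow]
        simp only
        ring
      rw [e] at h2
      exact h2
    have hSc : ContinuousOn S (Icc 0 1) := by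
      apply continuousOn_tsum (u := fun a => ‖c a‖) (fun a => by fun_prop) hcs
      intro a x hx
      rw [norm_mul, norm_pow, Real.norm_of_nonneg hx.1]
      exact mul_le_of_le_one_right (norm_nonneg _) (pow_le_one₀ hx.1 hx.2)
    set w : ℝ → ℝ := wB b.1 b.2 with hw
    have hwi : IntervalIntegrable w volume 0 1 := wB_intble _ _
    have hwS : IntervalIntegrable (fun x => w x * S x) volume 0 1 :=
      hwi.mul_continuousOn (by rwa [uIcc_of_le zero_le_one])
    have hHS : HasSum (fun a => ∫ x in (0 : ℝ)..1, c a * (x ^ a * w x)) (∫ x in (0 : ℝ)..1, w x * S x) := by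
      apply intervalIntegral.hasSum_integral_of_dominated_convergence (fun a x => ‖c a‖ * w x)
      · intro a
        have h1 : IntervalIntegrable (fun x => w x * (c a * x ^ a)) volume 0 1 :=
          hwi.mul_continuousOn (by fun_prop)
        have h2 := (intervalIntegrable_iff.1 h1).aestronglyMeasurable
        refine h2.congr (Filter.Eventually.of_forall fun x => ?_)
        simp only
        ring
      · intro a
        refine Filter.Eventually.of_forall fun x hx => ?_
        rw [uIoc_of_le zero_le_one] at hx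
        have hx' : x ∈ Icc (0 : ℝ) 1 := ⟨hx.1.le, hx.2⟩
        rw [norm_mul (c a), norm_mul (x ^ a), norm_pow x, Real.norm_of_nonneg hx'.1,
          Real.norm_of_nonneg (wB_nonneg b.1 b.2 hx')]
        apply mul_le_mul_of_nonneg_left _ (norm_nonneg _)
        exact mul_le_of_le_one_left (wB_nonneg b.1 b.2 hx') (pow_le_one₀ hx'.1 hx'.2)
      · exact Filter.Eventually.of_forall fun x _ => hcs.mul_right _
      · have : (fun x => ∑' a, ‖c a‖ * w x) = fun x => (∑' a, ‖c a‖) * w x := by
          funext x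
          exact tsum_mul_right
        rw [this]
        exact hwi.const_mul _
      · refine Filter.Eventually.of_forall fun x hx => ?_
        rw [uIoc_of_le zero_le_one] at hx
        have hx' : x ∈ Icc (0 : ℝ) 1 := ⟨hx.1.le, hx.2⟩
        have h1 : Summable fun a => c a * x ^ a := by
          refine Summable.of_norm_bounded hcs fun a => ?_
          rw [norm_mul, norm_pow, Real.norm_of_nonneg hx'.1]
          exact mul_le_of_le_one_right (norm_nonneg _) (pow_le_one₀ hx'.1 hx'.2)
        have h2 := (h1.hasSum.mul_left (w x))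
        refine h2.congr_fun ?_
        intro a
        ring
    have e1 : (fun a : ℕ => (-1 : ℝ) ^ a * (((a + H).choose H : ℝ) * X ^ a *
        ((b :: bs).map fun b => fB b.1 b.2 a).prod)) =
        fun a => ∫ x in (0 : ℝ)..1, c a * (x ^ a * w x) := by
      funext a
      rw [intervalIntegral.integral_const_mul, hw, fB_eq_int, List.map_cons, List.prod_cons, hc, hP]
      ring
    rw [e1, hHS.tsum_eq]
    have e0 : ∫ x in (0 : ℝ)..1, w x = fB b.1 b.2 0 := by
      rw [← fB_eq_int b.1 b.2 0]
      simp [hw]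
    have e2 : (((b :: bs).map fun b => fB b.1 b.2 0).prod) = fB b.1 b.2 0 * P 0 := by
      rw [List.map_cons, List.prod_cons]
    rw [e2]
    constructor
    · have h1 : ∫ x in (0 : ℝ)..1, w x * ((1 / 2 : ℝ) ^ (H + 1) * P 0) ≤ ∫ x in (0 : ℝ)..1, w x * S x := by
        apply intervalIntegral.integral_mono_on zero_le_one (hwi.mul_const _) hwS
        intro x hx
        exact mul_le_mul_of_nonneg_left (hSx x hx).1 (wB_nonneg _ _ hx)
      rw [intervalIntegral.integral_mul_const, e0] at h1
      linarith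
    · have h1 : ∫ x in (0 : ℝ)..1, w x * S x ≤ ∫ x in (0 : ℝ)..1, w x * P 0 := by
        apply intervalIntegral.integral_mono_on zero_le_one hwS (hwi.mul_const _)
        intro x hx
        exact mul_le_mul_of_nonneg_left (hSx x hx).2 (wB_nonneg _ _ hx)
      rw [intervalIntegral.integral_mul_const, e0] at h1
      linarith

theorem T2b_bounds (H : ℕ) (bs : List (ℕ × ℕ)) (X : ℝ) (hX0 : 0 ≤ X) (hX1 : X < 1) :
    Summable (fun a : ℕ => ((a + H).choose H : ℝ) * X ^ a * (bs.map fun b => fB b.1 b.2 a).prod) ∧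
    (1 / 2 : ℝ) ^ (H + 1) * (bs.map fun b => fB b.1 b.2 0).prod ≤
      ∑' a : ℕ, (-1 : ℝ) ^ a * (((a + H).choose H : ℝ) * X ^ a * (bs.map fun b => fB b.1 b.2 a).prod) ∧
    ∑' a : ℕ, (-1 : ℝ) ^ a * (((a + H).choose H : ℝ) * X ^ a * (bs.map fun b => fB b.1 b.2 a).prod) ≤
      (bs.map fun b => fB b.1 b.2 0).prod :=
  ⟨summable_core H bs X hX0 hX1, bounds_core H bs X hX0 hX1⟩

end

end Pool.Agent.H336R2.BV
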