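import Pool.Agent.H336R2.BV.TD
import Pool.Agent.H336R2.BV.Size
import Pool.Agent.H336R2.BV.TaskE

open Polynomial Filter Topology

namespace Pool.Agent.H336R2.BV

open Pool.Agent.H337R2

noncomputable section

namespace TG

lemma fB_nonneg (A W a : ℕ) : 0 ≤ fB A W a := by
  unfold fB
  apply div_nonneg (by positivity)
  apply Finset.prod_nonneg
  intro k _
  positivity

lemma prod_nonneg_list {α : Type*} (l : List α) (f : α → ℝ) (h : ∀ a ∈ l, 0 ≤ f a) :
    0 ≤ (l.map f).prod := by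
  apply List.prod_nonneg
  intro x hx
  obtain ⟨a, ha, rfl⟩ := List.mem_map.1 hx
  exact h a ha

lemma prod_pos_list {α : Type*} (l : List α) (f : α → ℝ) (h : ∀ a ∈ l, 0 < f a) :
    0 < (l.map f).prod := by
  apply List.prod_pos
  intro x hx
  obtain ⟨a, ha, rfl⟩ := List.mem_map.1 hx
  exact h a ha

lemma prod_le_list {α : Type*} (l : List α) (f g : α → ℝ) (h : ∀ a ∈ l, 0 ≤ f a ∧ f a ≤ g a) :
    (l.map f).prod ≤ (l.map g).prod := by
  induction l with
  | nil => simp
  | cons a l ih =>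
    rw [List.map_cons, List.map_cons, List.prod_cons, List.prod_cons]
    have h1 := h a (by simp)
    have h2 := ih (fun b hb => h b (by simp [hb]))
    have h3 := prod_nonneg_list l f (fun b hb => (h b (by simp [hb])).1)
    exact mul_le_mul h1.2 h2 h3 (h1.1.trans h1.2)

lemma prod_const_pow {α : Type*} (l : List α) (c : ℝ) (f : α → ℝ) (n : ℕ) :
    (l.map fun a => c * f a ^ n).prod = c ^ l.length * (l.map f).prod ^ n := by
  induction l with
  | nil => simp
  | cons a l ih =>
    rw [List.map_cons, List.map_cons, List.prod_cons, List.prod_cons, ih, List.length_cons,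
      pow_succ, mul_pow]
    ring

/-- the limit `X → 1` -/
lemma bounds_one (H : ℕ) (bs : List (ℕ × ℕ))
    (hs : Summable (fun a : ℕ => ((a + H).choose H : ℝ) * (bs.map fun b => fB b.1 b.2 a).prod)) :
    (1 / 2 : ℝ) ^ (H + 1) * (bs.map fun b => fB b.1 b.2 0).prod ≤
      ∑' a : ℕ, (-1 : ℝ) ^ a * (((a + H).choose H : ℝ) * (bs.map fun b => fB b.1 b.2 a).prod) ∧
    ∑' a : ℕ, (-1 : ℝ) ^ a * (((a + H).choose H : ℝ) * (bs.map fun b => fB b.1 b.2 a).prod) ≤
      (bs.map fun b => fB b.1 b.2 0).prod := by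
  set X : ℕ → ℝ := fun m => 1 - 1 / ((m : ℝ) + 2) with hX
  have hX0 : ∀ m, 0 ≤ X m := by
    intro m
    have : (0 : ℝ) ≤ m := Nat.cast_nonneg m
    simp only [hX]
    rw [sub_nonneg, div_le_one (by linarith)]
    linarith
  have hX1 : ∀ m, X m < 1 := by
    intro m
    have : (0 : ℝ) ≤ m := Nat.cast_nonneg m
    simp only [hX]
    have : 0 < 1 / ((m : ℝ) + 2) := by positivity
    linarith
  have hXt : Tendsto X atTop (𝓝 1) := by
    have h1 : Tendsto (fun m : ℕ => 1 / ((m : ℝ) + 2)) atTop (𝓝 0) := by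
      have h2 := tendsto_const_nhds (x := (1 : ℝ)) (f := atTop (α := ℕ)) |>.div_atTop
        ((tendsto_natCast_atTop_atTop (R := ℝ)).atTop_add (tendsto_const_nhds (x := (2 : ℝ))))
      exact h2
    have h3 := h1.const_sub 1
    rwa [sub_zero] at h3
  set g : ℕ → ℝ := fun a => ((a + H).choose H : ℝ) * (bs.map fun b => fB b.1 b.2 a).prod with hg
  have hg0 : ∀ a, 0 ≤ g a := fun a => mul_nonneg (by positivity)
    (prod_nonneg_list _ _ fun b _ => fB_nonneg _ _ _)
  have hlim : Tendsto (fun m => ∑' a : ℕ, (-1 : ℝ) ^ a * (((a + H).choose H : ℝ) * (X m) ^ a *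
      (bs.map fun b => fB b.1 b.2 a).prod)) atTop (𝓝 (∑' a : ℕ, (-1 : ℝ) ^ a * g a)) := by
    apply tendsto_tsum_of_dominated_convergence hs
    · intro a
      have h1 : Tendsto (fun m => (-1 : ℝ) ^ a * (((a + H).choose H : ℝ) * (X m) ^ a *
          (bs.map fun b => fB b.1 b.2 a).prod)) atTop
          (𝓝 ((-1 : ℝ) ^ a * (((a + H).choose H : ℝ) * 1 ^ a *
          (bs.map fun b => fB b.1 b.2 a).prod))) :=
        (((hXt.pow a).const_mul _).mul_const _).const_mul _
      have e1 : (-1 : ℝ) ^ a * g a = (-1 : ℝ) ^ a * (((a + H).choose H : ℝ) * 1 ^ a *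
          (bs.map fun b => fB b.1 b.2 a).prod) := by
        simp only [hg]
        rw [one_pow, mul_one]
      rw [e1]
      exact h1
    · apply Eventually.of_forall
      intro m a
      rw [norm_mul, norm_pow, norm_neg, norm_one, one_pow, one_mul]
      have h2 : 0 ≤ (bs.map fun b => fB b.1 b.2 a).prod :=
        prod_nonneg_list _ _ fun b _ => fB_nonneg _ _ _
      have h3 : 0 ≤ (X m) ^ a := pow_nonneg (hX0 m) a
      rw [Real.norm_of_nonneg (by positivity)]
      have h4 : (X m) ^ a ≤ 1 := pow_le_one₀ (hX0 m) (hX1 m).le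
      calc ((a + H).choose H : ℝ) * (X m) ^ a * (bs.map fun b => fB b.1 b.2 a).prod ≤
          ((a + H).choose H : ℝ) * 1 * (bs.map fun b => fB b.1 b.2 a).prod := by gcongr
        _ = _ := by rw [mul_one]
  constructor
  · apply ge_of_tendsto' hlim
    intro m
    exact (T2b_bounds H bs (X m) (hX0 m) (hX1 m)).2.1
  · apply le_of_tendsto' hlim
    intro m
    exact (T2b_bounds H bs (X m) (hX0 m) (hX1 m)).2.2

/-- `MM` with natural exponents -/
lemma MM_eq (h : ℕ) (ds : List ℕ) (_h2 : ∀ d ∈ ds, 2 * d < h) :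
    MM h ds = 4 ^ h * (ds.map fun d : ℕ => ((d : ℝ) ^ d * ((h : ℝ) - 2 * d) ^ (h - 2 * d)) /
          ((h : ℝ) - d) ^ (h - d)).prod := by
  rfl

end TG

open TG

theorem T2_pos (h n : ℕ) (ds : List ℕ) (hn : 1 ≤ n)
    (hc : ∀ d ∈ ds, 0 < d) (h2 : ∀ d ∈ ds, 2 * d < h)
    (hdeg : h * n + 2 ≤ (ds.map fun d => (h - 2 * d) * n + 1).sum) :
    ∃ F, HasSum (trm h n ds) F ∧ 0 < F ∧ F ≤ 2 ^ ds.length * MM h ds ^ n := by
  set H := h * n with hH
  set bs : List (ℕ × ℕ) := ds.map (fun d => (d * n, (h - 2 * d) * n)) with hbs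
  have hdeg' : H + 2 ≤ (bs.map fun b => b.2 + 1).sum := by
    rw [hbs, List.map_map]
    exact hdeg
  have hs := T2e_summable H bs hdeg'
  obtain ⟨hlo, hup⟩ := bounds_one H bs hs
  set g : ℕ → ℝ := fun a => ((a + H).choose H : ℝ) * (bs.map fun b => fB b.1 b.2 a).prod with hg
  have hg0 : ∀ a, 0 ≤ g a := fun a => mul_nonneg (by positivity)
    (prod_nonneg_list _ _ fun b _ => fB_nonneg _ _ _)
  have htrm : trm h n ds = fun a => 4 ^ H * ((-1 : ℝ) ^ a * g a) := by
    funext a
    rw [T2a_trm h n ds hn hc h2 a]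
    simp only [hg]
    have e1 : (ds.map fun d => (Nat.factorial ((h - 2 * d) * n) : ℝ) /
        ∏ k ∈ Finset.Icc (d * n) (h * n - d * n), ((a : ℝ) + 1 / 2 + k)) =
        (bs.map fun b => fB b.1 b.2 a) := by
      rw [hbs, List.map_map]
      apply List.map_congr_left
      intro d hd
      simp only [Function.comp, fB]
      congr 2
      congr 1
      have := h2 d hd
      rw [← Nat.sub_mul, ← Nat.add_mul]
      congr 1
      omega
    rw [e1]
    ring
  have hsum : Summable (fun a : ℕ => (-1 : ℝ) ^ a * g a) := by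
    refine Summable.of_norm_bounded hs fun a => ?_
    rw [norm_mul, norm_pow, norm_neg, norm_one, one_pow, one_mul, Real.norm_of_nonneg (hg0 a)]
  refine ⟨4 ^ H * ∑' a : ℕ, (-1 : ℝ) ^ a * g a, ?_, ?_, ?_⟩
  · rw [htrm]
    exact hsum.hasSum.mul_left _
  · have h1 : 0 < (bs.map fun b => fB b.1 b.2 0).prod := by
      apply prod_pos_list
      intro b hb
      rw [hbs, List.mem_map] at hb
      obtain ⟨d, hd, rfl⟩ := hb
      have h3 := hc d hd
      have h4 := h2 d hd
      exact (T2c_size (d * n) ((h - 2 * d) * n) (Nat.mul_pos h3 hn)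
        (Nat.mul_pos (by omega) hn)).1
    have h2' : 0 < (1 / 2 : ℝ) ^ (H + 1) * (bs.map fun b => fB b.1 b.2 0).prod := by positivity
    have h3 := lt_of_lt_of_le h2' hlo
    positivity
  · have h1 : (bs.map fun b => fB b.1 b.2 0).prod ≤ 2 ^ ds.length *
        (ds.map fun d : ℕ => ((d : ℝ) ^ d * ((h : ℝ) - 2 * d) ^ (h - 2 * d)) /
          ((h : ℝ) - d) ^ (h - d)).prod ^ n := by
      rw [← prod_const_pow, hbs, List.map_map]
      apply prod_le_list
      intro d hd
      have h3 := hc d hd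
      have h4 := h2 d hd
      refine ⟨fB_nonneg _ _ _, ?_⟩
      refine (T2c_size (d * n) ((h - 2 * d) * n) (Nat.mul_pos h3 hn)
        (Nat.mul_pos (by omega) hn)).2.trans (le_of_eq ?_)
      congr 1
      have hW : ((h - 2 * d : ℕ) : ℝ) = (h : ℝ) - 2 * d := by
        rw [Nat.cast_sub (by omega)]
        push_cast
        ring
      have hA : ((h - d : ℕ) : ℝ) = (h : ℝ) - d := by
        rw [Nat.cast_sub (by omega)]
      have hsum2 : ((d * n : ℕ) : ℝ) + ((h - 2 * d) * n : ℕ) = ((h - d : ℕ) : ℝ) * n := by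
        push_cast
        rw [hW, hA]
        ring
      have hexp : d * n + (h - 2 * d) * n = (h - d) * n := by
        rw [← Nat.add_mul]
        congr 1
        omega
      rw [hsum2, hexp, ← hW, ← hA]
      push_cast
      have hn0 : (n : ℝ) ≠ 0 := by
        have : (0 : ℝ) < n := by exact_mod_cast hn
        exact this.ne'
      have hhd : ((h - d : ℕ) : ℝ) ≠ 0 := by
        have : 0 < h - d := by omega
        have : (0 : ℝ) < ((h - d : ℕ) : ℝ) := by exact_mod_cast this
        exact this.ne'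
      rw [mul_pow (d : ℝ) (n : ℝ), mul_pow ((h - 2 * d : ℕ) : ℝ) (n : ℝ),
        mul_pow ((h - d : ℕ) : ℝ) (n : ℝ), div_pow, mul_pow, ← pow_mul, ← pow_mul, ← pow_mul]
      rw [div_eq_div_iff (mul_ne_zero (pow_ne_zero _ hhd) (pow_ne_zero _ hn0))
        (pow_ne_zero _ hhd)]
      have e2 : (n : ℝ) ^ (d * n) * (n : ℝ) ^ ((h - 2 * d) * n) = (n : ℝ) ^ ((h - d) * n) := by
        rw [← pow_add, hexp]
      rw [← e2]
      ring
    rw [MM_eq h ds h2, mul_pow, ← pow_mul]
    calc (4 : ℝ) ^ H * ∑' a : ℕ, (-1 : ℝ) ^ a * g a ≤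
        4 ^ H * (2 ^ ds.length * (ds.map fun d : ℕ => ((d : ℝ) ^ d * ((h : ℝ) - 2 * d) ^
          (h - 2 * d)) / ((h : ℝ) - d) ^ (h - d)).prod ^ n) := by
          apply mul_le_mul_of_nonneg_left _ (by positivity)
          exact hup.trans h1
      _ = _ := by rw [hH]; ring

end

end Pool.Agent.H336R2.BV
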