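import Pool.Agent.H336R2.BV.Int
import Pool.Agent.H336R2.BV.TC
import Pool.Agent.H336R2.BV.TG
import Pool.Agent.H337R2.Asym

/-!
# The irrationality criterion for beta values
-/

open Filter Topology

namespace Pool.Agent.H336R2.BV

open Pool.Agent.H337R2

noncomputable section

/-- All the hypotheses on the parameters. -/
structure ParamsB (h D : ℕ) (ds : List ℕ) : Prop where
  hh : Odd h
  h1 : 1 < h
  hD : ∀ d ∈ ds, D ≤ d
  hc : ∀ d ∈ ds, 0 < d
  h2 : ∀ d ∈ ds, 2 * d < h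
  hlen : 2 ≤ ds.length
  hdeg : h ≤ (ds.map fun d => h - 2 * d).sum

lemma MM_pos {h : ℕ} {ds : List ℕ} (hc : ∀ d ∈ ds, 0 < d) (h2 : ∀ d ∈ ds, 2 * d < h) : 0 < MM h ds := by
  unfold MM
  apply mul_pos (by positivity)
  apply List.prod_pos
  intro a ha
  rw [List.mem_map] at ha
  obtain ⟨d, hd, rfl⟩ := ha
  have h3 := hc d hd
  have h4 := h2 d hd
  have e1 : (0 : ℝ) < (d : ℝ) := by exact_mod_cast h3
  have e2 : (0 : ℝ) < (h : ℝ) - 2 * d := by
    have : (2 * d : ℝ) < h := by exact_mod_cast h4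
    linarith
  have e3 : (0 : ℝ) < (h : ℝ) - d := by linarith
  positivity

lemma deg_cond {h n : ℕ} {ds : List ℕ} (hlen : 2 ≤ ds.length)
    (hdeg : h ≤ (ds.map fun d => h - 2 * d).sum) : h * n + 2 ≤ (ds.map fun d => (h - 2 * d) * n + 1).sum := by
  have h3 : (ds.map fun d => (h - 2 * d) * n + 1).sum = (ds.map fun d => h - 2 * d).sum * n + ds.length := by
    clear hlen hdeg
    induction ds with
    | nil => simp
    | cons d l ih =>
      simp only [List.map_cons, List.sum_cons, List.length_cons]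
      rw [ih]; ring
  rw [h3]
  have := Nat.mul_le_mul_right n hdeg
  omega

theorem criterion (h D : ℕ) (ds : List ℕ) (H : ParamsB h D ds)
    (x : ℕ × ℕ × ℕ) (L : List (ℕ × ℕ × ℕ)) (hV : ValidB h D ds (x :: L)) (hI : Inc (x :: L))
    (hx1 : x.1 = 1) (hx2 : x.2.1 = h) (hpos : ∀ y ∈ x :: L, 0 < y.2.1)
    (hlast : 0 < ((x :: L).getLast (by simp)).1)
    (hneg : Real.log (MM h ds) + (cost (x :: L) + ((ds.length : ℕ) : ℝ) *
      ((((x :: L).getLast (by simp)).2.1 : ℝ) / ((x :: L).getLast (by simp)).1)) < 0) :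
    ∃ i, Even i ∧ 2 ≤ i ∧ i ≤ ds.length ∧ Irrational (bt i) := by
  by_contra hcon
  push Not at hcon
  have hrat : ∀ i, ∃ v : ℚ, (Even i ∧ 2 ≤ i ∧ i ≤ ds.length → bt i = (v : ℝ)) ∧ (ds.length < i → v = 0) := by
    intro i
    by_cases hi : Even i ∧ 2 ≤ i ∧ i ≤ ds.length
    · have h1 := hcon i hi.1 hi.2.1 hi.2.2
      unfold Irrational at h1
      rw [not_not] at h1
      obtain ⟨v, hv⟩ := h1
      exact ⟨v, fun _ => hv.symm, fun h => by omega⟩
    · exact ⟨0, fun h => absurd h hi, fun _ => rfl⟩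
  choose u hu1 hu2 using hrat
  set q : ℕ := ∏ i ∈ Finset.range (ds.length + 1), (u i).den with hq
  have hq0 : 0 < q := by
    rw [hq]; exact Finset.prod_pos fun i _ => (u i).den_pos
  have hqu : ∀ i, ∃ z : ℤ, (q : ℚ) * u i = z := by
    intro i
    by_cases hi : ds.length < i
    · exact ⟨0, by rw [hu2 i hi]; simp⟩
    · have h1 : (u i).den ∣ q := Finset.dvd_prod_of_mem (fun i => (u i).den) (Finset.mem_range.2 (by omega))
      obtain ⟨w, hw⟩ := h1
      refine ⟨w * (u i).num, ?_⟩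
      rw [hw]
      push_cast
      have h2 : ((u i).den : ℚ) * u i = (u i).num := by
        rw [mul_comm]; exact Rat.mul_den_eq_num (u i)
      calc ((u i).den : ℚ) * w * u i = w * (((u i).den : ℚ) * u i) := by ring
        _ = _ := by rw [h2]
  -- the growth inequality
  set T : ℝ := Real.log (MM h ds) + (cost (x :: L) + ((ds.length : ℕ) : ℝ) *
      ((((x :: L).getLast (by simp)).2.1 : ℝ) / ((x :: L).getLast (by simp)).1)) with hT
  have hε : 0 < -T / 4 := by linarith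
  have ev2 := log_Dn_le 1 (2 * h) ds.length x L hI hpos hlast (-T / 4) hε
  have ev3 : ∀ᶠ n : ℕ in atTop, Real.log q + ds.length * Real.log 2 ≤ (-T / 4) * n := by
    have := (tendsto_natCast_atTop_atTop (R := ℝ)).const_mul_atTop hε
    exact this.eventually_ge_atTop _
  have ev4 : ∀ᶠ n : ℕ in atTop, ∀ y ∈ x :: L, y.2.1 ^ 2 ≤ h * n := by
    obtain ⟨B, hB⟩ : ∃ B : ℕ, ∀ y ∈ x :: L, y.2.1 ≤ B := by
      refine ⟨((x :: L).map fun y => y.2.1).sum, fun y hy => ?_⟩
      exact List.single_le_sum (fun _ _ => Nat.zero_le _) _ (List.mem_map_of_mem hy)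
    filter_upwards [eventually_ge_atTop (B ^ 2)] with n hn y hy
    have h1 := hB y hy
    have h2 : y.2.1 ^ 2 ≤ B ^ 2 := Nat.pow_le_pow_left h1 2
    have h3 : 1 ≤ h := by have := H.h1; omega
    nlinarith
  obtain ⟨N, hN⟩ := eventually_atTop.1 (ev2.and (ev3.and ev4))
  -- a large odd n
  obtain ⟨n, hnN, hnodd, hn1⟩ : ∃ n, N ≤ n ∧ Odd n ∧ 1 ≤ n := ⟨2 * N + 1, by omega, ⟨N, by ring⟩, by omega⟩
  obtain ⟨h2, h3, h4⟩ := hN n hnN
  have hodd : Odd (h * n) := H.hh.mul hnodd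
  obtain ⟨F, hF, hF0, hF1⟩ := T2_pos h n ds hn1 H.hc H.h2 (deg_cond H.hlen H.hdeg)
  have hsum := T1_hasSum h n ds H.hh hnodd H.hc H.h2 (deg_cond H.hlen H.hdeg) u
    (fun i hi1 hi2 hi3 => hu1 i ⟨hi1, hi2, hi3⟩) hF
  obtain ⟨m, hm⟩ := integral h n D ds hn1 hodd H.hD H.hc H.h2 H.h1 x L hV hx1 hx2
    (fun y hy => ⟨h4 y hy, hpos y hy⟩) hlast u q hq0 hqu
  have hDpos := Dn_pos 1 (2 * h) n ds.length x L hn1
  have hmr : (m : ℝ) = (Dn 1 (2 * h) n ds.length x L : ℝ) * (q * F) := by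
    have : ((m : ℚ) : ℝ) = (((Dn 1 (2 * h) n ds.length x L : ℕ) : ℚ) * (q * xfb h n ds u) : ℚ) := by rw [hm]
    push_cast at this
    rw [this, hsum]
  have hDr : (0 : ℝ) < (Dn 1 (2 * h) n ds.length x L : ℝ) := by exact_mod_cast hDpos
  have hqr : (0 : ℝ) < (q : ℝ) := by exact_mod_cast hq0
  have hm0 : (0 : ℝ) < m := by rw [hmr]; positivity
  have hm1 : (1 : ℝ) ≤ m := by
    have : (1 : ℤ) ≤ m := by exact_mod_cast hm0
    exact_mod_cast this
  have hMM := MM_pos H.hc H.h2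
  have e1 : Real.log (m : ℝ) = Real.log (Dn 1 (2 * h) n ds.length x L : ℝ) + (Real.log q + Real.log F) := by
    rw [hmr, Real.log_mul hDr.ne' (by positivity), Real.log_mul hqr.ne' hF0.ne']
  have e2 : Real.log F ≤ ds.length * Real.log 2 + n * Real.log (MM h ds) := by
    have := Real.log_le_log hF0 hF1
    rw [Real.log_mul (by positivity) (by positivity), Real.log_pow, Real.log_pow] at this
    exact this
  have e3 : 0 ≤ Real.log (m : ℝ) := Real.log_nonneg hm1
  have e5 : ((1 - 1 + ds.length : ℕ) : ℝ) = (ds.length : ℝ) := by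
    rw [Nat.sub_self, Nat.zero_add]
  rw [e5] at h2
  have hn0 : (0 : ℝ) < n := by exact_mod_cast hn1
  have e4 : Real.log (m : ℝ) ≤ (T / 2) * n := by
    rw [e1]
    have : (cost (x :: L) + (ds.length : ℝ) * ((((x :: L).getLast (by simp)).2.1 : ℝ) / ((x :: L).getLast (by simp)).1) + -T / 4) * n
       + ((-T / 4) * n) + n * Real.log (MM h ds) = (T / 2) * n := by
      rw [hT]; ring
    linarith
  have e6 : (T / 2) * n < 0 := by
    apply mul_neg_of_neg_of_pos _ hn0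
    linarith
  linarith

end

end Pool.Agent.H336R2.BV
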