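import Pool.Agent.H336R2.BV.CheckS
import Pool.Agent.H336R2.BV.Crit

/-!
# From the checker to the irrationality criterion (beta values)
-/

open Filter Topology

namespace Pool.Agent.H336R2.BV

open Pool.Agent.H337R2

/-- check of all the cells, and of the order of the breakpoints -/
def cellsOKB (h D : ℕ) (ds : List ℕ) : List (ℕ × ℕ × ℕ) → Bool
  | x :: y :: L => cellOKB h D ds x.2.2 (x.1, x.2.1) (y.1, y.2.1) &&
      (Nat.ble 1 x.1 && Nat.ble 1 y.1 && Nat.ble 1 x.2.1 && Nat.ble 1 y.2.1 && Nat.ble (x.1 * y.2.1) (y.1 * x.2.1)) &&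
      cellsOKB h D ds (y :: L)
  | _ => true

lemma cellsOKB_sound {h D : ℕ} {ds : List ℕ} (hD0 : 0 < D) (hDm : D ∈ ds)
    (h2D : ∀ d ∈ ds, 2 * d < h) (L : List (ℕ × ℕ × ℕ))
    (hL : cellsOKB h D ds L = true) : ValidB h D ds L ∧ Inc L := by
  induction L with
  | nil => exact ⟨trivial, trivial⟩
  | cons x L ih =>
    cases L with
    | nil => exact ⟨trivial, trivial⟩
    | cons y L =>
      unfold cellsOKB at hL
      simp only [Bool.and_eq_true, Nat.ble_eq] at hL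
      obtain ⟨⟨h1, ⟨⟨⟨⟨h2, h3⟩, h4⟩, h5⟩, h6⟩⟩, h7⟩ := hL
      obtain ⟨i1, i2⟩ := ih h7
      refine ⟨⟨by omega, ?_, i1⟩, by omega, by omega, h6, i2⟩
      intro p n hp hp1 _ _ hx hy k _ _
      exact cellOKB_sound (k := k) hD0 hDm h2D (by simpa using (by omega : 0 < y.2.1)) h1
        (hp.odd_of_ne_two hp1) hx hy

lemma costB_le {h D : ℕ} {ds : List ℕ} (Sc : ℕ) (hSc : 0 < Sc) (L : List (ℕ × ℕ × ℕ))
    (hL : cellsOKB h D ds L = true) : cost L ≤ (costN Sc L : ℝ) / Sc := by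
  have hS : (0 : ℝ) < Sc := by exact_mod_cast hSc
  induction L with
  | nil => simp [cost, costN]
  | cons x L ih =>
    cases L with
    | nil => simp [cost, costN]
    | cons y L =>
      unfold cellsOKB at hL
      simp only [Bool.and_eq_true, Nat.ble_eq] at hL
      obtain ⟨⟨_, ⟨⟨⟨⟨h2, h3⟩, _⟩, _⟩, _⟩⟩, h7⟩ := hL
      have ih' := ih h7
      unfold cost costN
      have hx : (0 : ℝ) < x.1 := by exact_mod_cast (by omega : 0 < x.1)
      have hy : (0 : ℝ) < y.1 := by exact_mod_cast (by omega : 0 < y.1)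
      have e1 : (x.2.1 : ℝ) / x.1 ≤ (((Sc * x.2.1) / x.1 + 1 : ℕ) : ℝ) / Sc := by
        rw [div_le_div_iff₀ hx hS]
        have h8 : Sc * x.2.1 < ((Sc * x.2.1) / x.1 + 1) * x.1 := by
          have := Nat.lt_div_mul_add (a := Sc * x.2.1) (b := x.1) (by omega)
          linarith
        have h9 : ((Sc * x.2.1 : ℕ) : ℝ) ≤ ((((Sc * x.2.1) / x.1 + 1) * x.1 : ℕ) : ℝ) := by exact_mod_cast h8.le
        push_cast at h9 ⊢
        linarith
      have e2 : (((Sc * y.2.1) / y.1 : ℕ) : ℝ) / Sc ≤ (y.2.1 : ℝ) / y.1 := by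
        rw [div_le_div_iff₀ hS hy]
        have h8 : ((Sc * y.2.1) / y.1) * y.1 ≤ Sc * y.2.1 := Nat.div_mul_le_self _ _
        have h9 : ((((Sc * y.2.1) / y.1) * y.1 : ℕ) : ℝ) ≤ ((Sc * y.2.1 : ℕ) : ℝ) := by exact_mod_cast h8
        push_cast at h9 ⊢
        linarith
      have e3 : (((Sc * x.2.1) / x.1 + 1 : ℕ) : ℝ) - (((Sc * y.2.1) / y.1 : ℕ) : ℝ) ≤
          (((Sc * x.2.1) / x.1 + 1 - (Sc * y.2.1) / y.1 : ℕ) : ℝ) := by
        rw [sub_le_iff_le_add]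
        exact_mod_cast (by omega : (Sc * x.2.1) / x.1 + 1 ≤ ((Sc * x.2.1) / x.1 + 1 - (Sc * y.2.1) / y.1) + (Sc * y.2.1) / y.1)
      have e4 : (x.2.1 : ℝ) / x.1 - (y.2.1 : ℝ) / y.1 ≤ (((Sc * x.2.1) / x.1 + 1 - (Sc * y.2.1) / y.1 : ℕ) : ℝ) / Sc := by
        calc _ ≤ (((Sc * x.2.1) / x.1 + 1 : ℕ) : ℝ) / Sc - (((Sc * y.2.1) / y.1 : ℕ) : ℝ) / Sc := by linarith
          _ = ((((Sc * x.2.1) / x.1 + 1 : ℕ) : ℝ) - (((Sc * y.2.1) / y.1 : ℕ) : ℝ)) / Sc := by ring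
          _ ≤ _ := div_le_div_of_nonneg_right e3 hS.le
      have e5 := mul_le_mul_of_nonneg_left e4 (by positivity : (0 : ℝ) ≤ (x.2.2 : ℝ))
      have e6 : ((x.2.2 * ((Sc * x.2.1) / x.1 + 1 - (Sc * y.2.1) / y.1) + costN Sc (y :: L) : ℕ) : ℝ) / Sc =
          (x.2.2 : ℝ) * ((((Sc * x.2.1) / x.1 + 1 - (Sc * y.2.1) / y.1 : ℕ) : ℝ) / Sc) + (costN Sc (y :: L) : ℝ) / Sc := by
        rw [Nat.cast_add, Nat.cast_mul]
        ring
      rw [e6]
      linarith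

/-- numerator of `MM` -/
def NfB (h : ℕ) (ds : List ℕ) : ℕ := 4 ^ h * (ds.map fun d => d ^ d * (h - 2 * d) ^ (h - 2 * d)).prod

/-- denominator of `MM` -/
def MfB (h : ℕ) (ds : List ℕ) : ℕ := (ds.map fun d => (h - d) ^ (h - d)).prod

lemma prodN_pos (h : ℕ) (ds : List ℕ) (hc : ∀ d ∈ ds, 0 < d) (h2 : ∀ d ∈ ds, 2 * d < h) :
    0 < (ds.map fun d => d ^ d * (h - 2 * d) ^ (h - 2 * d)).prod := by
  apply List.prod_pos
  intro a ha
  rw [List.mem_map] at ha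
  obtain ⟨w, hw, rfl⟩ := ha
  have hw1 := hc w hw
  have hw2 := h2 w hw
  exact Nat.mul_pos (Nat.pow_pos hw1) (Nat.pow_pos (by omega))

lemma MfB_pos (h : ℕ) (ds : List ℕ) (h2 : ∀ d ∈ ds, 2 * d < h) : 0 < MfB h ds := by
  unfold MfB
  apply List.prod_pos
  intro a ha
  rw [List.mem_map] at ha
  obtain ⟨w, hw, rfl⟩ := ha
  have hw2 := h2 w hw
  exact Nat.pow_pos (by omega)

lemma MM_eq_div (h : ℕ) (ds : List ℕ) (h2 : ∀ d ∈ ds, 2 * d < h) :
    MM h ds = (NfB h ds : ℝ) / (MfB h ds : ℝ) := by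
  unfold MM NfB MfB
  rw [Nat.cast_mul, mul_div_assoc]
  push_cast
  congr 1
  induction ds with
  | nil => simp
  | cons d L ih =>
    have hd := h2 d List.mem_cons_self
    simp only [List.map_cons, List.prod_cons]
    rw [ih (fun z hz => h2 z (List.mem_cons_of_mem _ hz))]
    push_cast
    rw [Nat.cast_sub (by omega : 2 * d ≤ h), Nat.cast_sub (by omega : d ≤ h)]
    push_cast
    rw [mul_div_mul_comm]

lemma log_MM_le (h : ℕ) (ds : List ℕ) (hc : ∀ d ∈ ds, 0 < d) (h2 : ∀ d ∈ ds, 2 * d < h) (X : ℕ)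
    (hX : Nat.ble (NfB h ds * 27182818286 ^ X) (MfB h ds * 10 ^ (10 * X)) = true) :
    Real.log (MM h ds) ≤ -(X : ℝ) := by
  rw [MM_eq_div h ds h2]
  rw [Nat.ble_eq] at hX
  have hN : 0 < NfB h ds := by
    unfold NfB
    exact Nat.mul_pos (Nat.pow_pos (by norm_num)) (prodN_pos h ds hc h2)
  have hM := MfB_pos h ds h2
  have hN' : (0 : ℝ) < NfB h ds := by exact_mod_cast hN
  have hM' : (0 : ℝ) < MfB h ds := by exact_mod_cast hM
  have hX' : ((NfB h ds * 27182818286 ^ X : ℕ) : ℝ) ≤ ((MfB h ds * 10 ^ (10 * X) : ℕ) : ℝ) := by exact_mod_cast hX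
  rw [Nat.cast_mul, Nat.cast_mul, Nat.cast_pow, Nat.cast_pow] at hX'
  have he : Real.exp 1 < 2.7182818286 := Real.exp_one_lt_d9
  have he2 : Real.exp (X : ℝ) ≤ (27182818286 : ℝ) ^ X / 10 ^ (10 * X) := by
    have h3 : Real.exp (X : ℝ) = Real.exp 1 ^ X := by rw [← Real.exp_nat_mul, mul_one]
    rw [h3, pow_mul, ← div_pow]
    apply pow_le_pow_left₀ (Real.exp_pos 1).le
    norm_num at he ⊢
    linarith
  rw [Real.log_le_iff_le_exp (by positivity), Real.exp_neg, ← one_div, div_le_div_iff₀ hM' (Real.exp_pos _), one_mul]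
  have h10 : (0 : ℝ) < 10 ^ (10 * X) := by positivity
  calc (NfB h ds : ℝ) * Real.exp X ≤ (NfB h ds : ℝ) * ((27182818286 : ℝ) ^ X / 10 ^ (10 * X)) :=
        mul_le_mul_of_nonneg_left he2 hN'.le
    _ = ((NfB h ds : ℝ) * (27182818286 : ℝ) ^ X) / 10 ^ (10 * X) := by ring
    _ ≤ ((MfB h ds : ℝ) * 10 ^ (10 * X)) / 10 ^ (10 * X) := by
        apply div_le_div_of_nonneg_right _ h10.le
        push_cast at hX'
        exact hX'
    _ = _ := by field_simp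

/-- all the computations needed -/
structure CertB (h D : ℕ) (ds : List ℕ) (C : List (ℕ × ℕ × ℕ)) (X Sc : ℕ) : Prop where
  hh : Odd h
  h1 : 1 < h
  hD0 : 0 < D
  hDm : D ∈ ds
  hds : ∀ d ∈ ds, D ≤ d ∧ 2 * d < h
  hlen : 2 ≤ ds.length
  hdeg : h ≤ (ds.map fun d => h - 2 * d).sum
  hX : Nat.ble (NfB h ds * 27182818286 ^ X) (MfB h ds * 10 ^ (10 * X)) = true
  hC : cellsOKB h D ds C = true
  hne : C ≠ []
  hhead : (C.head hne).1 = 1 ∧ (C.head hne).2.1 = h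
  hpos : ∀ y ∈ C, 0 < y.2.1
  hlast : 0 < (C.getLast hne).1
  hneg : -(X : ℚ) + ((costN Sc C : ℚ) / Sc +
    (ds.length : ℚ) * (((C.getLast hne).2.1 : ℚ) / (C.getLast hne).1)) < 0
  hSc : 0 < Sc

theorem certB_irrational {h D : ℕ} {ds : List ℕ} {C : List (ℕ × ℕ × ℕ)} {X Sc : ℕ}
    (H : CertB h D ds C X Sc) :
    ∃ i, Even i ∧ 2 ≤ i ∧ i ≤ ds.length ∧ Irrational (bt i) := by
  have hD0 := H.hD0
  have hc : ∀ d ∈ ds, 0 < d := fun d hd => by
    have := (H.hds d hd).1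
    omega
  have h2 : ∀ d ∈ ds, 2 * d < h := fun d hd => (H.hds d hd).2
  have P : ParamsB h D ds := ⟨H.hh, H.h1, fun d hd => (H.hds d hd).1, hc, h2, H.hlen, H.hdeg⟩
  obtain ⟨hV, hI⟩ := cellsOKB_sound H.hD0 H.hDm h2 C H.hC
  have hcost := costB_le Sc H.hSc C H.hC
  have hM := log_MM_le h ds hc h2 X H.hX
  have hneg : -(X : ℝ) + ((costN Sc C : ℝ) / Sc + (ds.length : ℝ) * (((C.getLast H.hne).2.1 : ℝ) / (C.getLast H.hne).1)) < 0 := by
    have h3 := H.hneg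
    have h4 : ((-(X : ℚ) + ((costN Sc C : ℚ) / Sc +
    (ds.length : ℚ) * (((C.getLast H.hne).2.1 : ℚ) / (C.getLast H.hne).1)) : ℚ) : ℝ) < 0 := by exact_mod_cast h3
    rw [Rat.cast_add, Rat.cast_neg, Rat.cast_natCast, Rat.cast_add, Rat.cast_div, Rat.cast_mul,
      Rat.cast_div, Rat.cast_natCast, Rat.cast_natCast, Rat.cast_natCast, Rat.cast_natCast, Rat.cast_natCast] at h4
    exact h4
  obtain ⟨x, L, hxL⟩ : ∃ x L, C = x :: L := List.exists_cons_of_ne_nil H.hne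
  subst hxL
  have hhead := H.hhead
  simp only [List.head_cons] at hhead
  apply criterion h D ds P x L hV hI hhead.1 hhead.2 H.hpos H.hlast
  linarith

end Pool.Agent.H336R2.BV
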