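import Pool.Agent.H336R2.BV.Defs
import Pool.Agent.H337R2.CheckL

/-!
# A verified checker for the cells (beta values)

An entry is `(position, shift, delta, weight, floor)`.
-/

namespace Pool.Agent.H336R2.BV

open Pool.Agent.H337R2

/-- points: position, shift, delta, weight -/
def ptsB (h : ℕ) (ds : List ℕ) : List (ℕ × ℕ × ℕ × ℤ) :=
  (h, 1, 1, 1) :: (0, 1, 1, -1) :: ds.flatMap fun d => [(h - d, 0, 0, -1), (d, 1, 0, 1)]

/-- test at one position -/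
def okB (t : ℤ) (fL fU : ℕ) (c0ok : Bool) (acc : ℤ) (ci di : Bool) : Bool :=
  (c0ok && Nat.ble (fU + (bif ci then 1 else 0)) (fL + 1 + (bif di then 1 else 0))) || decide (t ≤ acc)

/-- run through all the positions -/
def runB (t : ℤ) (D D' fL fU : ℕ) (c0ok : Bool) : List (ℕ × ℕ × ℕ × ℤ × ℕ) → ℤ → Bool → Bool → Bool
  | [], acc, ci, di => okB t fL fU c0ok acc ci di
  | e :: L, acc, ci, di => okB t fL fU c0ok acc ci di &&
      runB t D D' fL fU c0ok L (acc - e.2.2.2.1) (ci || Nat.beq e.1 D) (di || Nat.beq e.1 D')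

/-- floor check of an entry -/
def flOKB (x y : ℕ × ℕ) (e : ℕ × ℕ × ℕ × ℤ × ℕ) : Bool :=
  (Nat.beq e.1 0 && Nat.beq e.2.1 1 && Nat.beq e.2.2.1 1 && Nat.beq e.2.2.2.2 0) ||
    (Nat.ble 1 e.1 && Nat.ble e.2.1 1 && Nat.ble (2 * e.2.2.2.2 * x.2) (2 * e.1 * x.1 + e.2.2.1 * x.2) &&
      Nat.ble (2 * e.1 * y.1 + e.2.2.1 * y.2) ((2 * e.2.2.2.2 + 2) * y.2))

/-- comparison of two consecutive entries on the cell -/
def cmpOKB (x y : ℕ × ℕ) (e1 e2 : ℕ × ℕ × ℕ × ℤ × ℕ) : Bool :=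
  (Nat.ble (e1.1 + 1) e2.1 && Nat.ble (2 * e1.1 * x.1 + (e1.2.2.1 + 2 * e2.2.2.2.2) * x.2)
      (2 * e2.1 * x.1 + (e2.2.2.1 + 2 * e1.2.2.2.2) * x.2)) ||
    (Nat.ble (e2.1 + 1) e1.1 && Nat.ble (2 * e1.1 * y.1 + (e1.2.2.1 + 2 * e2.2.2.2.2) * y.2)
      (2 * e2.1 * y.1 + (e2.2.2.1 + 2 * e1.2.2.2.2) * y.2))

/-- chain check -/
def chainB (x y : ℕ × ℕ) : List (ℕ × ℕ × ℕ × ℤ × ℕ) → Bool
  | e1 :: e2 :: L => cmpOKB x y e1 e2 && chainB x y (e2 :: L)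
  | _ => true

/-- the entry attached to a point -/
def toEnt (mn md : ℕ) (z : ℕ × ℕ × ℕ × ℤ) : ℕ × ℕ × ℕ × ℤ × ℕ :=
  (z.1, z.2.1, z.2.2.1, z.2.2.2, (2 * z.1 * mn + z.2.2.1 * md) / (2 * md))

/-- the entries of a cell -/
def entsB (h : ℕ) (ds : List ℕ) (mn md : ℕ) : List (ℕ × ℕ × ℕ × ℤ × ℕ) :=
  (isort ((ptsB h ds).map fun z => ((2 * z.1 * mn + z.2.2.1 * md) % (2 * md), toEnt mn md z))).map Prod.snd

/-- sum of weights times floors -/
def sumfB : List (ℕ × ℕ × ℕ × ℤ × ℕ) → ℤ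
  | [] => 0
  | e :: L => e.2.2.2.1 * e.2.2.2.2 + sumfB L

/-- sum of the floors of the brick lengths -/
def sumgB (h : ℕ) (mn md : ℕ) : List ℕ → ℕ
  | [] => 0
  | d :: L => ((h - 2 * d) * mn) / md + sumgB h mn md L

/-- check of the floors of the brick lengths -/
def gOKB (h : ℕ) (mn md : ℕ) (x y : ℕ × ℕ) : List ℕ → Bool
  | [] => true
  | d :: L => flOK x y (h - 2 * d, 0, 0, ((h - 2 * d) * mn) / md) && gOKB h mn md x y L

/-- check of a cell -/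
def cellOKB (h D : ℕ) (ds : List ℕ) (E : ℕ) (x y : ℕ × ℕ) : Bool :=
  let mn := x.1 + y.1
  let md := x.2 + y.2
  let L := entsB h ds mn md
  let eL := toEnt mn md (D, 1, 0, 1)
  let eU := toEnt mn md (h - D, 0, 0, -1)
  let fh := (h * mn) / md
  L.all (flOKB x y) && chainB x y L && gOKB h mn md x y ds &&
    flOKB x y eL && flOKB x y eU && flOK x y (h, 0, 0, fh) &&
    runB (-(E : ℤ)) D (h - D) eL.2.2.2.2 eU.2.2.2.2 (decide ((fh : ℤ) - sumgB h mn md ds ≤ E)) L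
      (sumfB L - fh + sumgB h mn md ds) false false

end Pool.Agent.H336R2.BV
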