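import Pool.Agent.H336R2.BV.Check

/-!
# Soundness of the checker (beta values)
-/

namespace Pool.Agent.H336R2.BV

open Pool.Agent.H337R2

/-- residue of an entry -/
def rrB (p n : ℕ) (e : ℕ × ℕ × ℕ × ℤ × ℕ) : ℤ :=
  2 * (e.1 : ℤ) * n - e.2.1 + e.2.2.1 * p - 2 * p * e.2.2.2.2

lemma flOKB_lt {x y : ℕ × ℕ} {p n : ℕ} {e : ℕ × ℕ × ℕ × ℤ × ℕ} (h1 : x.1 * p < x.2 * n) (h2 : y.2 * n < y.1 * p)
    (hy : 0 < y.2) (h : flOKB x y e = true) : 0 ≤ rrB p n e ∧ rrB p n e < 2 * p ∧ e.2.1 ≤ 1 := by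
  unfold flOKB at h
  unfold rrB
  rw [Bool.or_eq_true] at h
  have hp : 0 < p := by
    rcases Nat.eq_zero_or_pos p with h3 | h3
    · subst h3; omega
    · exact h3
  rcases h with h | h
  · rw [Bool.and_eq_true, Bool.and_eq_true, Bool.and_eq_true, Nat.beq_eq, Nat.beq_eq, Nat.beq_eq, Nat.beq_eq] at h
    rw [h.1.1.1, h.1.1.2, h.1.2, h.2]
    push_cast
    refine ⟨by omega, by omega, trivial⟩
  · rw [Bool.and_eq_true, Bool.and_eq_true, Bool.and_eq_true, Nat.ble_eq, Nat.ble_eq, Nat.ble_eq, Nat.ble_eq] at h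
    obtain ⟨⟨⟨h3, h4⟩, h5⟩, h6⟩ := h
    have hx2 : 0 < x.2 := by
      rcases Nat.eq_zero_or_pos x.2 with h7 | h7
      · rw [h7] at h1; omega
      · exact h7
    have a1 : 2 * e.2.2.2.2 * p < 2 * e.1 * n + e.2.2.1 * p := by
      have b1 : 2 * e.2.2.2.2 * x.2 * p ≤ (2 * e.1 * x.1 + e.2.2.1 * x.2) * p := Nat.mul_le_mul_right p h5
      have b2 : (2 * e.1) * (x.1 * p) < (2 * e.1) * (x.2 * n) := Nat.mul_lt_mul_of_pos_left h1 (by omega)
      have b3 : (2 * e.2.2.2.2 * p) * x.2 < (2 * e.1 * n + e.2.2.1 * p) * x.2 := by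
        calc _ = 2 * e.2.2.2.2 * x.2 * p := by ring
          _ ≤ (2 * e.1 * x.1 + e.2.2.1 * x.2) * p := b1
          _ = (2 * e.1) * (x.1 * p) + e.2.2.1 * x.2 * p := by ring
          _ < (2 * e.1) * (x.2 * n) + e.2.2.1 * x.2 * p := by omega
          _ = _ := by ring
      exact lt_of_mul_lt_mul_right b3 (Nat.zero_le _)
    have a2 : 2 * e.1 * n + e.2.2.1 * p < (2 * e.2.2.2.2 + 2) * p := by
      have b1 : (2 * e.1 * y.1 + e.2.2.1 * y.2) * p ≤ (2 * e.2.2.2.2 + 2) * y.2 * p := Nat.mul_le_mul_right p h6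
      have b2 : (2 * e.1) * (y.2 * n) < (2 * e.1) * (y.1 * p) := Nat.mul_lt_mul_of_pos_left h2 (by omega)
      have b3 : (2 * e.1 * n + e.2.2.1 * p) * y.2 < ((2 * e.2.2.2.2 + 2) * p) * y.2 := by
        calc _ = (2 * e.1) * (y.2 * n) + e.2.2.1 * y.2 * p := by ring
          _ < (2 * e.1) * (y.1 * p) + e.2.2.1 * y.2 * p := by omega
          _ = (2 * e.1 * y.1 + e.2.2.1 * y.2) * p := by ring
          _ ≤ _ := b1
          _ = _ := by ring
      exact lt_of_mul_lt_mul_right b3 (Nat.zero_le _)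
    have a1' : ((2 * e.2.2.2.2 * p : ℕ) : ℤ) < ((2 * e.1 * n + e.2.2.1 * p : ℕ) : ℤ) := by exact_mod_cast a1
    have a2' : ((2 * e.1 * n + e.2.2.1 * p : ℕ) : ℤ) < (((2 * e.2.2.2.2 + 2) * p : ℕ) : ℤ) := by exact_mod_cast a2
    have h4' : ((e.2.1 : ℕ) : ℤ) ≤ 1 := by exact_mod_cast h4
    push_cast at a1' a2'
    refine ⟨?_, ?_, h4⟩
    · nlinarith
    · have : (0 : ℤ) ≤ e.2.1 := by positivity
      nlinarith

lemma cmpOKB_le {x y : ℕ × ℕ} {p n : ℕ} {e1 e2 : ℕ × ℕ × ℕ × ℤ × ℕ} (h1 : x.1 * p < x.2 * n) (h2 : y.2 * n < y.1 * p)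
    (hy : 0 < y.2) (hf2 : e2.2.1 ≤ 1) (h : cmpOKB x y e1 e2 = true) : rrB p n e1 ≤ rrB p n e2 := by
  unfold cmpOKB at h
  unfold rrB
  rw [Bool.or_eq_true, Bool.and_eq_true, Bool.and_eq_true, Nat.ble_eq, Nat.ble_eq, Nat.ble_eq, Nat.ble_eq] at h
  have hx2 : 0 < x.2 := by
    rcases Nat.eq_zero_or_pos x.2 with h7 | h7
    · rw [h7] at h1; omega
    · exact h7
  have h1' : ((x.1 * p : ℕ) : ℤ) < ((x.2 * n : ℕ) : ℤ) := by exact_mod_cast h1
  have h2' : ((y.2 * n : ℕ) : ℤ) < ((y.1 * p : ℕ) : ℤ) := by exact_mod_cast h2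
  push_cast at h1' h2'
  have hx2' : (0 : ℤ) < x.2 := by exact_mod_cast hx2
  have hy2' : (0 : ℤ) < y.2 := by exact_mod_cast hy
  have hp' : (0 : ℤ) ≤ p := by positivity
  have hf2' : (e2.2.1 : ℤ) ≤ 1 := by exact_mod_cast hf2
  have hf1' : (0 : ℤ) ≤ (e1.2.1 : ℤ) := by positivity
  have key : (((e1.2.2.1 : ℤ) + 2 * e2.2.2.2.2) - (e2.2.2.1 + 2 * e1.2.2.2.2)) * p < (2 * (e2.1 : ℤ) - 2 * e1.1) * n := by
    rcases h with ⟨h3, h4⟩ | ⟨h3, h4⟩
    · have h3' : (e1.1 : ℤ) + 1 ≤ e2.1 := by exact_mod_cast h3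
      have h4' : ((2 * e1.1 * x.1 + (e1.2.2.1 + 2 * e2.2.2.2.2) * x.2 : ℕ) : ℤ) ≤
        ((2 * e2.1 * x.1 + (e2.2.2.1 + 2 * e1.2.2.2.2) * x.2 : ℕ) : ℤ) := by exact_mod_cast h4
      push_cast at h4'
      have b1 : (((e1.2.2.1 : ℤ) + 2 * e2.2.2.2.2) - (e2.2.2.1 + 2 * e1.2.2.2.2)) * x.2 * p ≤
          (2 * (e2.1 : ℤ) - 2 * e1.1) * x.1 * p := by
        apply mul_le_mul_of_nonneg_right _ hp'
        linarith
      have b2 : (2 * (e2.1 : ℤ) - 2 * e1.1) * (x.1 * p) < (2 * (e2.1 : ℤ) - 2 * e1.1) * (x.2 * n) := by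
        apply mul_lt_mul_of_pos_left h1'
        linarith
      have b3 : ((((e1.2.2.1 : ℤ) + 2 * e2.2.2.2.2) - (e2.2.2.1 + 2 * e1.2.2.2.2)) * p) * x.2 <
          ((2 * (e2.1 : ℤ) - 2 * e1.1) * n) * x.2 := by
        linarith
      exact lt_of_mul_lt_mul_right b3 hx2'.le
    · have h3' : (e2.1 : ℤ) + 1 ≤ e1.1 := by exact_mod_cast h3
      have h4' : ((2 * e1.1 * y.1 + (e1.2.2.1 + 2 * e2.2.2.2.2) * y.2 : ℕ) : ℤ) ≤
        ((2 * e2.1 * y.1 + (e2.2.2.1 + 2 * e1.2.2.2.2) * y.2 : ℕ) : ℤ) := by exact_mod_cast h4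
      push_cast at h4'
      have b1 : (((e1.2.2.1 : ℤ) + 2 * e2.2.2.2.2) - (e2.2.2.1 + 2 * e1.2.2.2.2)) * y.2 * p ≤
          (2 * (e2.1 : ℤ) - 2 * e1.1) * y.1 * p := by
        apply mul_le_mul_of_nonneg_right _ hp'
        linarith
      have b2 : (2 * (e1.1 : ℤ) - 2 * e2.1) * (y.2 * n) < (2 * (e1.1 : ℤ) - 2 * e2.1) * (y.1 * p) := by
        apply mul_lt_mul_of_pos_left h2'
        linarith
      have b3 : ((((e1.2.2.1 : ℤ) + 2 * e2.2.2.2.2) - (e2.2.2.1 + 2 * e1.2.2.2.2)) * p) * y.2 <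
          ((2 * (e2.1 : ℤ) - 2 * e1.1) * n) * y.2 := by
        linarith
      exact lt_of_mul_lt_mul_right b3 hy2'.le
  nlinarith

lemma chainB_pairwise {x y : ℕ × ℕ} {p n : ℕ} (h1 : x.1 * p < x.2 * n) (h2 : y.2 * n < y.1 * p)
    (hy : 0 < y.2) (L : List (ℕ × ℕ × ℕ × ℤ × ℕ)) (hL : ∀ e ∈ L, e.2.1 ≤ 1) (h : chainB x y L = true) :
    L.Pairwise (fun e1 e2 => rrB p n e1 ≤ rrB p n e2) := by
  induction L with
  | nil => exact List.Pairwise.nil
  | cons e1 L ih =>
    cases L with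
    | nil => simp
    | cons e2 L =>
      unfold chainB at h
      rw [Bool.and_eq_true] at h
      have ih' := ih (fun e he => hL e (List.mem_cons_of_mem _ he)) h.2
      have h3 := cmpOKB_le h1 h2 hy (hL e2 (by simp)) h.1
      refine List.Pairwise.cons ?_ ih'
      intro e he
      rcases List.mem_cons.1 he with rfl | he
      · exact h3
      · exact h3.trans ((List.pairwise_cons.1 ih').1 e he)

lemma runB_sound (t : ℤ) (D D' fL fU : ℕ) (c0ok : Bool) (r : ℕ × ℕ × ℕ × ℤ × ℕ → ℤ) (κ : ℤ)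
    (L : List (ℕ × ℕ × ℕ × ℤ × ℕ)) (hL : L.Pairwise (fun e1 e2 => r e1 ≤ r e2)) (acc : ℤ) (ci di : Bool)
    (h : runB t D D' fL fU c0ok L acc ci di = true) :
    okB t fL fU c0ok (acc - (L.map fun e => if r e < κ then e.2.2.2.1 else 0).sum)
      (ci || L.any (fun e => Nat.beq e.1 D && decide (r e < κ)))
      (di || L.any (fun e => Nat.beq e.1 D' && decide (r e < κ))) = true := by
  induction L generalizing acc ci di with
  | nil =>
    unfold runB at h
    simpa using h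
  | cons e L ih =>
    unfold runB at h
    rw [Bool.and_eq_true] at h
    rw [List.pairwise_cons] at hL
    by_cases he : r e < κ
    · have h3 := ih hL.2 _ _ _ h.2
      have g1 : acc - (List.map (fun e => if r e < κ then e.2.2.2.1 else 0) (e :: L)).sum
          = acc - e.2.2.2.1 - (List.map (fun e => if r e < κ then e.2.2.2.1 else 0) L).sum := by
        simp only [List.map_cons, List.sum_cons, he, if_true]
        ring
      have g2 : ∀ (b0 : Bool) (v : ℕ), (b0 || (e :: L).any (fun e => Nat.beq e.1 v && decide (r e < κ)))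
          = (b0 || Nat.beq e.1 v || L.any (fun e => Nat.beq e.1 v && decide (r e < κ))) := by
        intro b0 v
        rw [List.any_cons, decide_eq_true he, Bool.and_true, Bool.or_assoc]
      rw [g1, g2, g2]
      exact h3
    · have hall : ∀ e' ∈ e :: L, ¬ r e' < κ := by
        intro e' he'
        rcases List.mem_cons.1 he' with rfl | he'
        · exact he
        · have := hL.1 e' he'
          omega
      have s0 : ((e :: L).map fun e => if r e < κ then e.2.2.2.1 else 0).sum = 0 := by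
        apply List.sum_eq_zero
        intro a ha
        rw [List.mem_map] at ha
        obtain ⟨e', he', rfl⟩ := ha
        rw [if_neg (hall e' he')]
      have a0 : ∀ v, (e :: L).any (fun e => Nat.beq e.1 v && decide (r e < κ)) = false := by
        intro v
        rw [List.any_eq_false]
        intro e' he'
        simp [hall e' he']
      rw [s0, a0, a0, sub_zero, Bool.or_false, Bool.or_false]
      exact h.1

lemma sumfB_eq (L : List (ℕ × ℕ × ℕ × ℤ × ℕ)) :
    sumfB L = (L.map fun e => e.2.2.2.1 * (e.2.2.2.2 : ℤ)).sum := by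
  induction L with
  | nil => simp [sumfB]
  | cons z L ih => simp [sumfB, ih]

lemma sumgB_eq (h mn md : ℕ) (ds : List ℕ) :
    sumgB h mn md ds = (ds.map fun d => ((h - 2 * d) * mn) / md).sum := by
  induction ds with
  | nil => simp [sumgB]
  | cons z L ih => simp [sumgB, ih]

lemma sum_ptsB (h : ℕ) (ds : List ℕ) (G : ℕ × ℕ × ℕ × ℤ → ℤ) :
    ((ptsB h ds).map G).sum = G (h, 1, 1, 1) + G (0, 1, 1, -1) +
      (ds.map fun d => G (h - d, 0, 0, -1) + G (d, 1, 0, 1)).sum := by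
  unfold ptsB
  simp only [List.map_cons, List.sum_cons]
  have : (List.map G (List.flatMap (fun d => [(h - d, 0, 0, (-1 : ℤ)), (d, 1, 0, (1 : ℤ))]) ds)).sum
      = (ds.map fun d => G (h - d, 0, 0, -1) + G (d, 1, 0, 1)).sum := by
    induction ds with
    | nil => simp
    | cons z L ih =>
      rw [List.flatMap_cons, List.map_append, List.sum_append, ih, List.map_cons, List.sum_cons]
      simp only [List.map_cons, List.map_nil, List.sum_cons, List.sum_nil]
      ring
  rw [this]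
  ring

/-- the number of zeros in a class -/
lemma nhc_eq (p h n k : ℕ) (hp : Odd p) :
    (nhc p h n k : ℤ) = (2 * (h : ℤ) * n - 1 + p - 2 * k) / (2 * p) - (-1 + (p : ℤ) - 2 * k) / (2 * p) := by
  obtain ⟨s, hs⟩ := hp
  have hp0 : 0 < p := by omega
  have hps : (p : ℤ) = 2 * s + 1 := by exact_mod_cast hs
  have e1 : (2 * (h : ℤ) * n - 1 + p - 2 * k) / (2 * p) = ((h : ℤ) * n + s - k) / p := by
    have : 2 * (h : ℤ) * n - 1 + p - 2 * k = 2 * ((h : ℤ) * n + s - k) := by rw [hps]; ring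
    rw [this, Int.mul_ediv_mul_of_pos _ _ (by norm_num)]
  have e2 : (-1 + (p : ℤ) - 2 * k) / (2 * p) = ((s : ℤ) - k) / p := by
    have : -1 + (p : ℤ) - 2 * k = 2 * ((s : ℤ) - k) := by rw [hps]; ring
    rw [this, Int.mul_ediv_mul_of_pos _ _ (by norm_num)]
  rw [e1, e2]
  -- induction on the number of elements
  have key : ∀ N : ℕ, (((Finset.range N).filter (fun m : ℕ => (p : ℤ) ∣ 2 * ((m : ℤ) - k) + 1)).card : ℤ)
      = ((N : ℤ) + s - k) / p - ((s : ℤ) - k) / p := by
    intro N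
    induction N with
    | zero => simp
    | succ N ih =>
      rw [Finset.range_add_one, Finset.filter_insert]
      have h5 := succ_ediv' p (by exact_mod_cast hp0) ((N : ℤ) + s - k)
      have h6 : ((N + 1 : ℕ) : ℤ) + s - k = (N : ℤ) + s - k + 1 := by push_cast; ring
      rw [h6, h5]
      have hiff : (p : ℤ) ∣ 2 * ((N : ℤ) - k) + 1 ↔ (p : ℤ) ∣ (N : ℤ) + s - k + 1 := by
        have h7 : 2 * ((N : ℤ) + s - k + 1) = 2 * ((N : ℤ) - k) + 1 + p := by rw [hps]; ring
        have hcop : IsCoprime (p : ℤ) 2 := ⟨1, -s, by rw [hps]; ring⟩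
        constructor
        · intro hd
          have : (p : ℤ) ∣ 2 * ((N : ℤ) + s - k + 1) := by
            rw [h7]; exact dvd_add hd (dvd_refl _)
          exact hcop.dvd_of_dvd_mul_left this
        · intro hd
          have h8 : (p : ℤ) ∣ 2 * ((N : ℤ) + s - k + 1) := hd.mul_left 2
          rw [h7] at h8
          exact (dvd_add_left (dvd_refl _)).1 h8
      split_ifs with hc1 hc2 hc2
      · rw [Finset.card_insert_of_notMem (by simp)]
        push_cast
        rw [ih]; ring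
      · exact absurd (hiff.1 hc1) hc2
      · exact absurd (hiff.2 hc2) hc1
      · rw [ih]; ring
  unfold nhc
  rw [key (h * n)]
  push_cast
  ring

lemma cnt_brick2 (p h d n k : ℕ) (hp : 0 < p) (h2 : 2 * d < h) :
    (cnt p (d * n) (h * n - d * n) k : ℤ) = (2 * (((h - d : ℕ) : ℤ)) * n - 2 * k) / (2 * p) -
      (2 * (d : ℤ) * n - 1 - 2 * k) / (2 * p) := by
  rw [cnt_brick p h d n k hp h2]
  have e1 : (2 * (((h - d : ℕ) : ℤ)) * n - 2 * k) / (2 * p) = ((h : ℤ) * n - d * n - k) / p := by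
    have : 2 * (((h - d : ℕ) : ℤ)) * n - 2 * k = 2 * ((h : ℤ) * n - d * n - k) := by
      rw [Nat.cast_sub (by omega)]; ring
    rw [this, Int.mul_ediv_mul_of_pos _ _ (by norm_num)]
  have e2 : (2 * (d : ℤ) * n - 1 - 2 * k) / (2 * p) = ((d : ℤ) * n - 1 - k) / p := by
    rw [← Int.ediv_ediv_of_nonneg (by norm_num : (0 : ℤ) ≤ 2)]
    congr 1
    have : 2 * (d : ℤ) * n - 1 - 2 * k = -1 + 2 * ((d : ℤ) * n - k) := by ring
    rw [this, Int.add_mul_ediv_left _ _ (by norm_num)]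
    norm_num
    ring
  rw [e1, e2]

/-- the exponent in terms of the points -/
lemma eb_pts (p h n k : ℕ) (ds : List ℕ) (hp : Odd p) (h2 : ∀ d ∈ ds, 2 * d < h) :
    eb p h n ds k = ((ptsB h ds).map fun z =>
        z.2.2.2 * ((2 * (z.1 : ℤ) * n - z.2.1 + z.2.2.1 * p - 2 * k) / (2 * p))).sum
      - ((h * n / p : ℕ) : ℤ) + ((ds.map fun d => (h - 2 * d) * n / p).sum : ℕ) := by
  unfold eb
  rw [nhc_eq p h n k hp, sum_ptsB]
  have hp0 : 0 < p := hp.pos
  have h3 : (nq p h n ds k : ℤ) =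
      -(ds.map fun d => (-1 : ℤ) * ((2 * (((h - d : ℕ) : ℤ)) * n - ((0 : ℕ) : ℤ) + ((0 : ℕ) : ℤ) * p - 2 * k) / (2 * p)) +
        (1 : ℤ) * ((2 * (d : ℤ) * n - ((1 : ℕ) : ℤ) + ((0 : ℕ) : ℤ) * p - 2 * k) / (2 * p))).sum := by
    unfold nq
    induction ds with
    | nil => simp
    | cons d L ih =>
      simp only [List.map_cons, List.sum_cons]
      have ih' := ih (fun z hz => h2 z (List.mem_cons_of_mem _ hz))
      have h4 := cnt_brick2 p h d n k hp0 (h2 d List.mem_cons_self)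
      rw [Nat.cast_add, ih', h4]
      push_cast
      simp only [zero_mul, add_zero, sub_zero]
      ring
  rw [h3]
  generalize ((ds.map fun d => (h - 2 * d) * n / p).sum : ℕ) = S
  push_cast
  simp only [one_mul]
  ring

lemma entsB_sum (h : ℕ) (ds : List ℕ) (mn md : ℕ) (G : ℕ × ℕ × ℕ × ℤ × ℕ → ℤ) :
    ((entsB h ds mn md).map G).sum = ((ptsB h ds).map fun z => G (toEnt mn md z)).sum := by
  unfold entsB
  have h1 := (isort_perm ((ptsB h ds).map fun z => ((2 * z.1 * mn + z.2.2.1 * md) % (2 * md), toEnt mn md z)))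
  have h2 := (h1.map Prod.snd).map G
  rw [h2.sum_eq]
  simp only [List.map_map]
  rfl

lemma mem_entsB {h : ℕ} {ds : List ℕ} {mn md : ℕ} {e : ℕ × ℕ × ℕ × ℤ × ℕ} :
    e ∈ entsB h ds mn md ↔ ∃ z ∈ ptsB h ds, e = toEnt mn md z := by
  unfold entsB
  have h1 := (isort_perm ((ptsB h ds).map fun z => ((2 * z.1 * mn + z.2.2.1 * md) % (2 * md), toEnt mn md z)))
  rw [(h1.map Prod.snd).mem_iff]
  simp only [List.map_map, List.mem_map, Function.comp]
  constructor
  · rintro ⟨z, hz, rfl⟩; exact ⟨z, hz, rfl⟩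
  · rintro ⟨z, hz, rfl⟩; exact ⟨z, hz, rfl⟩

lemma div_of_flOK {x y : ℕ × ℕ} {p n w f : ℕ} (h1 : x.1 * p < x.2 * n) (h2 : y.2 * n < y.1 * p)
    (hy : 0 < y.2) (hfl : flOK x y (w, 0, 0, f) = true) : w * n / p = f := by
  have h3 := flOK_lt h1 h2 hy hfl
  unfold rr at h3
  simp only at h3
  have hp : 0 < p := by
    rcases Nat.eq_zero_or_pos p with h3 | h3
    · subst h3; omega
    · exact h3
  rw [Nat.div_eq_iff hp]
  obtain ⟨a1, a2, _⟩ := h3
  push_cast at a1 a2
  have a1' : ((p * f : ℕ) : ℤ) ≤ ((w * n : ℕ) : ℤ) := by push_cast; linarith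
  have a2' : ((w * n : ℕ) : ℤ) < ((p * f + p : ℕ) : ℤ) := by push_cast; linarith
  have a1'' : p * f ≤ w * n := by exact_mod_cast a1'
  have a2'' : w * n < p * f + p := by exact_mod_cast a2'
  have a3 : f * p = p * f := mul_comm _ _
  omega

lemma gOKB_sound (h mn md : ℕ) {x y : ℕ × ℕ} {p n : ℕ} (h1 : x.1 * p < x.2 * n) (h2 : y.2 * n < y.1 * p)
    (hy : 0 < y.2) (ds : List ℕ) (hg : gOKB h mn md x y ds = true) :
    (ds.map fun d => (h - 2 * d) * n / p).sum = sumgB h mn md ds := by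
  induction ds with
  | nil => rfl
  | cons d L ih =>
    unfold gOKB at hg
    rw [Bool.and_eq_true] at hg
    rw [List.map_cons, List.sum_cons, ih hg.2, sumgB, div_of_flOK h1 h2 hy hg.1]

theorem cellOKB_sound {h D : ℕ} {ds : List ℕ} {E : ℕ} {x y : ℕ × ℕ} (hD0 : 0 < D) (hDm : D ∈ ds)
    (h2D : ∀ d ∈ ds, 2 * d < h) (hy : 0 < y.2) (hok : cellOKB h D ds E x y = true)
    {p n k : ℕ} (hpo : Odd p) (h1 : x.1 * p < x.2 * n) (h2 : y.2 * n < y.1 * p) :
    (-(eb p h n ds k) ≤ E) ∨ (cnt p (D * n) (h * n - D * n) k ≤ 1 ∧ c0 p h n ds ≤ E) := by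
  have hp : 0 < p := hpo.pos
  have hp' : (0 : ℤ) < p := by exact_mod_cast hp
  have h2p' : (0 : ℤ) < 2 * p := by linarith
  have hDh := h2D D hDm
  unfold cellOKB at hok
  simp only [Bool.and_eq_true] at hok
  set mn := x.1 + y.1 with hmn
  set md := x.2 + y.2 with hmd
  set L := entsB h ds mn md with hL
  set eL := toEnt mn md (D, 1, 0, 1) with heL
  set eU := toEnt mn md (h - D, 0, 0, -1) with heU
  set fh := (h * mn) / md with hfh
  obtain ⟨⟨⟨⟨⟨⟨k1, k2⟩, k3⟩, k4⟩, k5⟩, k6⟩, k7⟩ := hok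
  rw [List.all_eq_true] at k1
  have hfl : ∀ e ∈ L, 0 ≤ rrB p n e ∧ rrB p n e < 2 * p ∧ e.2.1 ≤ 1 := fun e he => flOKB_lt h1 h2 hy (k1 e he)
  have hpw := chainB_pairwise (p := p) (n := n) h1 h2 hy L (fun e he => (hfl e he).2.2) k2
  have hLb := flOKB_lt h1 h2 hy k4
  have hUb := flOKB_lt h1 h2 hy k5
  set K : ℤ := (2 * (k : ℤ)) / (2 * p) with hK
  set κ : ℤ := (2 * (k : ℤ)) % (2 * p) with hκ
  have hκ0 : 0 ≤ κ := Int.emod_nonneg _ h2p'.ne'
  have hκp : κ < 2 * p := Int.emod_lt_of_pos _ h2p'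
  have hkK : 2 * (k : ℤ) = (2 * p) * K + κ := (Int.mul_ediv_add_emod _ _).symm
  have hrun := runB_sound (-(E : ℤ)) D (h - D) eL.2.2.2.2 eU.2.2.2.2 (decide ((fh : ℤ) - sumgB h mn md ds ≤ E))
    (rrB p n) κ L hpw _ _ _ k7
  -- floors
  have hval : ∀ e : ℕ × ℕ × ℕ × ℤ × ℕ, 0 ≤ rrB p n e → rrB p n e < 2 * p →
      (2 * (e.1 : ℤ) * n - e.2.1 + e.2.2.1 * p - 2 * k) / (2 * p) = e.2.2.2.2 - K - if rrB p n e < κ then 1 else 0 := by
    intro e a1 a2
    have a3 : 2 * (e.1 : ℤ) * n - e.2.1 + e.2.2.1 * p - 2 * k = (2 * p) * e.2.2.2.2 + rrB p n e - ((2 * p) * K + κ) := by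
      rw [← hkK]; unfold rrB; ring
    rw [a3, floor_shift (2 * p) h2p' _ _ _ _ a1 a2 hκ0 hκp]
  have hdivh : h * n / p = fh := div_of_flOK h1 h2 hy k6
  have hdivg := gOKB_sound h mn md h1 h2 hy ds k3
  -- the exponent
  have hee : eb p h n ds k = (sumfB L - fh + sumgB h mn md ds) -
      (L.map fun e => if rrB p n e < κ then e.2.2.2.1 else 0).sum := by
    rw [eb_pts p h n k ds hpo h2D]
    have g1 : ((ptsB h ds).map fun z => z.2.2.2 * ((2 * (z.1 : ℤ) * n - z.2.1 + z.2.2.1 * p - 2 * k) / (2 * p))).sum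
        = (L.map fun e => e.2.2.2.1 * ((2 * (e.1 : ℤ) * n - e.2.1 + e.2.2.1 * p - 2 * k) / (2 * p))).sum := by
      rw [hL, entsB_sum]
      rfl
    have g2 : (L.map fun e => e.2.2.2.1 * ((2 * (e.1 : ℤ) * n - e.2.1 + e.2.2.1 * p - 2 * k) / (2 * p))).sum
        = sumfB L - K * (L.map fun e => e.2.2.2.1).sum - (L.map fun e => if rrB p n e < κ then e.2.2.2.1 else 0).sum := by
      rw [sumfB_eq]
      have key : ∀ M : List (ℕ × ℕ × ℕ × ℤ × ℕ), (∀ e ∈ M, 0 ≤ rrB p n e ∧ rrB p n e < 2 * p ∧ e.2.1 ≤ 1) →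
          (M.map fun e => e.2.2.2.1 * ((2 * (e.1 : ℤ) * n - e.2.1 + e.2.2.1 * p - 2 * k) / (2 * p))).sum
          = (M.map fun e => e.2.2.2.1 * (e.2.2.2.2 : ℤ)).sum - K * (M.map fun e => e.2.2.2.1).sum -
            (M.map fun e => if rrB p n e < κ then e.2.2.2.1 else 0).sum := by
        intro M hM
        induction M with
        | nil => simp
        | cons e M ih =>
          simp only [List.map_cons, List.sum_cons]
          rw [ih (fun e he => hM e (List.mem_cons_of_mem _ he))]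
          obtain ⟨a1, a2, _⟩ := hM e List.mem_cons_self
          rw [hval e a1 a2]
          split_ifs <;> ring
      exact key L hfl
    have g3 : (L.map fun e => e.2.2.2.1).sum = 0 := by
      rw [hL, entsB_sum, sum_ptsB]
      have : (ds.map fun _ : ℕ => ((-1 : ℤ)) + (1 : ℤ)).sum = 0 := by
        apply List.sum_eq_zero
        intro a ha
        rw [List.mem_map] at ha
        obtain ⟨z, _, rfl⟩ := ha
        ring
      simp only [toEnt]
      rw [this]
      ring
    rw [g1, g2, g3, hdivh, hdivg]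
    ring
  rw [← hee] at hrun
  unfold okB at hrun
  rw [Bool.or_eq_true, decide_eq_true_eq] at hrun
  rcases hrun with h3 | h3
  · right
    rw [Bool.and_eq_true, decide_eq_true_eq] at h3
    obtain ⟨h3, h4⟩ := h3
    refine ⟨?_, ?_⟩
    · -- the count
      have hcnt := cnt_brick2 p h D n k hp hDh
      have vL := hval eL hLb.1 hLb.2.1
      have vU := hval eU hUb.1 hUb.2.1
      have wL : 2 * (eL.1 : ℤ) * n - eL.2.1 + eL.2.2.1 * p - 2 * k = 2 * (D : ℤ) * n - 1 - 2 * k := by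
        rw [heL]; simp [toEnt]
      have wU : 2 * (eU.1 : ℤ) * n - eU.2.1 + eU.2.2.1 * p - 2 * k = 2 * (((h - D : ℕ) : ℤ)) * n - 2 * k := by
        rw [heU]; simp [toEnt]
      rw [wL] at vL
      rw [wU] at vU
      rw [vL, vU] at hcnt
      rw [Bool.false_or, Bool.false_or] at h4
      -- the flags
      have f1 : rrB p n eL < κ → L.any (fun e => Nat.beq e.1 D && decide (rrB p n e < κ)) = true := by
        intro h5
        rw [List.any_eq_true]
        refine ⟨eL, ?_, ?_⟩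
        · rw [hL, mem_entsB]
          refine ⟨(D, 1, 0, 1), ?_, rfl⟩
          unfold ptsB
          simp only [List.mem_cons, List.mem_flatMap, List.not_mem_nil, or_false]
          right; right
          exact ⟨D, hDm, Or.inr rfl⟩
        · rw [Bool.and_eq_true, Nat.beq_eq, decide_eq_true_eq]
          exact ⟨rfl, h5⟩
      have f2 : ¬ rrB p n eU < κ → L.any (fun e => Nat.beq e.1 (h - D) && decide (rrB p n e < κ)) = false := by
        intro h5
        rw [List.any_eq_false]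
        intro e he
        rw [Bool.and_eq_true, Nat.beq_eq, decide_eq_true_eq]
        rintro ⟨h6, h7⟩
        rw [hL, mem_entsB] at he
        obtain ⟨z, hz, rfl⟩ := he
        simp only [toEnt] at h6
        have hz2 : z.2.1 = 0 ∧ z.2.2.1 = 0 := by
          unfold ptsB at hz
          simp only [List.mem_cons, List.mem_flatMap, List.not_mem_nil, or_false] at hz
          rcases hz with rfl | rfl | ⟨w, hw, hz | hz⟩
          · simp only at h6; omega
          · simp only at h6; omega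
          · rw [hz]; exact ⟨rfl, rfl⟩
          · rw [hz] at h6
            simp only at h6
            have := h2D w hw
            omega
        apply h5
        have : rrB p n (toEnt mn md z) = rrB p n eU := by
          rw [heU]
          unfold rrB toEnt
          simp only
          rw [h6, hz2.1, hz2.2]
        rw [← this]
        exact h7
      have hfin : (cnt p (D * n) (h * n - D * n) k : ℤ) ≤ 1 := by
        rw [hcnt]
        by_cases c1 : rrB p n eL < κ
        · rw [f1 c1] at h4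
          by_cases c2 : rrB p n eU < κ
          · rw [if_pos c1, if_pos c2]
            have h5 : eU.2.2.2.2 + 1 ≤ eL.2.2.2.2 + 1 + 1 := by
              cases hb : L.any (fun e => Nat.beq e.1 (h - D) && decide (rrB p n e < κ)) with
              | true => rw [hb] at h4; simpa using h4
              | false =>
                rw [hb] at h4
                have : eU.2.2.2.2 + 1 ≤ eL.2.2.2.2 + 1 := by simpa using h4
                omega
            have h5' : (eU.2.2.2.2 : ℤ) + 1 ≤ eL.2.2.2.2 + 1 + 1 := by exact_mod_cast h5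
            linarith
          · rw [if_pos c1, if_neg c2]
            rw [f2 c2] at h4
            have h5 : eU.2.2.2.2 + 1 ≤ eL.2.2.2.2 + 1 := by simpa using h4
            have h5' : (eU.2.2.2.2 : ℤ) + 1 ≤ eL.2.2.2.2 + 1 := by exact_mod_cast h5
            linarith
        · by_cases c2 : rrB p n eU < κ
          · rw [if_neg c1, if_pos c2]
            have h5 : eU.2.2.2.2 ≤ eL.2.2.2.2 + 2 := by
              rw [Nat.ble_eq] at h4
              revert h4
              cases L.any (fun e => Nat.beq e.1 D && decide (rrB p n e < κ)) <;>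
                cases L.any (fun e => Nat.beq e.1 (h - D) && decide (rrB p n e < κ)) <;>
                simp only [cond_true, cond_false] <;> omega
            have h5' : (eU.2.2.2.2 : ℤ) ≤ eL.2.2.2.2 + 2 := by exact_mod_cast h5
            linarith
          · rw [if_neg c1, if_neg c2]
            rw [f2 c2] at h4
            have h5 : eU.2.2.2.2 ≤ eL.2.2.2.2 + 1 := by
              rw [Nat.ble_eq] at h4
              revert h4
              cases L.any (fun e => Nat.beq e.1 D && decide (rrB p n e < κ)) <;>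
                simp only [cond_true, cond_false] <;> omega
            have h5' : (eU.2.2.2.2 : ℤ) ≤ eL.2.2.2.2 + 1 := by exact_mod_cast h5
            linarith
      exact_mod_cast hfin
    · unfold c0
      rw [hdivh, hdivg]
      exact h3
  · left
    linarith

end Pool.Agent.H336R2.BV
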