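import Pool.Agent.H336R2.BV.Cert

/-!
# Certificate for `h = 65`, `ds = [18, ..., 28]`
-/

namespace Pool.Agent.H336R2.BV

open Pool.Agent.H337R2

/-- the bricks -/
def bds : List ℕ := [18, 19, 20, 21, 22, 23, 24, 25, 26, 27, 28]

/-- cells -/
def bC : List (ℕ × ℕ × ℕ) := [(1, 65, 1), (1, 56, 1), (1, 54, 1), (1, 52, 1), (1, 50, 1), (1, 48, 1), (1, 47, 1), (1, 46, 1), (1, 45, 1), (1, 44, 1), (3, 130, 1), (1, 43, 1), (1, 42, 1), (1, 41, 1), (1, 40, 1), (1, 39, 1), (1, 38, 1), (1, 37, 1), (1, 36, 1), (2, 65, 2), (3, 94, 2), (3, 92, 2), (1, 30, 2), (3, 88, 2), (1, 29, 1), (3, 86, 1), (1, 28, 1), (3, 82, 1), (1, 27, 1), (3, 80, 1), (1, 26, 2), (3, 76, 2), (1, 25, 2), (3, 74, 2), (1, 24, 3), (2, 47, 3), (1, 23, 3), (2, 45, 3), (1, 22, 4), (3, 65, 5), (2, 43, 5), (1, 21, 5), (2, 41, 5), (1, 20, 6), (2, 39, 6), (1, 19, 6), (5, 94, 6), (3, 56, 6), (7, 130,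 6), (2, 37, 6), (5, 92, 6), (1, 18, 7), (5, 88, 7), (3, 52, 7), (5, 86, 7), (1, 17, 7), (5, 84, 7), (3, 50, 7), (5, 82, 7), (4, 65, 7), (1, 16, 8), (3, 47, 8), (5, 78, 8), (3, 46, 8), (5, 76, 8), (1, 15, 8), (5, 74, 8), (3, 44, 7), (2, 29, 6), (9, 130, 6), (3, 43, 6), (1, 14, 7), (3, 41, 7), (2, 27, 6), (7, 94, 6), (3, 40, 6), (7, 92, 6), (1, 13, 7), (7, 90, 7), (3, 38, 7), (7, 88, 7), (2, 25, 6), (3, 37, 6), (7, 86, 6), (1, 12, 7), (11, 130, 7), (4, 47, 7), (7, 82, 7), (2, 23, 6), (7, 80, 6), (4, 45, 6), (5, 56, 6), (7, 78, 6), (1, 11, 6), (7, 76, 6), (6, 65, 6), (5, 54, 6), (4, 43, 6), (7, 74, 6), (2, 21, 6), (9, 94, 6), (5, 52, 6), (4, 41, 6), (9, 92, 6), (1, 10, 7), (9, 88, 7), (4, 39, 7), (3, 29, 6), (5, 48, 6), (9, 86, 6), (2, 19, 6), (5, 47, 6), (3, 28, 6), (7, 65, 7), (4, 37, 7), (5, 46, 7), (9, 82, 7), (1, 9, 7), (9, 80, 7), (5, 44, 7),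 (3, 26, 7), (5, 43, 7), (11, 94, 7), (2, 17, 7), (9, 76, 7), (5, 42, 7), (11, 92, 7), (3, 25, 7), (9, 74, 7), (5, 41, 7), (11, 90, 7), (8, 65, 7), (1, 8, 7), (6, 47, 7), (11, 86, 7), (5, 39, 7), (7, 54, 7), (3, 23, 7), (17, 130, 7), (11, 84, 7), (5, 38, 7), (2, 15, 6), (11, 82, 6), (7, 52, 6), (5, 37, 6), (3, 22, 7), (11, 80, 7), (4, 29, 6), (13, 94, 6), (9, 65, 7), (5, 36, 7), (6, 43, 7), (7, 50, 7), (11, 78, 7), (13, 92, 7), (1, 7, 7), (13, 90, 7), (11, 76, 7), (7, 48, 7), (19, 130, 7), (6, 41, 7), (13, 88, 7), (4, 27, 6), (11, 74, 6), (7, 47, 6), (3, 20, 7), (13, 86, 7), (7, 46, 6), (2, 13, 6), (13, 84, 6), (7, 45, 6), (3, 19, 6), (13, 82, 6), (7, 44, 6), (15, 94, 6), (4, 25, 6), (9, 56, 6), (21, 130, 6), (6, 37, 6), (13, 80, 6), (7, 43, 6), (15, 92, 6), (1, 6, 7), (11, 65, 8), (8, 47, 8), (15, 88, 8), (7, 41, 8), (13, 76, 8), (5, 29, 7), (9,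 52, 7), (4, 23, 6), (15, 86, 6), (7, 40, 6), (13, 74, 6), (3, 17, 6), (23, 130, 6), (8, 45, 6), (5, 28, 6), (7, 39, 6), (9, 50, 6), (17, 94, 6), (2, 11, 6), (15, 82, 6), (7, 38, 5), (12, 65, 6), (17, 92, 6), (5, 27, 6), (8, 43, 6), (3, 16, 6), (17, 90, 6), (7, 37, 6), (4, 21, 6), (9, 47, 6), (5, 26, 7), (17, 88, 7), (7, 36, 6), (8, 41, 6), (9, 46, 6), (11, 56, 6), (15, 76, 6), (17, 86, 6), (1, 5, 7), (19, 94, 7), (17, 84, 7), (15, 74, 7), (11, 54, 7), (9, 44, 7), (8, 39, 7), (19, 92, 7), (6, 29, 6), (17, 82, 6), (27, 130, 6), (5, 24, 6), (9, 43, 6), (4, 19, 6), (19, 90, 6), (11, 52, 6), (17, 80, 6), (10, 47, 6), (3, 14, 6), (14, 65, 7), (19, 88, 7), (8, 37, 7), (5, 23, 7), (17, 78, 7), (9, 41, 7), (11, 50, 7), (19, 86, 7), (2, 9, 7), (29, 130, 7), (21, 94, 7), (17, 76, 7), (9, 40, 7), (19, 84, 7), (5, 22, 7), (21, 92, 7), (11, 48, 7), (17, 74, 7),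 (3, 13, 7), (19, 82, 7), (13, 56, 7), (10, 43, 7), (7, 30, 7), (11, 47, 7), (4, 17, 6), (9, 38, 6), (19, 80, 6), (5, 21, 6), (31, 130, 6), (21, 88, 6), (11, 46, 6), (6, 25, 6), (13, 54, 6), (7, 29, 5), (9, 37, 5), (19, 78, 5), (10, 41, 5), (21, 86, 5), (11, 45, 5), (23, 94, 5), (16, 65, 6), (1, 4, 8), (33, 130, 8), (12, 47, 8), (23, 90, 8), (11, 43, 8), (21, 82, 8), (10, 39, 8), (19, 74, 8), (7, 27, 7), (13, 50, 6), (6, 23, 6), (23, 88, 6), (17, 65, 6), (11, 42, 6), (21, 80, 6), (5, 19, 6), (25, 94, 6), (4, 15, 6), (23, 86, 6), (15, 56, 6), (11, 41, 6), (7, 26, 6), (10, 37, 6), (13, 48, 6), (25, 92, 6), (3, 11, 6), (23, 84, 6), (11, 40, 6), (8, 29, 0)]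


theorem bC_ok : cellsOKB 65 18 bds bC = true := by decide +kernel

theorem bcert : CertB 65 18 bds bC 214 1000000000 where
  hh := by decide
  h1 := by norm_num
  hD0 := by norm_num
  hDm := by decide
  hds := by decide
  hlen := by decide
  hdeg := by decide
  hX := by decide +kernel
  hC := bC_ok
  hne := by decide
  hhead := by decide +kernel
  hpos := by decide +kernel
  hlast := by decide +kernel
  hneg := by decide +kernel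
  hSc := by norm_num

end Pool.Agent.H336R2.BV
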