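import Pool.Agent.H336R2.BV.Med

/-!
# Integrality of the linear form in beta values after multiplication by the common denominator
-/

open Polynomial

namespace Pool.Agent.H336R2.BV

open Pool.Agent.H337R2

noncomputable section

set_option linter.unusedSectionVars false

lemma nhc_le_add (p h n k : ℕ) : (0 : ℤ) ≤ (nhc p h n k : ℤ) := by positivity

/-- lower bound for the number of zeros in a class -/
lemma nhc_ge (p h n k : ℕ) (hp : Odd p) : ((h * n / p : ℕ) : ℤ) ≤ (nhc p h n k : ℤ) := by
  -- in every block of `p` consecutive integers there is a solution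
  obtain ⟨s, hs⟩ := hp
  have hp0 : 0 < p := by omega
  have hcard : ∀ N : ℕ, N * p ≤ h * n → N ≤ nhc p h n k := by
    intro N hN
    unfold nhc
    have : (Finset.range N).card ≤ ((Finset.range (h * n)).filter (fun m : ℕ => (p : ℤ) ∣ 2 * ((m : ℤ) - k) + 1)).card := by
      apply Finset.card_le_card_of_injOn (fun j => (k + s) % p + j * p)
      · intro j hj
        rw [Finset.coe_range, Set.mem_Iio] at hj
        rw [Finset.mem_coe, Finset.mem_filter, Finset.mem_range]
        beta_reduce
        refine ⟨?_, ?_⟩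
        · have h1 := Nat.mod_lt (k + s) hp0
          have h2 : (j + 1) * p ≤ N * p := Nat.mul_le_mul_right p (by omega)
          have h3 : (j + 1) * p = j * p + p := by ring
          omega
        · have h1 := Nat.div_add_mod (k + s) p
          have h2 : (((k + s) % p : ℕ) : ℤ) = k + s - p * (((k + s) / p : ℕ) : ℤ) := by
            have : ((p * ((k + s) / p) + (k + s) % p : ℕ) : ℤ) = ((k + s : ℕ) : ℤ) := by rw [h1]
            push_cast at this ⊢
            linarith
          push_cast at h2 ⊢
          rw [h2]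
          refine ⟨1 - 2 * (((k : ℤ) + s) / p) + 2 * j, ?_⟩
          have h3 : (p : ℤ) = 2 * s + 1 := by exact_mod_cast hs
          linear_combination (-1 : ℤ) * h3
      · intro a _ b _ hab
        simp only at hab
        have h1 : a * p = b * p := by omega
        exact Nat.eq_of_mul_eq_mul_right hp0 h1
    simpa using this
  exact_mod_cast hcard (h * n / p) (Nat.div_mul_le_self _ _)

/-- the trivial bound of the exponent -/
lemma eb_ge (p h n k : ℕ) (ds : List ℕ) (hp : Odd p)
    (h2 : ∀ d ∈ ds, 2 * d < h) : -(ds.length : ℤ) ≤ eb p h n ds k := by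
  have hp0 : 0 < p := hp.pos
  have hp' : (0 : ℤ) < p := by exact_mod_cast hp0
  unfold eb
  have e1 := nhc_ge p h n k hp
  have e2 : (nq p h n ds k : ℤ) ≤ ((ds.map fun d => (h - 2 * d) * n / p).sum : ℕ) + ds.length := by
    clear e1
    unfold nq
    induction ds with
    | nil => simp
    | cons d l ih =>
      simp only [List.map_cons, List.sum_cons, List.length_cons]
      have i1 := ih (fun d' hd' => h2 d' (List.mem_cons_of_mem _ hd'))
      have hd := h2 d List.mem_cons_self
      have i2 := cnt_brick p h d n k hp0 hd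
      have i3 := ediv_sub1 ((d : ℤ) * n - 1 - k) (((h - 2 * d : ℕ) : ℤ) * n) p hp'
      have i4 : ((d : ℤ) * n - 1 - k) + (((h - 2 * d : ℕ) : ℤ) * n) + 1 = (h : ℤ) * n - d * n - k := by
        rw [Nat.cast_sub hd.le]
        push_cast
        ring
      rw [i4] at i3
      push_cast at i1 i2 i3 ⊢
      linarith
  linarith

/-- the trivial exponent -/
lemma hyp_trivial (p h n D : ℕ) (ds : List ℕ) (hp : Odd p)
    (h2 : ∀ d ∈ ds, 2 * d < h) : HypB p h n D ds ds.length := by
  intro k hk _
  left
  have := eb_ge p h n k ds hp h2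
  linarith

/-- large primes -/
lemma hyp_large (p h n D : ℕ) (ds : List ℕ) (hp : h * n < p) : HypB p h n D ds 0 := by
  intro k _ _
  right
  refine ⟨?_, ?_⟩
  · unfold cnt
    rw [Finset.card_le_one]
    intro a ha b hb
    rw [Finset.mem_filter, Finset.mem_Icc] at ha hb
    by_contra hab
    have h1 : (p : ℤ) ∣ (a : ℤ) - b := by
      have := dvd_sub ha.2 hb.2
      have h2 : (a : ℤ) - k - (b - k) = a - b := by ring
      rwa [h2] at this
    have h3 := Int.le_of_dvd (a := p) (b := |(a : ℤ) - b|) (by
      rw [abs_pos]; omega) ((dvd_abs _ _).2 h1)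
    have h4 : |(a : ℤ) - b| ≤ (h * n : ℕ) := by
      rw [abs_le]; constructor <;> omega
    omega
  · unfold c0
    rw [Nat.div_eq_of_lt hp]
    have : (0 : ℤ) ≤ ((ds.map fun d => (h - 2 * d) * n / p).sum : ℕ) := by positivity
    push_cast at this ⊢
    linarith

lemma exists_E (h D : ℕ) (ds : List ℕ) (n p : ℕ) (hp : p.Prime) (hp1 : p ≠ 2) (hn : 1 ≤ n) (hp2 : 2 * h * n < p ^ 2) :
    ∀ (x : ℕ × ℕ × ℕ) (L : List (ℕ × ℕ × ℕ)), ValidB h D ds (x :: L) → x.1 * p < x.2.1 * n →
      (∀ y ∈ L, y.2.1 < p ∧ 0 < y.2.1) → (∃ E, HypB p h n D ds E ∧ p ^ E ∣ DD (x :: L) n) ∨ (p ∣ n) ∨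
        (((x :: L).getLast (by simp)).1 * p ≤ ((x :: L).getLast (by simp)).2.1 * n) := by
  intro x L
  induction L generalizing x with
  | nil =>
    intro _ hx _
    right; right
    simpa using hx.le
  | cons y L ih =>
    intro hV hx hL
    rcases lt_trichotomy (y.2.1 * n) (y.1 * p) with h1 | h1 | h1
    · left
      refine ⟨x.2.2, hV.2.1 p n hp hp1 hn hp2 hx h1, ?_⟩
      rw [DD]
      apply Dvd.dvd.mul_right
      apply Finset.dvd_prod_of_mem (fun p => p ^ x.2.2)
      unfold Pc
      rw [Finset.mem_filter, Finset.mem_range]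
      refine ⟨?_, hp, hx, h1⟩
      have := hV.1
      nlinarith
    · right; left
      have h2 : p ∣ y.2.1 * n := by rw [h1]; exact Dvd.intro_left _ rfl
      rcases (hp.dvd_mul).1 h2 with h3 | h3
      · exfalso
        have h4 := hL y List.mem_cons_self
        have := Nat.le_of_dvd h4.2 h3
        omega
      · exact h3
    · rcases ih y hV.2.2 h1 (fun z hz => hL z (List.mem_cons_of_mem _ hz)) with h2 | h2 | h2
      · left
        obtain ⟨E, hE, hdvd⟩ := h2
        refine ⟨E, hE, ?_⟩
        rw [DD]
        exact hdvd.mul_left _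
      · right; left; exact h2
      · right; right
        rw [List.getLast_cons (by simp)]
        exact h2

/-- integrality of the linear form after multiplication by the common denominator -/
theorem integral (h n D : ℕ) (ds : List ℕ) (hn : 1 ≤ n) (hodd : Odd (h * n)) (hD : ∀ d ∈ ds, D ≤ d)
    (hc : ∀ d ∈ ds, 0 < d) (h2 : ∀ d ∈ ds, 2 * d < h) (h0 : 1 < h)
    (x : ℕ × ℕ × ℕ) (L : List (ℕ × ℕ × ℕ)) (hV : ValidB h D ds (x :: L))
    (hx1 : x.1 = 1) (hx2 : x.2.1 = h) (hLn : ∀ y ∈ x :: L, y.2.1 ^ 2 ≤ h * n ∧ 0 < y.2.1)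
    (hlast : 0 < ((x :: L).getLast (by simp)).1)
    (u : ℕ → ℚ) (q : ℕ) (hq : 0 < q)
    (hu : ∀ i, ∃ z : ℤ, (q : ℚ) * u i = z) :
    ∃ m : ℤ, ((Dn 1 (2 * h) n ds.length x L : ℕ) : ℚ) * (q * xfb h n ds u) = m := by
  apply isInt_of_norm
  intro p hp
  haveI : Fact p.Prime := ⟨hp⟩
  rw [padicNorm.mul]
  have hhn : 1 ≤ h * n := by nlinarith
  have hpp : 0 < (p : ℚ) := p_pos'
  have hh2 : 2 * h * n = 2 * (h * n) := by ring
  by_cases hp2 : 2 * h * n < p ^ 2
  · have hp3 : p ≠ 2 := by
      rintro rfl
      have h4 := (hLn x List.mem_cons_self).1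
      rw [hx2] at h4
      have h5 : 2 ^ 2 ≤ h ^ 2 := Nat.pow_le_pow_left h0 2
      omega
    have hpo : Odd p := hp.odd_of_ne_two hp3
    have key : ∃ E, HypB p h n D ds E ∧ p ^ E ∣ Dn 1 (2 * h) n ds.length x L := by
      by_cases hpk : h * n < p
      · exact ⟨0, hyp_large p h n D ds hpk, by simp⟩
      · have htriv := hyp_trivial p h n D ds hpo h2
        have hlt : ∀ y ∈ x :: L, y.2.1 < p ∧ 0 < y.2.1 := by
          intro y hy
          have h3 := hLn y hy
          refine ⟨?_, h3.2⟩
          have h4 : y.2.1 ^ 2 < p ^ 2 := by omega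
          exact lt_of_pow_lt_pow_left₀ 2 (by omega) h4
        by_cases hpn : p ∣ n
        · refine ⟨_, htriv, ?_⟩
          unfold Dn
          have h3 : 1 - 1 + ds.length = ds.length := by omega
          rw [h3]
          exact (((pow_dvd_pow_of_dvd hpn _).mul_left _).mul_right _).mul_right _
        rcases exists_E h D ds n p hp hp3 hn hp2 x L hV (by
            rw [hx1, hx2, one_mul]
            rcases Nat.lt_or_ge p (h * n) with h3 | h3
            · exact h3
            · exfalso
              have h4 : p = h * n := by omega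
              have h5 : p ∣ h * n := by rw [← h4]
              rcases (hp.dvd_mul).1 h5 with h6 | h6
              · have h7 := (hlt x List.mem_cons_self).1
                rw [hx2] at h7
                have := Nat.le_of_dvd (by omega) h6
                omega
              · exact hpn h6) (by
          intro y hy
          exact hlt y (List.mem_cons_of_mem _ hy)) with h3 | h3 | h3
        · obtain ⟨E, hE, hd⟩ := h3
          refine ⟨E, hE, ?_⟩
          unfold Dn
          exact (hd.mul_left _).mul_right _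
        · exact absurd h3 hpn
        · refine ⟨_, htriv, ?_⟩
          unfold Dn
          apply Dvd.dvd.mul_left
          have h4 : 1 - 1 + ds.length = ds.length := by omega
          rw [h4]
          unfold TT
          apply Finset.dvd_prod_of_mem (fun p => p ^ (ds.length))
          rw [Finset.mem_filter, Finset.mem_range]
          refine ⟨?_, hp, h3⟩
          nlinarith
    obtain ⟨E, hE, hd⟩ := key
    have h3 := xfb_med (p := p) h n D ds hn hodd hD hc h2 (by omega) hp3 hp2 u q hq hu E hE
    have h4 := norm_le_of_dvd (p := p) hd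
    calc _ ≤ ((p : ℚ) ^ E)⁻¹ * (p : ℚ) ^ E := mul_le_mul h4 h3 (padicNorm.nonneg _) (by positivity)
      _ = 1 := inv_mul_cancel₀ (by positivity)
  · have h3 := xfb_crude (p := p) h n ds hn hc h2 (by omega) u q hq hu
    have hd : (p ^ (Nat.log p (2 * h * n + 1) + 1)) ^ (4 * ds.length + 1) ∣ Dn 1 (2 * h) n ds.length x L := by
      unfold Dn
      apply Dvd.dvd.mul_right
      apply Dvd.dvd.mul_right
      apply Dvd.dvd.mul_right
      unfold AA
      apply Finset.dvd_prod_of_mem (fun p => (p ^ (Nat.log p (2 * h * n + 1) + 1)) ^ (4 * ds.length + 1))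
      rw [Finset.mem_filter, Finset.mem_range]
      refine ⟨?_, hp⟩
      have : p ≤ Nat.sqrt (2 * h * n) := Nat.le_sqrt.2 (by nlinarith)
      omega
    rw [← pow_mul] at hd
    have h4 := norm_le_of_dvd (p := p) hd
    have h5 : 2 * h * n + 1 < p ^ (Nat.log p (2 * h * n + 1) + 1) := Nat.lt_pow_succ_log_self hp.one_lt _
    have h6 : ((2 * h * n + 1 : ℕ) : ℚ) ^ (4 * ds.length + 1) ≤ ((p : ℚ) ^ ((Nat.log p (2 * h * n + 1) + 1) * (4 * ds.length + 1))) := by
      rw [pow_mul]
      apply pow_le_pow_left₀ (by positivity)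
      exact_mod_cast h5.le
    calc _ ≤ ((p : ℚ) ^ ((Nat.log p (2 * h * n + 1) + 1) * (4 * ds.length + 1)))⁻¹ *
          ((p : ℚ) ^ ((Nat.log p (2 * h * n + 1) + 1) * (4 * ds.length + 1))) := by
          exact mul_le_mul h4 (h3.trans h6) (padicNorm.nonneg _) (by positivity)
      _ = 1 := inv_mul_cancel₀ (by positivity)

end

end Pool.Agent.H336R2.BV
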