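import Pool.Agent.H336R2.BV.Defs
import Pool.Agent.H337R2.Crude2

/-!
# Task I: crude p-adic bound for all primes (helper143)
-/

open Polynomial

namespace Pool.Agent.H336R2.BV

open Pool.Agent.H337R2

noncomputable section

namespace CrudeB

lemma odd_prod (a : ℕ) : (2 : ℚ) ^ a * (Nat.factorial a : ℚ) * ∏ m ∈ Finset.range a, (2 * (m : ℚ) + 1) =
    (Nat.factorial (2 * a) : ℚ) := by
  induction a with
  | zero => simp
  | succ a ih =>
    rw [Finset.prod_range_succ, show 2 * (a + 1) = (2 * a + 1) + 1 by ring,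
      Nat.factorial_succ (2 * a + 1), Nat.factorial_succ (2 * a), Nat.factorial_succ a]
    push_cast
    rw [← ih]
    ring

lemma shifted_prod (a b : ℕ) : ∏ m ∈ Finset.range (b + a), (2 * ((m : ℚ) - b) + 1) =
    (-1) ^ b * (∏ m ∈ Finset.range b, (2 * (m : ℚ) + 1)) * ∏ m ∈ Finset.range a, (2 * (m : ℚ) + 1) := by
  rw [Finset.prod_range_add]
  congr 1
  · rw [← Finset.prod_range_reflect (fun m : ℕ => 2 * (m : ℚ) + 1) b]
    have h1 : ((-1 : ℚ)) ^ b = ∏ m ∈ Finset.range b, (-1 : ℚ) := by simp
    rw [h1, ← Finset.prod_mul_distrib]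
    apply Finset.prod_congr rfl
    intro m hm
    rw [Finset.mem_range] at hm
    rw [Nat.cast_sub (by omega), Nat.cast_sub (by omega)]
    push_cast
    ring
  · apply Finset.prod_congr rfl
    intro m _
    push_cast
    ring

/-- super Catalan numbers are integers -/
lemma super (b : ℕ) : ∀ a : ℕ, ∃ z : ℤ, (Nat.factorial (2 * a) : ℚ) * (Nat.factorial (2 * b) : ℚ) =
    z * ((Nat.factorial a : ℚ) * (Nat.factorial b : ℚ) * (Nat.factorial (a + b) : ℚ)) := by
  induction b with
  | zero =>
    intro a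
    refine ⟨(Nat.choose (2 * a) a : ℕ), ?_⟩
    have h1 := Nat.choose_mul_factorial_mul_factorial (show a ≤ 2 * a by omega)
    rw [show 2 * a - a = a by omega] at h1
    rw [← h1]
    push_cast
    simp
    ring
  | succ b ih =>
    intro a
    obtain ⟨z1, h1⟩ := ih a
    obtain ⟨z2, h2⟩ := ih (a + 1)
    refine ⟨4 * z1 - z2, ?_⟩
    rw [show a + (b + 1) = (a + b) + 1 by ring, show 2 * (b + 1) = (2 * b + 1) + 1 by ring,
      Nat.factorial_succ (2 * b + 1), Nat.factorial_succ (2 * b), Nat.factorial_succ b,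
      Nat.factorial_succ (a + b)]
    rw [show a + 1 + b = (a + b) + 1 by ring, show 2 * (a + 1) = (2 * a + 1) + 1 by ring,
      Nat.factorial_succ (2 * a + 1), Nat.factorial_succ (2 * a), Nat.factorial_succ a,
      Nat.factorial_succ (a + b)] at h2
    push_cast at h1 h2 ⊢
    have ha : (a : ℚ) + 1 ≠ 0 := by positivity
    have h3 : (2 * (2 * (a : ℚ) + 1)) * ((Nat.factorial (2 * a) : ℚ) * (Nat.factorial (2 * b) : ℚ)) =
        (z2 : ℚ) * (Nat.factorial a * Nat.factorial b * (((a : ℚ) + b + 1) * Nat.factorial (a + b))) := by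
      apply mul_left_cancel₀ ha
      linear_combination h2
    linear_combination (4 * ((a : ℚ) + b + 1) * (b + 1)) * h1 - ((b : ℚ) + 1) * h3

variable {p : ℕ} [hp : Fact p.Prime]

lemma claim (H k : ℕ) (hk : k ≤ H) :
    padicNorm p ((2 : ℚ) ^ H) * ∏ m ∈ Finset.range H, padicNorm p (2 * ((m : ℚ) - k) + 1) ≤
      padicNorm p (Nat.factorial H : ℚ) := by
  obtain ⟨a, rfl⟩ := Nat.exists_eq_add_of_le hk
  rw [← padicNorm_prod', ← padicNorm.mul, shifted_prod]
  obtain ⟨z, hz⟩ := super k a
  have h1 := odd_prod a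
  have h2 := odd_prod k
  have hfa : (Nat.factorial a : ℚ) ≠ 0 := by exact_mod_cast Nat.factorial_ne_zero a
  have hfk : (Nat.factorial k : ℚ) ≠ 0 := by exact_mod_cast Nat.factorial_ne_zero k
  have h3 : (2 : ℚ) ^ (k + a) * ((-1) ^ k * (∏ m ∈ Finset.range k, (2 * (m : ℚ) + 1)) *
      ∏ m ∈ Finset.range a, (2 * (m : ℚ) + 1)) = (-1) ^ k * ((z : ℚ) * (Nat.factorial (k + a) : ℚ)) := by
    apply mul_left_cancel₀ (mul_ne_zero hfa hfk)
    rw [← h1, ← h2] at hz
    rw [pow_add, add_comm k a]
    linear_combination ((-1 : ℚ)) ^ k * hz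
  rw [h3, padicNorm.mul, padicNorm.mul]
  have h4 : padicNorm p ((-1 : ℚ) ^ k) = 1 := by
    rcases neg_one_pow_eq_or ℚ k with h | h <;> rw [h] <;> simp
  rw [h4, one_mul]
  exact mul_le_of_le_one_left (padicNorm.nonneg _) (padicNorm.of_int z)

lemma NB_PB (h n k : ℕ) (hk : k ≤ h * n) :
    PB p ((2 * h * n + 1 : ℕ) : ℚ) (∏ m ∈ Finset.range (h * n), padicNorm p (2 * ((m : ℚ) - k) + 1))
      (TS (-(k : ℚ)) (NB h n)) := by
  have hM0 : (0 : ℚ) ≤ ((2 * h * n + 1 : ℕ) : ℚ) := by positivity
  unfold NB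
  rw [map_prod]
  apply PB.prod _ _ _ hM0
  · intro m _
    exact padicNorm.nonneg _
  · intro m hm
    rw [Finset.mem_range] at hm
    rw [TS_lin2]
    have e0 : 2 * -(k : ℚ) + ((2 * m + 1 : ℕ) : ℚ) = 2 * ((m : ℚ) - k) + 1 := by
      push_cast
      ring
    rw [e0]
    apply PB.lin hM0 (padicNorm.nonneg _) le_rfl
    have h3 := norm_inv_le (p := p) (a := 2 * ((m : ℤ) - k) + 1) (by omega)
      (M := ((2 * h * n + 1 : ℕ) : ℚ)) (by
        push_cast
        rw [abs_le]
        have h5 : (m : ℚ) ≤ h * n := by exact_mod_cast hm.le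
        have h6 : (k : ℚ) ≤ h * n := by exact_mod_cast hk
        have h7 : (0 : ℚ) ≤ m := by positivity
        have h8 : (0 : ℚ) ≤ k := by positivity
        constructor <;> linarith)
    push_cast at h3
    have h4 : 0 < padicNorm p (2 * ((m : ℚ) - k) + 1) := by
      refine lt_of_le_of_ne (padicNorm.nonneg _) (Ne.symm (padicNorm.nonzero ?_))
      have : (2 * ((m : ℤ) - k) + 1 : ℤ) ≠ 0 := by omega
      exact_mod_cast this
    rw [inv_le_iff_one_le_mul₀ h4] at h3
    have h5 := padicNorm.of_int (p := p) 2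
    push_cast at h5 ⊢
    linarith

lemma PN_PB (h n k : ℕ) (ds : List ℕ) (hk : k ≤ h * n) :
    PB p ((2 * h * n + 1 : ℕ) : ℚ)
      (ds.map fun d => padicNorm p (Nat.factorial ((h - 2 * d) * n) : ℚ)).prod
      (TS (-(k : ℚ)) (PN h n ds)) := by
  have hM0 : (0 : ℚ) ≤ ((2 * h * n + 1 : ℕ) : ℚ) := by positivity
  unfold PN
  rw [map_mul, TS_C]
  have h0 : 0 ≤ ∏ m ∈ Finset.range (h * n), padicNorm p (2 * ((m : ℚ) - k) + 1) :=
    Finset.prod_nonneg fun _ _ => padicNorm.nonneg _
  refine PB.mono hM0 (PB.mul hM0 (padicNorm.nonneg (cb h n ds)) h0 (PB.C hM0 (padicNorm.nonneg _)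
    le_rfl) (NB_PB h n k hk)) ?_
  have h1 := claim (p := p) (h * n) k hk
  have hF : 0 < padicNorm p (Nat.factorial (h * n) : ℚ) :=
    lt_of_le_of_ne (padicNorm.nonneg _) (Ne.symm (padicNorm.nonzero
      (by exact_mod_cast Nat.factorial_ne_zero _)))
  have h2 : 0 ≤ (ds.map fun d => padicNorm p (Nat.factorial ((h - 2 * d) * n) : ℚ)).prod := by
    rw [← padicNorm_listprod]
    exact padicNorm.nonneg _
  unfold cb
  rw [padicNorm.div, padicNorm.mul, padicNorm_listprod]
  set A := (ds.map fun d => padicNorm p (Nat.factorial ((h - 2 * d) * n) : ℚ)).prod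
  set B := ∏ m ∈ Finset.range (h * n), padicNorm p (2 * ((m : ℚ) - k) + 1)
  calc padicNorm p (2 ^ (h * n)) * A / padicNorm p (Nat.factorial (h * n) : ℚ) * B
      = A * (padicNorm p (2 ^ (h * n)) * B / padicNorm p (Nat.factorial (h * n) : ℚ)) := by ring
    _ ≤ A * 1 := by
        apply mul_le_mul_of_nonneg_left _ h2
        rw [div_le_one hF]
        exact h1
    _ = A := mul_one A

end CrudeB

open CrudeB in
theorem T3_crude {p : ℕ} [hp : Fact p.Prime] (h n : ℕ) (ds : List ℕ) (hn : 1 ≤ n)
    (hc : ∀ d ∈ ds, 0 < d) (h2 : ∀ d ∈ ds, 2 * d < h) (_h0 : 0 < h) {k : ℕ}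
    (hk : k ∈ ss h 0 n) (i : ℕ) :
    padicNorm p (ba h n ds k i) ≤ ((2 * h * n + 1 : ℕ) : ℚ) ^ (3 * ds.length) := by
  set M : ℚ := ((2 * h * n + 1 : ℕ) : ℚ) with hM
  have hM1 : 1 ≤ M := by rw [hM]; exact_mod_cast (by omega : 1 ≤ 2 * h * n + 1)
  have hM0 : (0 : ℚ) ≤ M := by linarith
  have h2n : 2 * h * n = h * n + h * n := by ring
  unfold ba pa
  split_ifs with hi
  · have hkk := hk
    rw [ss, Finset.mem_Icc] at hkk
    have hkH : k ≤ h * n := by omega
    have hA0 : 0 ≤ (ds.map fun d => padicNorm p (Nat.factorial ((h - 2 * d) * n) : ℚ)).prod := by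
      rw [← padicNorm_listprod]
      exact padicNorm.nonneg _
    have h1 := pfc_bound (p := p) (ss h 0 n) (mu h n ds) (PN h n ds) k M _
      (fun m => if m = k then 1 else (padicNorm p ((m : ℚ) - k))⁻¹) hM0 hA0
      (PN_PB h n k ds hkH)
      (by
        intro m hm _
        have hmk := Finset.ne_of_mem_erase hm
        have hm2 := Finset.mem_of_mem_erase hm
        rw [ss, Finset.mem_Icc] at hm2
        simp only [hmk, if_false]
        refine ⟨le_rfl, ?_⟩
        have h3 := norm_inv_le (p := p) (a := (m : ℤ) - k) (by omega) (M := M) (by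
          push_cast
          rw [abs_le, hM]
          push_cast
          have h5 : (m : ℚ) ≤ h * n := by exact_mod_cast (by omega : m ≤ h * n)
          have h6 : (k : ℚ) ≤ h * n := by exact_mod_cast (by omega : k ≤ h * n)
          have h7 : (0 : ℚ) ≤ m := by positivity
          have h8 : (0 : ℚ) ≤ k := by positivity
          constructor <;> linarith)
        push_cast at h3
        exact h3)
      (by
        intro m _
        beta_reduce
        split_ifs
        · exact zero_le_one
        · exact inv_nonneg.2 (padicNorm.nonneg _)) (mu h n ds k - i)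
    refine h1.trans ?_
    have h4 : ∏ m ∈ (ss h 0 n).erase k, (if m = k then 1 else (padicNorm p ((m : ℚ) - k))⁻¹) ^ mu h n ds m
        = (ds.map fun d => ∏ m ∈ Finset.Icc (d * n) (h * n - d * n), (if m = k then 1 else (padicNorm p ((m : ℚ) - k))⁻¹)).prod := by
      rw [← prod_mu h 0 n ds hn hc h2, ← Finset.mul_prod_erase _ _ hk]
      simp
    rw [h4, ← List.prod_map_mul]
    have h6 : ∀ l : List ℕ, (∀ d ∈ l, 2 * d < h) → (l.map fun d => padicNorm p (Nat.factorial ((h - 2 * d) * n) : ℚ) *
        ∏ m ∈ Finset.Icc (d * n) (h * n - d * n), (if m = k then 1 else (padicNorm p ((m : ℚ) - k))⁻¹)).prod ≤ (M ^ 2) ^ l.length := by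
      intro l hl
      induction l with
      | nil => simp
      | cons d l ih =>
        rw [List.map_cons, List.prod_cons, List.length_cons, pow_succ']
        have hd := hl d (by simp)
        have hdn : h * n = (h - 2 * d) * n + 2 * (d * n) := by
          have : h = (h - 2 * d) + 2 * d := by omega
          conv_lhs => rw [this]
          ring
        have e1 : h * n - d * n = d * n + (h - 2 * d) * n := by omega
        rw [e1]
        apply mul_le_mul
        · apply brick_bound (p := p) (d * n) ((h - 2 * d) * n) k M hM1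
          · rw [hM]; exact_mod_cast (by omega : (h - 2 * d) * n + 1 ≤ 2 * h * n + 1)
          · rw [hM]; exact_mod_cast (by omega : d * n + (h - 2 * d) * n ≤ 2 * h * n + 1)
          · rw [hM]; exact_mod_cast (by omega : k ≤ 2 * h * n + 1)
        · have := ih (fun d' hd' => hl d' (List.mem_cons_of_mem _ hd'))
          exact this
        · apply List.prod_nonneg
          intro a ha
          rw [List.mem_map] at ha
          obtain ⟨d', _, rfl⟩ := ha
          apply mul_nonneg (padicNorm.nonneg _)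
          apply Finset.prod_nonneg
          intro m _
          split_ifs
          · exact zero_le_one
          · exact inv_nonneg.2 (padicNorm.nonneg _)
        · positivity
    have h7 : mu h n ds k - i ≤ ds.length := (Nat.sub_le _ _).trans (mu_le_length h n ds k)
    calc _ ≤ (M ^ 2) ^ ds.length * M ^ (mu h n ds k - i) := by
          apply mul_le_mul_of_nonneg_right (h6 ds h2); positivity
      _ ≤ (M ^ 2) ^ ds.length * M ^ ds.length := by
          apply mul_le_mul_of_nonneg_left _ (by positivity)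
          exact pow_le_pow_right₀ hM1 h7
      _ = M ^ (3 * ds.length) := by rw [← pow_mul, ← pow_add]; congr 1; ring
  · rw [padicNorm.zero]
    positivity

end

end Pool.Agent.H336R2.BV
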