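import Pool.Agent.H336R2.BV.TaskH
import Pool.Agent.H336R2.BV.T3c

/-!
# p-adic size of the linear form in beta values
-/

open Polynomial

namespace Pool.Agent.H336R2.BV

open Pool.Agent.H337R2

noncomputable section

set_option linter.unusedSectionVars false

variable {p : ℕ} [hp : Fact p.Prime]

lemma norm_neg_one_pow (k : ℕ) : padicNorm p ((-1 : ℚ) ^ k) = 1 := by
  rcases neg_one_pow_eq_or ℚ k with h | h <;> rw [h] <;> simp

lemma norm_sg (h n k i : ℕ) : padicNorm p (sg h n k i) = 1 := by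
  unfold sg
  split_ifs
  · simp
  · exact norm_neg_one_pow i

lemma norm_odd_small {l : ℕ} (hl : 2 * l + 1 < p) : padicNorm p (2 * (l : ℚ) + 1) = 1 := by
  have := (padicNorm.nat_eq_one_iff (p := p) (2 * l + 1)).2 (by
    intro h
    have := Nat.le_of_dvd (by omega) h
    omega)
  push_cast at this
  exact this

lemma hb_norm_small (e m : ℕ) (hm : 2 * m ≤ p) : padicNorm p (hb e m) ≤ 1 := by
  unfold hb
  apply padicNorm.sum_le' _ zero_le_one
  intro l hl
  rw [Finset.mem_range] at hl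
  rw [padicNorm.div, norm_neg_one_pow, padicNorm_pow', norm_odd_small (by omega)]
  simp

lemma hb_norm_med (e m : ℕ) (hm : 2 * m ≤ p ^ 2) : padicNorm p (hb e m) ≤ (p : ℚ) ^ e := by
  unfold hb
  have hp1 : (1 : ℚ) ≤ p := p_one'
  apply padicNorm.sum_le' _ (by positivity)
  intro l hl
  rw [Finset.mem_range] at hl
  rw [padicNorm.div, norm_neg_one_pow, padicNorm_pow', one_div, ← inv_pow]
  apply pow_le_pow_left₀ (inv_nonneg.2 (padicNorm.nonneg _))
  have h1 := norm_small (p := p) (a := ((2 * l + 1 : ℕ) : ℤ)) (by positivity) (by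
    rw [abs_of_nonneg (by positivity)]
    exact_mod_cast (by omega : 2 * l + 1 < p ^ 2))
  have h2 : (((2 * l + 1 : ℕ) : ℤ) : ℚ) = 2 * (l : ℚ) + 1 := by push_cast; ring
  rw [h2] at h1
  rw [h1]
  split_ifs
  · simp
  · simpa using hp.out.one_lt.le

lemma hb_norm_crude (e m : ℕ) (M : ℚ) (hM : (2 * (m : ℚ)) ≤ M) (hM1 : 1 ≤ M) : padicNorm p (hb e m) ≤ M ^ e := by
  unfold hb
  apply padicNorm.sum_le' _ (by positivity)
  intro l hl
  rw [Finset.mem_range] at hl
  rw [padicNorm.div, norm_neg_one_pow, padicNorm_pow', one_div, ← inv_pow]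
  apply pow_le_pow_left₀ (inv_nonneg.2 (padicNorm.nonneg _))
  have := norm_inv_le (p := p) (a := ((2 * l + 1 : ℕ) : ℤ)) (by positivity) (M := M) (by
    rw [abs_of_nonneg (by positivity)]
    push_cast
    refine le_trans ?_ hM
    have : (l : ℚ) + 1 ≤ m := by exact_mod_cast (by omega : l + 1 ≤ m)
    linarith)
  push_cast at this
  exact this

lemma ak_le {h n k : ℕ} (hk : k ∈ ss h 0 n) : 2 * ak h n k ≤ h * n + 2 := by
  unfold ak
  rw [ss, Finset.mem_Icc] at hk
  split_ifs <;> omega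

lemma xfb_norm (h n : ℕ) (ds : List ℕ) (u : ℕ → ℚ) (W : ℚ) (hW : 0 ≤ W)
    (h1 : ∀ i ∈ Finset.Icc 1 ds.length, ∀ k ∈ ss h 0 n,
      padicNorm p (ba h n ds k i) * padicNorm p (if Even i then u i else 0) ≤ W)
    (h2 : ∀ i ∈ Finset.Icc 1 ds.length, ∀ k ∈ ss h 0 n,
      padicNorm p (ba h n ds k i) * padicNorm p (hb i (ak h n k)) ≤ W) :
    padicNorm p (xfb h n ds u) ≤ W := by
  unfold xfb
  apply padicNorm.sum_le' _ hW
  intro i hi
  rw [padicNorm.mul]
  have e1 : padicNorm p ((2 : ℚ) ^ i) ≤ 1 := by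
    have := padicNorm.of_int (p := p) ((2 : ℤ) ^ i)
    push_cast at this
    exact this
  have e2 : padicNorm p ((∑ k ∈ ss h 0 n, (-1) ^ k * ba h n ds k i) * (if Even i then u i else 0) -
      ∑ k ∈ ss h 0 n, (-1) ^ k * ba h n ds k i * (sg h n k i * hb i (ak h n k))) ≤ W := by
    refine padicNorm.sub.trans (max_le ?_ ?_)
    · rw [Finset.sum_mul]
      apply padicNorm.sum_le' _ hW
      intro k hk
      rw [padicNorm.mul, padicNorm.mul, norm_neg_one_pow, one_mul]
      exact h1 i hi k hk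
    · apply padicNorm.sum_le' _ hW
      intro k hk
      rw [padicNorm.mul, padicNorm.mul, norm_neg_one_pow, one_mul, padicNorm.mul, norm_sg, one_mul]
      exact h2 i hi k hk
  calc _ ≤ 1 * W := mul_le_mul e1 e2 (padicNorm.nonneg _) zero_le_one
    _ = W := one_mul W

lemma norm_u {u : ℕ → ℚ} {q : ℕ} (hq : 0 < q) (hu : ∀ i, ∃ z : ℤ, (q : ℚ) * u i = z) (i : ℕ) :
    padicNorm p (if Even i then u i else 0) ≤ (padicNorm p (q : ℚ))⁻¹ := by
  have hq0 : 0 < padicNorm p (q : ℚ) :=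
    lt_of_le_of_ne (padicNorm.nonneg _) (Ne.symm (padicNorm.nonzero (by positivity)))
  split_ifs
  · obtain ⟨z, hz⟩ := hu i
    have h1 : padicNorm p ((q : ℚ) * u i) ≤ 1 := by
      rw [hz]; exact padicNorm.of_int z
    rw [padicNorm.mul] at h1
    rw [← one_div, le_div_iff₀ hq0, mul_comm]
    exact h1
  · rw [padicNorm.zero]
    exact inv_nonneg.2 hq0.le

/-- crude bound for all primes -/
theorem xfb_crude (h n : ℕ) (ds : List ℕ) (hn : 1 ≤ n)
    (hc : ∀ d ∈ ds, 0 < d) (h2 : ∀ d ∈ ds, 2 * d < h) (h0 : 0 < h) (u : ℕ → ℚ) (q : ℕ) (hq : 0 < q)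
    (hu : ∀ i, ∃ z : ℤ, (q : ℚ) * u i = z) :
    padicNorm p (q * xfb h n ds u) ≤ ((2 * h * n + 1 : ℕ) : ℚ) ^ (4 * ds.length + 1) := by
  set M : ℚ := ((2 * h * n + 1 : ℕ) : ℚ) with hM
  have hM1 : 1 ≤ M := by rw [hM]; exact_mod_cast (by omega : 1 ≤ 2 * h * n + 1)
  have hq0 : 0 < padicNorm p (q : ℚ) :=
    lt_of_le_of_ne (padicNorm.nonneg _) (Ne.symm (padicNorm.nonzero (by positivity)))
  have hq1 : padicNorm p (q : ℚ) ≤ 1 := padicNorm.of_nat q
  rw [padicNorm.mul]
  have key : padicNorm p (xfb h n ds u) ≤ M ^ (4 * ds.length + 1) * (padicNorm p (q : ℚ))⁻¹ := by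
    apply xfb_norm
    · positivity
    · intro i hi k hk
      have h3 := T3_crude (p := p) h n ds hn hc h2 h0 hk i
      apply mul_le_mul _ (norm_u hq hu i) (padicNorm.nonneg _) (by positivity)
      refine h3.trans ?_
      exact pow_le_pow_right₀ hM1 (by omega)
    · intro i hi k hk
      rw [Finset.mem_Icc] at hi
      have h3 := T3_crude (p := p) h n ds hn hc h2 h0 hk i
      have hhn : 1 ≤ h * n := Nat.mul_pos h0 hn
      have h4 := hb_norm_crude (p := p) i (ak h n k) M (by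
        have := ak_le hk
        rw [hM]
        have h5 : 2 * ak h n k ≤ 2 * h * n + 1 := by
          have : 2 * h * n = 2 * (h * n) := by ring
          omega
        exact_mod_cast h5) hM1
      calc _ ≤ M ^ (3 * ds.length) * M ^ i := mul_le_mul h3 h4 (padicNorm.nonneg _) (by positivity)
        _ = M ^ (3 * ds.length + i) := by rw [pow_add M (3 * ds.length)]
        _ ≤ M ^ (4 * ds.length + 1) := pow_le_pow_right₀ hM1 (by omega)
        _ = M ^ (4 * ds.length + 1) * 1 := by ring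
        _ ≤ _ := by
          apply mul_le_mul_of_nonneg_left _ (by positivity)
          exact (one_le_inv₀ hq0).2 hq1
  calc _ ≤ padicNorm p (q : ℚ) * (M ^ (4 * ds.length + 1) * (padicNorm p (q : ℚ))⁻¹) :=
        mul_le_mul_of_nonneg_left key hq0.le
    _ = _ := by field_simp

/-- a class with at most one pole of the widest brick -/
lemma single_of_cnt {h n D : ℕ} {ds : List ℕ} (hD : ∀ d ∈ ds, D ≤ d) {k : ℕ}
    (hk : mu h n ds k ≠ 0) (hcnt : cnt p (D * n) (h * n - D * n) k ≤ 1) :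
    (∀ m ∈ ss h 0 n, m ≠ k → mu h n ds m ≠ 0 → ¬ (p : ℤ) ∣ (m : ℤ) - k) ∧
      (h * n < 2 * k → 2 * k < h * n + p) ∧ (2 * k ≤ h * n → h * n < 2 * k + p) := by
  have hp0 := hp.out.pos
  have mem : ∀ m, mu h n ds m ≠ 0 → m ∈ Finset.Icc (D * n) (h * n - D * n) := by
    intro m hm
    obtain ⟨d, hd, hd1, hd2⟩ := mu_ne_zero hm
    have h3 : D * n ≤ d * n := Nat.mul_le_mul_right n (hD d hd)
    rw [Finset.mem_Icc]
    omega
  have one : ∀ m ∈ Finset.Icc (D * n) (h * n - D * n), (p : ℤ) ∣ (m : ℤ) - k → m = k := by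
    intro m hm hdvd
    unfold cnt at hcnt
    rw [Finset.card_le_one] at hcnt
    exact hcnt m (Finset.mem_filter.2 ⟨hm, hdvd⟩) k (Finset.mem_filter.2 ⟨mem k hk, by simp⟩)
  have hkm := mem k hk
  rw [Finset.mem_Icc] at hkm
  refine ⟨?_, ?_, ?_⟩
  · intro m _ hmk hm hdvd
    exact hmk (one m (mem m hm) hdvd)
  · intro h3
    by_contra h4
    have h5 := one (k - p) (by rw [Finset.mem_Icc]; omega) (by
      rw [Nat.cast_sub (by omega)]
      exact ⟨-1, by ring⟩)
    omega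
  · intro h3
    by_contra h4
    have h5 := one (k + p) (by rw [Finset.mem_Icc]; omega) (by
      push_cast
      exact ⟨1, by ring⟩)
    omega

/-- medium primes -/
theorem xfb_med (h n D : ℕ) (ds : List ℕ) (hn : 1 ≤ n) (hodd : Odd (h * n)) (hD : ∀ d ∈ ds, D ≤ d)
    (hc : ∀ d ∈ ds, 0 < d) (h2 : ∀ d ∈ ds, 2 * d < h) (h0 : 0 < h) (hp1 : p ≠ 2) (hp2 : 2 * h * n < p ^ 2)
    (u : ℕ → ℚ) (q : ℕ) (hq : 0 < q)
    (hu : ∀ i, ∃ z : ℤ, (q : ℚ) * u i = z) (E : ℕ) (H : HypB p h n D ds E) :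
    padicNorm p (q * xfb h n ds u) ≤ (p : ℚ) ^ E := by
  have hp0 : (p : ℚ) ≠ 0 := p_pos'.ne'
  have hp1' : (1 : ℚ) ≤ p := p_one'
  have hq0 : 0 < padicNorm p (q : ℚ) :=
    lt_of_le_of_ne (padicNorm.nonneg _) (Ne.symm (padicNorm.nonzero (by positivity)))
  have hq1 : padicNorm p (q : ℚ) ≤ 1 := padicNorm.of_nat q
  have hzero : ∀ i, 1 ≤ i → ∀ k, mu h n ds k = 0 → ba h n ds k i = 0 := by
    intro i hi k hm
    unfold ba
    exact pa_zero_of_mu hi hm
  have hEi : ∀ i : ℕ, (p : ℚ) ^ ((E : ℤ) - i) * (p : ℚ) ^ i = (p : ℚ) ^ E := by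
    intro i
    rw [← zpow_natCast (p : ℚ) i, ← zpow_natCast (p : ℚ) E, ← zpow_add₀ hp0]
    congr 1; ring
  have hmain : ∀ i, 1 ≤ i → ∀ k ∈ ss h 0 n, padicNorm p (ba h n ds k i) ≤ (p : ℚ) ^ E ∧
      padicNorm p (ba h n ds k i) * padicNorm p (hb i (ak h n k)) ≤ (p : ℚ) ^ E := by
    intro i hi k hk
    by_cases hm : mu h n ds k = 0
    · rw [hzero i hi k hm]; simp
    rcases H k hk hm with h3 | ⟨h3, h4⟩
    · have h5 : padicNorm p (ba h n ds k i) ≤ (p : ℚ) ^ ((E : ℤ) - i) := by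
        refine (T3_main h n ds hn hc h2 h0 hp1 hp2 hk i).trans ?_
        apply zpow_le_zpow_right₀ hp1'
        linarith
      refine ⟨?_, ?_⟩
      · calc _ ≤ (p : ℚ) ^ ((E : ℤ) - i) * 1 := by rw [mul_one]; exact h5
          _ ≤ (p : ℚ) ^ ((E : ℤ) - i) * (p : ℚ) ^ i := by
            apply mul_le_mul_of_nonneg_left _ (by positivity)
            exact one_le_pow₀ hp1'
          _ = _ := hEi i
      · have h6 := hb_norm_med (p := p) i (ak h n k) (by
          have h7 := ak_le hk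
          have h8 : 2 * h * n = 2 * (h * n) := by ring
          have h9 : 1 ≤ h * n := Nat.mul_pos h0 hn
          omega)
        calc _ ≤ (p : ℚ) ^ ((E : ℤ) - i) * (p : ℚ) ^ i := mul_le_mul h5 h6 (padicNorm.nonneg _) (by positivity)
          _ = _ := hEi i
    · obtain ⟨s1, s2, s3⟩ := single_of_cnt (p := p) hD hm h3
      have h5 : padicNorm p (ba h n ds k i) ≤ (p : ℚ) ^ E := by
        refine (T3_int h n ds hp1 h2 hp2 hk i s1).trans ?_
        rw [← zpow_natCast (p : ℚ) E]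
        exact zpow_le_zpow_right₀ hp1' h4
      refine ⟨h5, ?_⟩
      have h6 := hb_norm_small (p := p) i (ak h n k) (by
        unfold ak
        obtain ⟨g, hg⟩ := hodd
        split_ifs with h7
        · have := s2 h7
          omega
        · have := s3 (by omega)
          omega)
      calc _ ≤ (p : ℚ) ^ E * 1 := mul_le_mul h5 h6 (padicNorm.nonneg _) (by positivity)
        _ = _ := mul_one _
  rw [padicNorm.mul]
  have key : padicNorm p (xfb h n ds u) ≤ (p : ℚ) ^ E * (padicNorm p (q : ℚ))⁻¹ := by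
    apply xfb_norm
    · positivity
    · intro i hi k hk
      rw [Finset.mem_Icc] at hi
      exact mul_le_mul (hmain i hi.1 k hk).1 (norm_u hq hu i) (padicNorm.nonneg _) (by positivity)
    · intro i hi k hk
      rw [Finset.mem_Icc] at hi
      refine (hmain i hi.1 k hk).2.trans ?_
      calc (p : ℚ) ^ E = (p : ℚ) ^ E * 1 := (mul_one _).symm
        _ ≤ _ := by
          apply mul_le_mul_of_nonneg_left _ (by positivity)
          exact (one_le_inv₀ hq0).2 hq1
  calc _ ≤ padicNorm p (q : ℚ) * ((p : ℚ) ^ E * (padicNorm p (q : ℚ))⁻¹) :=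
        mul_le_mul_of_nonneg_left key hq0.le
    _ = _ := by field_simp

end

end Pool.Agent.H336R2.BV
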