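import Pool.Agent.H336R2.BV.Defs

open Polynomial Filter Topology

namespace Pool.Agent.H336R2.BV

open Pool.Agent.H337R2

noncomputable section

namespace TA

/-- partial sums -/
def S (e M : ℕ) : ℝ := ∑ l ∈ Finset.range M, (-1 : ℝ) ^ l / (2 * (l : ℝ) + 1) ^ e

lemma S_hb (e m : ℕ) : S e m = ((hb e m : ℚ) : ℝ) := by
  unfold S hb
  push_cast
  rfl

lemma S_tendsto (e : ℕ) (he : 1 ≤ e) :
    Tendsto (S e) atTop (𝓝 (if e = 1 then Real.pi / 4 else bt e)) := by
  split_ifs with h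
  · subst h
    have h1 := Real.tendsto_sum_pi_div_four
    refine h1.congr fun N => ?_
    unfold S
    apply Finset.sum_congr rfl
    intro i _
    rw [pow_one]
  · have he2 : 2 ≤ e := by omega
    have hs : Summable (fun l : ℕ => (-1 : ℝ) ^ l / (2 * (l : ℝ) + 1) ^ e) := by
      have h2 : Summable (fun l : ℕ => 1 / ((l : ℝ) + 1) ^ 2) := by
        have h3 := (summable_nat_add_iff 1).2 (Real.summable_one_div_nat_pow.2 (by norm_num : 1 < 2))
        refine h3.congr fun l => ?_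
        push_cast
        rfl
      refine Summable.of_norm_bounded h2 fun l => ?_
      rw [norm_div, norm_pow, norm_pow, norm_neg, norm_one, one_pow, Real.norm_of_nonneg (by positivity)]
      apply one_div_le_one_div_of_le (by positivity)
      calc ((l : ℝ) + 1) ^ 2 ≤ ((l : ℝ) + 1) ^ e :=
            pow_le_pow_right₀ (by have : (0 : ℝ) ≤ l := Nat.cast_nonneg l; linarith) he2
        _ ≤ (2 * (l : ℝ) + 1) ^ e := by
            apply pow_le_pow_left₀ (by positivity)
            have : (0 : ℝ) ≤ l := Nat.cast_nonneg l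
            linarith
    exact hs.hasSum.tendsto_sum_nat

end TA

open TA

/-- limits of the shifted alternating sums, `q = 2a+1 > 0` -/
theorem T1a_tendsto_pos (e a : ℕ) (he : 1 ≤ e) :
    Tendsto (fun N : ℕ => ∑ b ∈ Finset.range N, (-1 : ℝ) ^ b / (2 * (b : ℝ) + (2 * a + 1)) ^ e) atTop
      (𝓝 ((-1) ^ a * ((if e = 1 then Real.pi / 4 else bt e) - (hb e a : ℚ)))) := by
  have h1 : ∀ N : ℕ, ∑ b ∈ Finset.range N, (-1 : ℝ) ^ b / (2 * (b : ℝ) + (2 * a + 1)) ^ e =
      (-1) ^ a * (S e (N + a) - (hb e a : ℚ)) := by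
    intro N
    have h2 : S e (N + a) = S e a + ∑ b ∈ Finset.range N,
        (-1 : ℝ) ^ (a + b) / (2 * ((a + b : ℕ) : ℝ) + 1) ^ e := by
      unfold S
      rw [add_comm N a, Finset.sum_range_add]
    rw [h2, ← S_hb, add_sub_cancel_left, Finset.mul_sum]
    apply Finset.sum_congr rfl
    intro b _
    have h3 : ((-1 : ℝ) ^ a) * (-1) ^ a = 1 := by rw [← mul_pow]; simp
    rw [pow_add, ← mul_div_assoc, ← mul_assoc, h3, one_mul]
    congr 2
    push_cast
    ring
  simp only [h1]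
  exact (((S_tendsto e he).comp (tendsto_add_atTop_nat a)).sub_const _).const_mul _

/-- limits of the shifted alternating sums, `q = 1 - 2a < 0` -/
theorem T1b_tendsto_neg (e a : ℕ) (he : 1 ≤ e) :
    Tendsto (fun N : ℕ => ∑ b ∈ Finset.range N, (-1 : ℝ) ^ b / (2 * (b : ℝ) + (1 - 2 * a)) ^ e) atTop
      (𝓝 ((-1) ^ a * ((if e = 1 then Real.pi / 4 else bt e) - (-1) ^ e * (hb e a : ℚ)))) := by
  rw [← tendsto_add_atTop_iff_nat a]
  have h1 : ∀ N : ℕ, ∑ b ∈ Finset.range (N + a), (-1 : ℝ) ^ b / (2 * (b : ℝ) + (1 - 2 * a)) ^ e =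
      (-1) ^ a * (S e N - (-1) ^ e * (hb e a : ℚ)) := by
    intro N
    rw [add_comm N a, Finset.sum_range_add]
    have h2 : ∑ b ∈ Finset.range a, (-1 : ℝ) ^ b / (2 * (b : ℝ) + (1 - 2 * a)) ^ e =
        -((-1) ^ a * (-1) ^ e * S e a) := by
      rw [← Finset.sum_range_reflect]
      unfold S
      rw [Finset.mul_sum, ← Finset.sum_neg_distrib]
      apply Finset.sum_congr rfl
      intro l hl
      rw [Finset.mem_range] at hl
      have e1 : ((a - 1 - l : ℕ) : ℝ) = (a : ℝ) - 1 - l := by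
        rw [Nat.cast_sub (by omega), Nat.cast_sub (by omega)]
        simp
      have e2 : (-1 : ℝ) ^ (a - 1 - l) = -((-1) ^ a * (-1) ^ l) := by
        have e3 : (-1 : ℝ) ^ a = (-1) ^ (a - 1 - l) * ((-1) ^ l * (-1)) := by
          rw [← pow_succ, ← pow_add]
          congr 1
          omega
        have e4 : ((-1 : ℝ) ^ l) * (-1) ^ l = 1 := by rw [← mul_pow]; simp
        rw [e3]
        linear_combination (-(-1 : ℝ) ^ (a - 1 - l)) * e4
      rw [e1, e2]
      have e5 : 2 * ((a : ℝ) - 1 - l) + (1 - 2 * a) = (-1) * (2 * l + 1) := by ring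
      rw [e5, mul_pow]
      have e6 : ((-1 : ℝ) ^ e) * (-1) ^ e = 1 := by rw [← mul_pow]; simp
      have e7 : (2 * (l : ℝ) + 1) ^ e ≠ 0 := by positivity
      have e8 : (-1 : ℝ) ^ e ≠ 0 := by
        intro h0
        rw [h0] at e6
        norm_num at e6
      rw [div_eq_iff (mul_ne_zero e8 e7)]
      have e9 : (-1 : ℝ) ^ l / (2 * (l : ℝ) + 1) ^ e * (2 * (l : ℝ) + 1) ^ e = (-1) ^ l :=
        div_mul_cancel₀ _ e7
      calc -((-1 : ℝ) ^ a * (-1) ^ l) = -((-1) ^ a * (((-1) ^ e * (-1) ^ e) *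
            ((-1 : ℝ) ^ l / (2 * (l : ℝ) + 1) ^ e * (2 * (l : ℝ) + 1) ^ e))) := by
            rw [e6, e9, one_mul]
        _ = _ := by ring
    rw [h2]
    have h3 : ∑ x ∈ Finset.range N, (-1 : ℝ) ^ (a + x) /
        (2 * ((a + x : ℕ) : ℝ) + (1 - 2 * a)) ^ e = (-1) ^ a * S e N := by
      unfold S
      rw [Finset.mul_sum]
      apply Finset.sum_congr rfl
      intro l _
      rw [pow_add, mul_div_assoc]
      congr 3
      push_cast
      ring
    rw [h3, ← S_hb]
    ring
  simp only [h1]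
  exact ((S_tendsto e he).sub_const _).const_mul _

end

end Pool.Agent.H336R2.BV
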