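import Pool.Agent.H336R2.BV.Defs

/-! Closed form of the terms. -/

open Polynomial

namespace Pool.Agent.H336R2.BV

open Pool.Agent.H337R2

theorem const_TS (c : ℚ) (P : ℚ[X]) : PowerSeries.constantCoeff (TS c P) = P.eval c := by
  have h : TS c P = ((Polynomial.taylor c P : ℚ[X]) : PowerSeries ℚ) := rfl
  rw [h, Polynomial.constantCoeff_coe, Polynomial.taylor_coeff_zero]

theorem const_iv (a : ℚ) : PowerSeries.constantCoeff (iv a) = a⁻¹ := by
  rw [← PowerSeries.coeff_zero_eq_constantCoeff_apply]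
  unfold iv
  rw [PowerSeries.coeff_mk]
  simp

theorem coeff_zero_RS (s : Finset ℕ) (μ : ℕ → ℕ) (P : ℚ[X]) (c : ℚ) :
    PowerSeries.coeff 0 (RS s μ P c) = P.eval c * ∏ m ∈ s, ((c + m)⁻¹) ^ μ m := by
  rw [PowerSeries.coeff_zero_eq_constantCoeff_apply]
  unfold RS VV
  rw [map_mul, const_TS, map_prod]
  congr 1
  apply Finset.prod_congr rfl
  intro m _
  rw [map_pow, const_iv]

theorem eval_NB (h n a : ℕ) :
    (NB h n).eval ((a : ℚ) + 1 / 2) =
      2 ^ (h * n) * ((h * n).factorial * ((a + h * n).choose (h * n) : ℚ)) := by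
  unfold NB
  rw [eval_prod]
  have h1 : ∀ m ∈ Finset.range (h * n),
      (2 * X + C (((2 * m + 1 : ℕ) : ℚ)) : ℚ[X]).eval ((a : ℚ) + 1 / 2) =
        2 * ((a + 1 + m : ℕ) : ℚ) := by
    intro m _
    simp only [eval_add, eval_mul, eval_ofNat, eval_X, eval_C]
    push_cast
    ring
  rw [Finset.prod_congr rfl h1, Finset.prod_mul_distrib, Finset.prod_const, Finset.card_range]
  congr 1
  have h2 := Nat.ascFactorial_eq_prod_range (a + 1) (h * n)
  have h3 := Nat.ascFactorial_eq_factorial_mul_choose a (h * n)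
  rw [h3] at h2
  have h4 := congrArg (Nat.cast : ℕ → ℚ) h2
  rw [Nat.cast_prod, Nat.cast_mul] at h4
  exact h4.symm

/-- closed form of the terms -/
theorem T2a_trm (h n : ℕ) (ds : List ℕ) (hn : 1 ≤ n)
    (hc : ∀ d ∈ ds, 0 < d) (h2 : ∀ d ∈ ds, 2 * d < h) (a : ℕ) :
    trm h n ds a = (-1) ^ a * (4 ^ (h * n) * ((a + h * n).choose (h * n) : ℝ) *
      (ds.map fun d => (Nat.factorial ((h - 2 * d) * n) : ℝ) /
        ∏ k ∈ Finset.Icc (d * n) (h * n - d * n), ((a : ℝ) + 1 / 2 + k)).prod) := by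
  have key : PowerSeries.coeff 0 (RS (ss h 0 n) (mu h n ds) (PN h n ds) ((a : ℚ) + 1 / 2)) =
      4 ^ (h * n) * ((a + h * n).choose (h * n) : ℚ) *
      (ds.map fun d => (Nat.factorial ((h - 2 * d) * n) : ℚ) /
        ∏ k ∈ Finset.Icc (d * n) (h * n - d * n), ((a : ℚ) + 1 / 2 + k)).prod := by
    rw [coeff_zero_RS, prod_mu h 0 n ds hn hc h2]
    unfold PN
    rw [eval_mul, eval_C, eval_NB]
    unfold cb
    have hf : ((h * n).factorial : ℚ) ≠ 0 := by exact_mod_cast Nat.factorial_ne_zero _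
    have e1 : (4 : ℚ) ^ (h * n) = 2 ^ (h * n) * 2 ^ (h * n) := by
      rw [← mul_pow]
      norm_num
    have e2 : (ds.map fun d => (Nat.factorial ((h - 2 * d) * n) : ℚ) /
        ∏ k ∈ Finset.Icc (d * n) (h * n - d * n), ((a : ℚ) + 1 / 2 + k)).prod =
        (ds.map fun d => (Nat.factorial ((h - 2 * d) * n) : ℚ)).prod *
        (ds.map fun d => ∏ k ∈ Finset.Icc (d * n) (h * n - d * n),
          ((a : ℚ) + 1 / 2 + k)⁻¹).prod := by
      rw [← List.prod_map_mul]
      congr 1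
      apply List.map_congr_left
      intro d _
      rw [Finset.prod_inv_distrib, div_eq_mul_inv]
    rw [e2, e1]
    field_simp
  unfold trm
  rw [key]
  congr 1
  push_cast
  congr 1
  rw [List.map_map]
  congr 1
  apply List.map_congr_left
  intro d _
  simp only [Function.comp_apply]
  push_cast
  rfl

end Pool.Agent.H336R2.BV
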