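import Pool.Agent.H336R2.BV.Defs

/-!
# Task H: p-adic bounds for medium primes (T3_main, T3_int)  (helper954)
-/

open Polynomial Filter Topology

namespace Pool.Agent.H336R2.BV

open Pool.Agent.H337R2

noncomputable section

variable {p : ℕ} [hp : Fact p.Prime]

lemma norm_two (hp1 : p ≠ 2) : padicNorm p (2 : ℚ) = 1 := by
  have h := (padicNorm.nat_eq_one_iff (p := p) 2).2 (by
    intro h
    exact hp1 ((Nat.prime_dvd_prime_iff_eq hp.out Nat.prime_two).1 h))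
  exact_mod_cast h

lemma norm_cb (h n : ℕ) (ds : List ℕ) (hp1 : p ≠ 2) (hp2 : 2 * h * n < p ^ 2)
    (h2 : ∀ d ∈ ds, 2 * d < h) : padicNorm p (cb h n ds) = (p : ℚ) ^ (c0 p h n ds) := by
  have hp0 : (p : ℚ) ≠ 0 := p_pos'.ne'
  have hhn : h * n < p ^ 2 := by nlinarith
  unfold cb
  rw [padicNorm.div, padicNorm.mul, padicNorm_pow', norm_two hp1, one_pow, one_mul,
    padicNorm_listprod]
  have h1 : padicNorm p (Nat.factorial (h * n) : ℚ) = (p : ℚ) ^ (-((h * n / p : ℕ) : ℤ)) :=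
    norm_factorial hhn
  rw [h1]
  have h3 : ∀ l : List ℕ, (∀ d ∈ l, 2 * d < h) →
      (l.map fun d => padicNorm p (Nat.factorial ((h - 2 * d) * n) : ℚ)).prod
      = (p : ℚ) ^ (-(((l.map fun d => (h - 2 * d) * n / p).sum : ℕ) : ℤ)) := by
    intro l hl
    induction l with
    | nil => simp
    | cons d l ih =>
      simp only [List.map_cons, List.prod_cons, List.sum_cons]
      rw [ih (fun d' hd' => hl d' (List.mem_cons_of_mem _ hd')),
        norm_factorial (lt_of_le_of_lt (Nat.mul_le_mul_right n (Nat.sub_le _ _)) hhn),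
        ← zpow_add₀ hp0]
      congr 1
      push_cast; ring
  rw [h3 ds h2, ← zpow_sub₀ hp0]
  congr 1
  unfold c0
  push_cast; ring

lemma TS_factor (k m : ℕ) : TS (-(k : ℚ)) (2 * X + C (((2 * m + 1 : ℕ) : ℚ))) =
    PowerSeries.C 2 * PowerSeries.X + PowerSeries.C (((2 * ((m : ℤ) - k) + 1 : ℤ) : ℚ)) := by
  rw [TS_lin2]
  congr 2
  push_cast
  ring

lemma PB_PN (h n : ℕ) (ds : List ℕ) (k : ℕ) :
    PB p (p : ℚ) (padicNorm p (cb h n ds) * ((p : ℚ)⁻¹) ^ (nhc p h n k))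
      (TS (-(k : ℚ)) (PN h n ds)) := by
  have hp0 : (0 : ℚ) ≤ p := p_pos'.le
  have hinv : (0 : ℚ) ≤ (p : ℚ)⁻¹ := inv_nonneg.2 hp0
  have hcb : 0 ≤ padicNorm p (cb h n ds) := padicNorm.nonneg _
  unfold PN NB
  rw [(TS (-(k : ℚ))).map_mul, TS_C, map_prod]
  simp only [TS_factor]
  have h1 : ((p : ℚ)⁻¹) ^ (nhc p h n k)
      = ∏ m ∈ Finset.range (h * n), ((if (p : ℤ) ∣ 2 * ((m : ℤ) - k) + 1 then (p : ℚ)⁻¹ else 1)) ^ 1 := by
    rw [prod_ite_pow (Finset.range (h * n)) (fun m : ℕ => (p : ℤ) ∣ 2 * ((m : ℤ) - k) + 1)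
      ((p : ℚ)⁻¹) (fun _ => 1)]
    congr 1
    unfold nhc
    rw [Finset.card_filter]
    simp
  rw [h1]
  simp only [pow_one]
  apply PB.mul hp0 hcb
  · apply Finset.prod_nonneg
    intro m _
    split_ifs
    · exact hinv
    · exact zero_le_one
  · exact PB.C hp0 hcb le_rfl
  · apply PB.prod _ _ _ hp0
    · intro m _
      split_ifs
      · exact hinv
      · exact zero_le_one
    · intro m _
      apply PB.lin hp0
      · split_ifs
        · exact hinv
        · exact zero_le_one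
      · exact norm_le_ite (p := p) (2 * ((m : ℤ) - k) + 1)
      · have h2 : padicNorm p (2 : ℚ) ≤ 1 := by
          have := padicNorm.of_int (p := p) 2
          exact_mod_cast this
        refine h2.trans ?_
        split_ifs
        · rw [inv_mul_cancel₀ p_pos'.ne']
        · rw [one_mul]; exact p_one'

theorem ba_bound (h n : ℕ) (ds : List ℕ) (hn : 1 ≤ n)
    (hc : ∀ d ∈ ds, 0 < d) (h2 : ∀ d ∈ ds, 2 * d < h) (hp2 : h * n < p ^ 2) {k : ℕ}
    (hk : k ∈ ss h 0 n) (i : ℕ) :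
    padicNorm p (ba h n ds k i) ≤
      padicNorm p (cb h n ds) * ((p : ℚ)⁻¹) ^ (nhc p h n k + i) * (p : ℚ) ^ (nq p h n ds k) := by
  have hp0 : (0 : ℚ) ≤ p := p_pos'.le
  have hinv : (0 : ℚ) ≤ (p : ℚ)⁻¹ := inv_nonneg.2 hp0
  have hcst : 0 ≤ padicNorm p (cb h n ds) := padicNorm.nonneg _
  unfold ba pa
  split_ifs with hi
  · have h1 := pfc_bound (p := p) (ss h 0 n) (mu h n ds) (PN h n ds) k (p : ℚ) _
      (fun m => if (p : ℤ) ∣ (m : ℤ) - k then (p : ℚ) else 1) hp0 (by positivity)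
      (PB_PN h n ds k)
      (by
        intro m hm _
        rw [mem_ss_ne (Finset.mem_of_mem_erase hm) hk (Finset.ne_of_mem_erase hm) hp2]
        split_ifs
        · simp
        · simp [hp.out.one_lt.le])
      (by
        intro m _
        split_ifs
        · exact hp0
        · exact zero_le_one) (mu h n ds k - i)
    refine h1.trans (le_of_eq ?_)
    rw [prod_ite_pow, nq_split h 0 n k ds hn hc h2 hk]
    have h3 : ((p : ℚ)⁻¹) ^ i * (p : ℚ) ^ i = 1 := by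
      rw [← mul_pow, inv_mul_cancel₀ p_pos'.ne', one_pow]
    have h4 : (p : ℚ) ^ (mu h n ds k) = (p : ℚ) ^ (mu h n ds k - i) * (p : ℚ) ^ i := by
      rw [← pow_add, Nat.sub_add_cancel hi]
    rw [pow_add, pow_add, h4]
    linear_combination (padicNorm p (cb h n ds) * ((p : ℚ)⁻¹) ^ (nhc p h n k) *
      (p : ℚ) ^ (∑ m ∈ (ss h 0 n).erase k, mu h n ds m * (if (p : ℤ) ∣ (m : ℤ) - k then 1 else 0)) *
      (p : ℚ) ^ (mu h n ds k - i)) * (-1) * h3
  · rw [padicNorm.zero]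
    positivity

theorem T3_main {p : ℕ} [hp : Fact p.Prime] (h n : ℕ) (ds : List ℕ) (hn : 1 ≤ n)
    (hc : ∀ d ∈ ds, 0 < d) (h2 : ∀ d ∈ ds, 2 * d < h) (h0 : 0 < h) (hp1 : p ≠ 2) (hp2 : 2 * h * n < p ^ 2) {k : ℕ}
    (hk : k ∈ ss h 0 n) (i : ℕ) :
    padicNorm p (ba h n ds k i) ≤ (p : ℚ) ^ (-(eb p h n ds k) - i : ℤ) := by
  have hp0 : (p : ℚ) ≠ 0 := p_pos'.ne'
  refine (ba_bound h n ds hn hc h2 (by nlinarith) hk i).trans (le_of_eq ?_)
  rw [norm_cb h n ds hp1 hp2 h2]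
  rw [inv_pow, ← zpow_natCast, ← zpow_natCast, ← zpow_neg, ← zpow_add₀ hp0, ← zpow_add₀ hp0]
  congr 1
  unfold eb c0
  push_cast; ring

lemma PB_PN_int (h n : ℕ) (ds : List ℕ) (k : ℕ) (ρ : ℚ) (hρ : 1 ≤ ρ) :
    PB p ρ (padicNorm p (cb h n ds)) (TS (-(k : ℚ)) (PN h n ds)) := by
  have hρ0 : (0 : ℚ) ≤ ρ := by linarith
  have hcb : 0 ≤ padicNorm p (cb h n ds) := padicNorm.nonneg _
  unfold PN NB
  rw [(TS (-(k : ℚ))).map_mul, TS_C, map_prod]
  simp only [TS_factor]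
  have key := PB.prod (p := p) (Finset.range (h * n)) (fun _ => (1 : ℚ))
      (fun m : ℕ => PowerSeries.C 2 * PowerSeries.X + PowerSeries.C (((2 * ((m : ℤ) - k) + 1 : ℤ) : ℚ))) hρ0
      (fun _ _ => zero_le_one) (by
        intro m _
        apply PB.lin hρ0 zero_le_one
        · exact padicNorm.of_int (p := p) _
        · rw [one_mul]
          have := padicNorm.of_int (p := p) 2
          refine le_trans ?_ hρ
          exact_mod_cast this)
  have e5 := PB.mul hρ0 hcb (by simp) (PB.C hρ0 hcb le_rfl) key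
  simpa using e5

theorem T3_int {p : ℕ} [hp : Fact p.Prime] (h n : ℕ) (ds : List ℕ) (hp1 : p ≠ 2)
    (h2 : ∀ d ∈ ds, 2 * d < h) (hp2 : 2 * h * n < p ^ 2) {k : ℕ}
    (hk : k ∈ ss h 0 n) (i : ℕ)
    (hno : ∀ m ∈ ss h 0 n, m ≠ k → mu h n ds m ≠ 0 → ¬ (p : ℤ) ∣ (m : ℤ) - k) :
    padicNorm p (ba h n ds k i) ≤ (p : ℚ) ^ (c0 p h n ds) := by
  rw [← norm_cb h n ds hp1 hp2 h2]
  have hcb : 0 ≤ padicNorm p (cb h n ds) := padicNorm.nonneg _
  unfold ba pa
  split_ifs with hi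
  · have h1 := pfc_bound (p := p) (ss h 0 n) (mu h n ds) (PN h n ds) k 1 _
      (fun m => 1) zero_le_one hcb
      (PB_PN_int h n ds k 1 le_rfl)
      (by
        intro m hm hm0
        have h2 := hno m (Finset.mem_of_mem_erase hm) (Finset.ne_of_mem_erase hm) hm0
        have h3 := (padicNorm.int_eq_one_iff (p := p) _).2 h2
        push_cast at h3
        rw [h3]; simp)
      (by
        intro m _; exact zero_le_one) (mu h n ds k - i)
    simpa using h1
  · rw [padicNorm.zero]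
    positivity

end

end Pool.Agent.H336R2.BV
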